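import Mathlib

/-!
# The gap lemma for sums of terms with exponents, in general form
-/

set_option autoImplicit false

namespace Q217.SG

open Finset

/-- If the low part of every vanishing subsum with a gap vanishes, then the part of a vanishing sum
over a set of indices, closed under closeness of exponents, vanishes as well. -/
theorem closed_of_low {I R : Type*} [DecidableEq I] [AddCommGroup R] {W : I → R} {E : I → ℤ}
    {h : ℤ} (hh : 0 ≤ h) (J0 : Finset I)
    (hlow : ∀ J : Finset I, J ⊆ J0 → ∑ i ∈ J, W i = 0 → ∀ t : ℤ,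
      (∀ i ∈ J, E i < t → E i + h < t) → ∑ i ∈ J.filter (fun i => E i < t), W i = 0)
    (J : Finset I) (hJ : J ⊆ J0) (h0 : ∑ i ∈ J, W i = 0) (S : Finset I) (hS : S ⊆ J)
    (hcl : ∀ i ∈ S, ∀ j ∈ J, E i ≤ E j + h → E j ≤ E i + h → j ∈ S) :
    ∑ i ∈ S, W i = 0 := by
  induction hn : J.card using Nat.strong_induction_on generalizing J S with
  | _ n ih =>
  by_cases hS0 : S = ∅
  · rw [hS0]; simp
  by_cases hC0 : J \ S = ∅
  · have : S = J := Finset.Subset.antisymm hS (Finset.sdiff_eq_empty_iff_subset.1 hC0)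
    rw [this]; exact h0
  have hSne : S.Nonempty := Finset.nonempty_iff_ne_empty.2 hS0
  have hCne : (J \ S).Nonempty := Finset.nonempty_iff_ne_empty.2 hC0
  obtain ⟨p, hpS, hp⟩ := Finset.exists_min_image S E hSne
  obtain ⟨q, hqC, hq⟩ := Finset.exists_min_image (J \ S) E hCne
  rw [Finset.mem_sdiff] at hqC
  have key : ∃ t, (∀ i ∈ J, E i < t → E i + h < t) ∧ (∃ i ∈ J, E i < t) ∧ (∃ j ∈ J, t ≤ E j) := by
    rcases lt_trichotomy (E p) (E q) with hlt | heq | hgt
    · refine ⟨E q, ?_, ⟨p, hS hpS, hlt⟩, ⟨q, hqC.1, le_rfl⟩⟩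
      intro i hi hiq
      have hiS : i ∈ S := by
        by_contra hns
        have := hq i (Finset.mem_sdiff.2 ⟨hi, hns⟩)
        omega
      by_contra hcon
      push Not at hcon
      exact hqC.2 (hcl i hiS q hqC.1 (by omega) hcon)
    · exact absurd (hcl p hpS q hqC.1 (by omega) (by omega)) hqC.2
    · refine ⟨E p, ?_, ⟨q, hqC.1, hgt⟩, ⟨p, hS hpS, le_rfl⟩⟩
      intro i hi hip
      have hiS : i ∉ S := by
        intro hns
        have := hp i hns
        omega
      by_contra hcon
      push Not at hcon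
      exact hiS (hcl p hpS i hi hcon (by omega))
  obtain ⟨t, ht, ⟨i0, hi0, hi0t⟩, ⟨j0, hj0, hj0t⟩⟩ := key
  have hlo := hlow J hJ h0 t ht
  have hsplit := Finset.sum_filter_add_sum_filter_not J (fun i => E i < t) W
  have hhi : ∑ i ∈ J.filter (fun i => ¬ E i < t), W i = 0 := by
    rw [h0, hlo, zero_add] at hsplit; exact hsplit
  have hsplitS := Finset.sum_filter_add_sum_filter_not S (fun i => E i < t) W
  rw [← hsplitS]
  have e1 : ∑ i ∈ S.filter (fun i => E i < t), W i = 0 := by
    refine ih _ ?_ (J.filter (fun i => E i < t)) ((Finset.filter_subset _ _).trans hJ) hlo _ ?_ ?_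
      rfl
    · rw [← hn]
      apply Finset.card_lt_card
      refine ⟨Finset.filter_subset _ _, fun hcon => ?_⟩
      have := hcon hj0
      rw [Finset.mem_filter] at this
      omega
    · exact Finset.filter_subset_filter _ hS
    · intro i hi j hj h1 h2
      rw [Finset.mem_filter] at hi hj ⊢
      exact ⟨hcl i hi.1 j hj.1 h1 h2, hj.2⟩
  have e2 : ∑ i ∈ S.filter (fun i => ¬ E i < t), W i = 0 := by
    refine ih _ ?_ (J.filter (fun i => ¬ E i < t)) ((Finset.filter_subset _ _).trans hJ) hhi _ ?_ ?_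
      rfl
    · rw [← hn]
      apply Finset.card_lt_card
      refine ⟨Finset.filter_subset _ _, fun hcon => ?_⟩
      have := hcon hi0
      rw [Finset.mem_filter] at this
      omega
    · exact Finset.filter_subset_filter _ hS
    · intro i hi j hj h1 h2
      rw [Finset.mem_filter] at hi hj ⊢
      exact ⟨hcl i hi.1 j hj.1 h1 h2, hj.2⟩
  rw [e1, e2, add_zero]

/-- the low part of a vanishing sum of monomials in two coprime integers `a`, `b`, `|b| ≤ a` -/
theorem low_pair {I : Type*} [DecidableEq I] {a b : ℤ} (ha : 1 < a) (hab : IsCoprime a b)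
    (hba : |b| ≤ a) {c : I → ℤ} {E : I → ℤ} {m : ℤ} {h : ℕ} {J : Finset I}
    (hE : ∀ i ∈ J, 0 ≤ E i ∧ E i ≤ m) (hJ : ∑ i ∈ J, |c i| < a ^ (h + 1))
    (h0 : ∑ i ∈ J, c i * (a ^ (E i).toNat * b ^ (m - E i).toNat) = 0) {t : ℤ}
    (ht : ∀ i ∈ J, E i < t → E i + h < t) :
    ∑ i ∈ J.filter (fun i => E i < t), c i * (a ^ (E i).toNat * b ^ (m - E i).toNat) = 0 := by
  by_cases hm : m < t
  · have he : J.filter (fun i => E i < t) = J := by
      apply Finset.filter_true_of_mem
      intro i hi
      have := (hE i hi).2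
      omega
    rw [he]; exact h0
  push Not at hm
  by_cases hth : t ≤ h
  · have he : J.filter (fun i => E i < t) = ∅ := by
      apply Finset.filter_eq_empty_iff.2
      intro i hi hlt
      have := ht i hi hlt
      have := (hE i hi).1
      omega
    rw [he]; simp
  push Not at hth
  have ha0 : 0 < a := by omega
  obtain ⟨s, hs⟩ : ∃ s : ℕ, t = s + h + 1 := ⟨(t - h - 1).toNat, by omega⟩
  -- the low part divided by a power of `b`
  have h1 : ∑ i ∈ J.filter (fun i => E i < t), c i * (a ^ (E i).toNat * b ^ (m - E i).toNat) =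
      b ^ (m - s).toNat * ∑ i ∈ J.filter (fun i => E i < t),
        c i * (a ^ (E i).toNat * b ^ (s - E i).toNat) := by
    rw [Finset.mul_sum]
    apply Finset.sum_congr rfl
    intro i hi
    rw [Finset.mem_filter] at hi
    have h2 := ht i hi.1 hi.2
    have h3 := hE i hi.1
    have h4 : (m - E i).toNat = (m - s).toNat + (s - E i).toNat := by omega
    rw [h4, pow_add]
    ring
  have h2 : a ^ t.toNat ∣ ∑ i ∈ J.filter (fun i => E i < t),
      c i * (a ^ (E i).toNat * b ^ (m - E i).toNat) := by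
    have h3 := Finset.sum_filter_add_sum_filter_not J (fun i => E i < t)
      (fun i => c i * (a ^ (E i).toNat * b ^ (m - E i).toNat))
    rw [h0] at h3
    have h4 : a ^ t.toNat ∣ ∑ i ∈ J.filter (fun i => ¬ E i < t),
        c i * (a ^ (E i).toNat * b ^ (m - E i).toNat) := by
      apply Finset.dvd_sum
      intro i hi
      rw [Finset.mem_filter] at hi
      apply Dvd.dvd.mul_left
      apply Dvd.dvd.mul_right
      apply pow_dvd_pow
      omega
    have h5 : ∑ i ∈ J.filter (fun i => E i < t), c i * (a ^ (E i).toNat * b ^ (m - E i).toNat) =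
      -∑ i ∈ J.filter (fun i => ¬ E i < t), c i * (a ^ (E i).toNat * b ^ (m - E i).toNat) := by
      linarith
    rw [h5]
    exact (dvd_neg).2 h4
  rw [h1] at h2 ⊢
  have h3 : a ^ t.toNat ∣ ∑ i ∈ J.filter (fun i => E i < t),
      c i * (a ^ (E i).toNat * b ^ (s - E i).toNat) :=
    (hab.pow).dvd_of_dvd_mul_left h2
  have h4 : ∑ i ∈ J.filter (fun i => E i < t),
      c i * (a ^ (E i).toNat * b ^ (s - E i).toNat) = 0 := by
    apply Int.eq_zero_of_abs_lt_dvd h3
    calc |∑ i ∈ J.filter (fun i => E i < t), c i * (a ^ (E i).toNat * b ^ (s - E i).toNat)|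
        ≤ ∑ i ∈ J.filter (fun i => E i < t), |c i * (a ^ (E i).toNat * b ^ (s - E i).toNat)| :=
          Finset.abs_sum_le_sum_abs _ _
      _ ≤ ∑ i ∈ J.filter (fun i => E i < t), |c i| * a ^ s := by
          apply Finset.sum_le_sum
          intro i hi
          rw [Finset.mem_filter] at hi
          have h2 := ht i hi.1 hi.2
          have h3 := hE i hi.1
          rw [abs_mul, abs_mul, abs_pow, abs_pow, abs_of_pos ha0]
          apply mul_le_mul_of_nonneg_left _ (abs_nonneg _)
          calc a ^ (E i).toNat * |b| ^ (s - E i).toNat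
              ≤ a ^ (E i).toNat * a ^ (s - E i).toNat := by
                apply mul_le_mul_of_nonneg_left _ (by positivity)
                exact pow_le_pow_left₀ (abs_nonneg _) hba _
            _ = a ^ s := by
                rw [← pow_add]
                congr 1
                omega
      _ = (∑ i ∈ J.filter (fun i => E i < t), |c i|) * a ^ s := by
          rw [Finset.sum_mul]
      _ ≤ (∑ i ∈ J, |c i|) * a ^ s := by
          apply mul_le_mul_of_nonneg_right _ (by positivity)
          exact Finset.sum_le_sum_of_subset_of_nonneg (Finset.filter_subset _ _)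
            (fun i _ _ => abs_nonneg _)
      _ < a ^ (h + 1) * a ^ s := by
          apply mul_lt_mul_of_pos_right hJ (by positivity)
      _ = a ^ t.toNat := by
          rw [← pow_add]
          congr 1
          omega
  rw [h4, mul_zero]

/-- **The gap lemma for monomials in `a` and `b`.** -/
theorem closed_pair {I : Type*} [DecidableEq I] {a b : ℤ} (ha : 1 < a) (hab : IsCoprime a b)
    (hba : |b| ≤ a) {c : I → ℤ} {E : I → ℤ} {m : ℤ} {h : ℕ} (J : Finset I)
    (hE : ∀ i ∈ J, 0 ≤ E i ∧ E i ≤ m) (hJ : ∑ i ∈ J, |c i| < a ^ (h + 1))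
    (h0 : ∑ i ∈ J, c i * (a ^ (E i).toNat * b ^ (m - E i).toNat) = 0) (S : Finset I) (hS : S ⊆ J)
    (hcl : ∀ i ∈ S, ∀ j ∈ J, E i ≤ E j + h → E j ≤ E i + h → j ∈ S) :
    ∑ i ∈ S, c i * (a ^ (E i).toNat * b ^ (m - E i).toNat) = 0 := by
  refine closed_of_low (W := fun i => c i * (a ^ (E i).toNat * b ^ (m - E i).toNat)) (E := E)
    (h := h) (by omega) J ?_ J subset_rfl h0 S hS hcl
  intro J' hJ' h0' t ht
  refine low_pair ha hab hba (fun i hi => hE i (hJ' hi)) (lt_of_le_of_lt ?_ hJ) h0' ht
  exact Finset.sum_le_sum_of_subset_of_nonneg hJ' (fun i _ _ => abs_nonneg _)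

end Q217.SG
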