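import Pool.Agent.Q217.SG.PairMain

/-!
# Sparse forms and algebraic factorizations
-/

set_option autoImplicit false

namespace Q217.SG

open Finset

/-- `x` is the value at `(a, b)` of a form of degree `m` with at most `K` terms and coefficients of
absolute value at most `C`. -/
def SparseForm (a b : ℤ) (m K C : ℕ) (x : ℤ) : Prop :=
  ∃ k : ℕ, k ≤ K ∧ ∃ (c : Fin k → ℤ) (α : Fin k → ℕ), (∀ i, |c i| ≤ C) ∧ (∀ i, α i ≤ m) ∧
    x = ∑ i, c i * (a ^ α i * b ^ (m - α i))

/-- The number `(a ^ p - b ^ p) / (a - b)`. -/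
def Mp (a b : ℤ) (p : ℕ) : ℤ := (a ^ p - b ^ p) / (a - b)

theorem Mp_mul (a b : ℤ) (p : ℕ) : (a - b) * Mp a b p = a ^ p - b ^ p :=
  Int.mul_ediv_cancel' (sub_dvd_pow_sub_pow a b p)

theorem pow_sub_lower {u v : ℤ} (hu : 0 < u) (hv : |v| < u) {p : ℕ} (hp : 1 ≤ p) :
    u ^ (p - 1) ≤ u ^ p - v ^ p := by
  have h1 : v ^ p ≤ |v| ^ p := by
    calc v ^ p ≤ |v ^ p| := le_abs_self _
      _ = |v| ^ p := abs_pow _ _
  have h2 : |v| ^ p ≤ (u - 1) * u ^ (p - 1) := by
    obtain ⟨j, rfl⟩ := Nat.exists_eq_add_of_le' hp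
    rw [pow_succ, Nat.add_sub_cancel]
    calc |v| ^ j * |v| ≤ u ^ j * (u - 1) := by
          apply mul_le_mul _ (by omega) (abs_nonneg _) (by positivity)
          exact pow_le_pow_left₀ (abs_nonneg _) hv.le _
      _ = (u - 1) * u ^ j := mul_comm _ _
  have h3 : u ^ p = u * u ^ (p - 1) := by
    obtain ⟨j, rfl⟩ := Nat.exists_eq_add_of_le' hp
    rw [pow_succ, Nat.add_sub_cancel]; ring
  rw [h3]
  linarith

theorem pow_sub_upper {u v : ℤ} (hv : |v| < u) (p : ℕ) :
    u ^ p - v ^ p ≤ 2 * u ^ p := by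
  have h1 : -(v ^ p) ≤ |v| ^ p := by
    calc -(v ^ p) ≤ |v ^ p| := neg_le_abs _
      _ = |v| ^ p := abs_pow _ _
  have h2 : |v| ^ p ≤ u ^ p := pow_le_pow_left₀ (abs_nonneg _) hv.le _
  linarith

/-- lower bound for `M_p(a, b)` -/
theorem Mp_lower {a b : ℤ} (ha : 1 < a) (hb : |b| < a) {p : ℕ} (hp : 1 ≤ p) :
    a ^ (p - 1) < 2 * a * Mp a b p + 1 := by
  have h1 := pow_sub_lower (by omega) hb hp
  rw [← Mp_mul] at h1
  have h2 : 0 < a - b := by have := le_abs_self b; omega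
  have h3 : a - b ≤ 2 * a := by have := neg_abs_le b; omega
  have h4 : 0 ≤ Mp a b p := by
    by_contra hcon
    push Not at hcon
    have : 0 < a ^ (p - 1) := by positivity
    nlinarith
  nlinarith

theorem Mp_pos {a b : ℤ} (ha : 1 < a) (hb : |b| < a) {p : ℕ} (hp : 1 ≤ p) : 0 < Mp a b p := by
  have h1 := pow_sub_lower (by omega) hb hp
  rw [← Mp_mul] at h1
  have h2 : 0 < a - b := by have := le_abs_self b; omega
  have : 0 < a ^ (p - 1) := by positivity
  by_contra hcon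
  push Not at hcon
  nlinarith

/-- The violation of Euclid's lemma for pairs of `r`-th powers. -/
theorem violation_pow {a b u v : ℤ} {r p : ℕ} (ha1 : 1 < a) (hba : |b| < a)
    (hab : IsCoprime a b) (hr : 2 ≤ r) (hu : 0 < u) (ha : a = u ^ r) (hb : b = v ^ r)
    (hp : p.Prime) (hpr : r < p) (hp7 : 7 ≤ p) (hpa : 2 * a < 2 ^ (p - 1)) :
    ∃ (m₁ m₂ mq : ℕ) (x y q : ℤ), m₁ + m₂ + 1 = mq + p ∧
      SparseForm a b m₁ (r + 2) (2 * a.natAbs ^ (r + 1)) x ∧
      SparseForm a b m₂ (r + 2) (2 * a.natAbs ^ (r + 1)) y ∧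
      SparseForm a b mq (r + 2) (2 * a.natAbs ^ (r + 1)) q ∧
      x * y = q * Mp a b p ∧ ¬ Mp a b p ∣ x ∧ ¬ Mp a b p ∣ y := by
  have ha0 : 0 < a := by omega
  have hvu : |v| < u := by
    by_contra hcon
    push Not at hcon
    have h1 : u ^ r ≤ |v| ^ r := pow_le_pow_left₀ hu.le hcon r
    rw [← abs_pow, ← ha, ← hb] at h1
    omega
  have hu2 : 2 ≤ u := by
    by_contra hcon
    have : u = 1 := by omega
    rw [this, one_pow] at ha
    omega
  obtain ⟨s, i, hi1, hir, hpsi⟩ : ∃ s i : ℕ, 1 ≤ i ∧ i < r ∧ p = r * s + i := by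
    refine ⟨p / r, p % r, ?_, Nat.mod_lt _ (by omega), (Nat.div_add_mod p r).symm⟩
    by_contra hcon
    have h0 : p % r = 0 := by omega
    have h1 : r ∣ p := Nat.dvd_of_mod_eq_zero h0
    rcases (Nat.dvd_prime hp).1 h1 with h2 | h2 <;> omega
  have hup : u ^ p = u ^ i * a ^ s := by rw [hpsi, ha, pow_add, pow_mul]; ring
  have hvp : v ^ p = v ^ i * b ^ s := by rw [hpsi, hb, pow_add, pow_mul]; ring
  have hub : ∀ j : ℕ, j ≤ r → |u ^ j| ≤ a := by
    intro j hj
    rw [abs_pow, abs_of_pos hu, ha]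
    exact pow_le_pow_right₀ (by omega) hj
  have hvb : ∀ j : ℕ, j ≤ r → |v ^ j| ≤ a := by
    intro j hj
    rw [abs_pow, ha]
    calc |v| ^ j ≤ u ^ j := pow_le_pow_left₀ (abs_nonneg _) hvu.le _
      _ ≤ u ^ r := pow_le_pow_right₀ (by omega) hj
  have haC : a ≤ 2 * a ^ (r + 1) := by
    have : a ^ 1 ≤ a ^ (r + 1) := pow_le_pow_right₀ (by omega) (by omega)
    rw [pow_one] at this
    have : 0 < a ^ (r + 1) := by positivity
    linarith
  -- the three forms
  let x : ℤ := b ^ (i - 1) * (u ^ p - v ^ p)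
  let y : ℤ := ∑ j ∈ range r, (u ^ p) ^ j * (v ^ p) ^ (r - 1 - j)
  let q : ℤ := b ^ (i - 1) * (a - b)
  have hxy : y * (u ^ p - v ^ p) = a ^ p - b ^ p := by
    simp only [y]
    rw [(Commute.all (u ^ p) (v ^ p)).geom_sum₂_mul, ha, hb, ← pow_mul, ← pow_mul, ← pow_mul,
      ← pow_mul, mul_comm p r]
  have hMlow := Mp_lower ha1 hba (p := p) (by omega)
  have hMpos := Mp_pos ha1 hba (p := p) (by omega)
  have hcopN : IsCoprime (Mp a b p) b := coprime_quot hab (by omega) (Mp_mul a b p)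
  have hd0 := pow_sub_lower hu hvu (p := p) (by omega)
  have hd1 := pow_sub_upper hvu p
  have hup1 : (2 : ℤ) ^ (p - 1) ≤ u ^ (p - 1) := pow_le_pow_left₀ (by norm_num) hu2 _
  have hdpos : 0 < u ^ p - v ^ p := by
    have : 0 < u ^ (p - 1) := by positivity
    omega
  have hypos : 0 < y := by
    by_contra hcon
    push Not at hcon
    have h1 : 0 < a ^ p - b ^ p := by
      have := pow_sub_lower ha0 hba (p := p) (by omega)
      have : 0 < a ^ (p - 1) := by positivity
      omega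
    nlinarith
  refine ⟨s + (i - 1), s * (r - 1), 0, x, y, q, ?_, ?_, ?_, ?_, ?_, ?_, ?_⟩
  · obtain ⟨r', rfl⟩ := Nat.exists_eq_add_of_le' (show 1 ≤ r by omega)
    rw [Nat.add_sub_cancel]
    have : (r' + 1) * s = s * r' + s := by ring
    omega
  · refine ⟨2, by omega, ![u ^ i, -v ^ i], ![s, 0], ?_, ?_, ?_⟩
    · intro j
      push_cast
      rw [abs_of_pos ha0]
      fin_cases j
      · exact (hub i hir.le).trans haC
      · simp only [Fin.mk_one, Matrix.cons_val_one, Matrix.cons_val_fin_one, abs_neg]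
        exact (hvb i hir.le).trans haC
    · intro j
      fin_cases j
      · simp
      · simp
    · rw [Fin.sum_univ_two]
      simp only [Matrix.cons_val_zero, Matrix.cons_val_one, Matrix.cons_val_fin_one, x]
      rw [hup, hvp, Nat.add_sub_cancel_left, Nat.sub_zero, pow_add]
      ring
  · refine ⟨r, by omega, fun j => u ^ (i * (j : ℕ)) * v ^ (i * (r - 1 - (j : ℕ))),
      fun j => s * (j : ℕ), ?_, ?_, ?_⟩
    · intro j
      push_cast
      rw [abs_of_pos ha0, abs_mul, abs_pow, abs_pow, abs_of_pos hu]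
      have h1 : |v| ^ (i * (r - 1 - (j : ℕ))) ≤ u ^ (i * (r - 1 - (j : ℕ))) :=
        pow_le_pow_left₀ (abs_nonneg _) hvu.le _
      calc u ^ (i * (j : ℕ)) * |v| ^ (i * (r - 1 - (j : ℕ)))
          ≤ u ^ (i * (j : ℕ)) * u ^ (i * (r - 1 - (j : ℕ))) :=
            mul_le_mul_of_nonneg_left h1 (by positivity)
        _ = u ^ (i * (j : ℕ) + i * (r - 1 - (j : ℕ))) := by rw [pow_add]
        _ ≤ u ^ (r * (r + 1)) := by
            apply pow_le_pow_right₀ (by omega)
            rw [← Nat.mul_add]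
            apply Nat.mul_le_mul hir.le
            omega
        _ = a ^ (r + 1) := by rw [pow_mul, ← ha]
        _ ≤ 2 * a ^ (r + 1) := by
            have : 0 < a ^ (r + 1) := by positivity
            linarith
    · intro j
      apply Nat.mul_le_mul_left
      omega
    · rw [Fin.sum_univ_eq_sum_range (fun j => u ^ (i * j) * v ^ (i * (r - 1 - j)) *
        (a ^ (s * j) * b ^ (s * (r - 1) - s * j))) r]
      simp only [y]
      apply Finset.sum_congr rfl
      intro j _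
      rw [← Nat.mul_sub, hup, hvp, mul_pow, mul_pow, ← pow_mul, ← pow_mul, ← pow_mul, ← pow_mul]
      ring
  · refine ⟨1, by omega, ![b ^ (i - 1) * (a - b)], ![0], ?_, ?_, ?_⟩
    · intro j
      push_cast
      rw [abs_of_pos ha0]
      fin_cases j
      simp only [Fin.zero_eta, Matrix.cons_val_zero, abs_mul, abs_pow]
      have h1 : |a - b| ≤ 2 * a := by
        have h2 := abs_sub a b
        rw [abs_of_pos ha0] at h2
        omega
      have h2 : |b| ^ (i - 1) ≤ a ^ r := by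
        calc |b| ^ (i - 1) ≤ a ^ (i - 1) := pow_le_pow_left₀ (abs_nonneg _) hba.le _
          _ ≤ a ^ r := pow_le_pow_right₀ (by omega) (by omega)
      calc |b| ^ (i - 1) * |a - b| ≤ a ^ r * (2 * a) :=
            mul_le_mul h2 h1 (abs_nonneg _) (by positivity)
        _ = 2 * a ^ (r + 1) := by rw [pow_succ]; ring
    · intro j
      fin_cases j
      simp
    · rw [Fin.sum_univ_one]
      simp [q]
  · simp only [x, q]
    calc b ^ (i - 1) * (u ^ p - v ^ p) * y = b ^ (i - 1) * (y * (u ^ p - v ^ p)) := by ring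
      _ = b ^ (i - 1) * (a - b) * Mp a b p := by rw [hxy, ← Mp_mul]; ring
  · intro hdvd
    have h1 : Mp a b p ∣ u ^ p - v ^ p :=
      (hcopN.pow_right (n := i - 1)).dvd_of_dvd_mul_left hdvd
    have h2 := Int.le_of_dvd hdpos h1
    have h3 : u ^ (2 * (p - 1)) ≤ a ^ (p - 1) := by
      rw [ha, ← pow_mul]
      apply pow_le_pow_right₀ (by omega)
      apply Nat.mul_le_mul_right _ hr
    have h4 : a ≤ u ^ r := ha.le
    -- `a ^ (p - 1) < 2 a M + 1 ≤ 4 a u ^ p + 1`
    have h5 : a ^ (p - 1) ≤ 4 * a * u ^ p := by nlinarith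
    have h6 : a ^ (p - 1) = a * a ^ (p - 2) := by
      rw [← pow_succ']; congr 1; omega
    rw [h6] at h5
    have h7 : a ^ (p - 2) ≤ 4 * u ^ p := by
      have h8 : a * a ^ (p - 2) ≤ a * (4 * u ^ p) := by linarith
      exact le_of_mul_le_mul_left h8 ha0
    have h8 : u ^ (2 * (p - 2)) ≤ a ^ (p - 2) := by
      rw [ha, ← pow_mul]
      apply pow_le_pow_right₀ (by omega)
      apply Nat.mul_le_mul_right _ hr
    have h9 : u ^ (2 * (p - 2)) = u ^ p * u ^ (p - 4) := by
      rw [← pow_add]; congr 1; omega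
    have h10 : (2 : ℤ) ^ 3 ≤ u ^ (p - 4) := by
      calc (2 : ℤ) ^ 3 ≤ 2 ^ (p - 4) := pow_le_pow_right₀ (by norm_num) (by omega)
        _ ≤ u ^ (p - 4) := pow_le_pow_left₀ (by norm_num) hu2 _
    have h11 : 0 < u ^ p := by positivity
    nlinarith
  · intro hdvd
    have h2 := Int.le_of_dvd hypos hdvd
    have h3 : (a - b) * Mp a b p = y * (u ^ p - v ^ p) := by rw [Mp_mul, hxy]
    have h4 : a - b < u ^ p - v ^ p := by
      have := neg_abs_le b
      omega
    have h5 : 0 < a - b := by have := le_abs_self b; omega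
    nlinarith

end Q217.SG
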