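import Pool.Agent.Q217.SG.Converse

/-!
# Sparse forms and the factorization of `x ^ 4 + 4 y ^ 4`
-/

set_option autoImplicit false

namespace Q217.SG

open Finset

/-- The violation of Euclid's lemma if `- 4 a b` is a fourth power. -/
theorem violation_four {a b w : ℤ} {p : ℕ} (ha1 : 1 < a) (hba : |b| < a)
    (hab : IsCoprime a b) (hw : -4 * a * b = w ^ 4) (hp : Odd p) (hp8 : 8 ≤ p) :
    ∃ (m₁ m₂ mq : ℕ) (x y q : ℤ), m₁ + m₂ + 1 = mq + p ∧
      SparseForm a b m₁ 3 (2 * a.natAbs ^ 3) x ∧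
      SparseForm a b m₂ 3 (2 * a.natAbs ^ 3) y ∧
      SparseForm a b mq 3 (2 * a.natAbs ^ 3) q ∧
      x * y = q * Mp a b p ∧ ¬ Mp a b p ∣ x ∧ ¬ Mp a b p ∣ y := by
  have ha0 : 0 < a := by omega
  have hb0 : b ≠ 0 := by
    rintro rfl
    rw [isCoprime_zero_right, Int.isUnit_iff] at hab
    omega
  -- the roots
  obtain ⟨w', hw'0, hw'⟩ : ∃ w' : ℤ, 0 ≤ w' ∧ a * (-b) = (2 * w' ^ 2) ^ 2 := by
    have h2 : (2 : ℤ) ∣ w := by
      have : (2 : ℤ) ∣ w ^ 4 := ⟨-2 * a * b, by rw [← hw]; ring⟩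
      exact Int.prime_two.dvd_of_dvd_pow this
    obtain ⟨z, rfl⟩ := h2
    refine ⟨|z|, abs_nonneg _, ?_⟩
    rw [sq_abs]
    linarith [hw, show (2 * z) ^ 4 = 4 * (2 * z ^ 2) ^ 2 by ring]
  obtain ⟨A₀, hA₀⟩ := Int.sq_of_isCoprime hab.neg_right hw'
  have hA₁ : a = A₀ ^ 2 := by
    rcases hA₀ with h | h
    · exact h
    · nlinarith [sq_nonneg A₀]
  obtain ⟨A, hA0, hA⟩ : ∃ A : ℤ, 0 ≤ A ∧ a = A ^ 2 := ⟨|A₀|, abs_nonneg _, by rw [sq_abs, hA₁]⟩
  have hw'' : (-b) * a = (2 * w' ^ 2) ^ 2 := by rw [← hw']; ring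
  obtain ⟨B₀, hB₀⟩ := Int.sq_of_isCoprime hab.neg_right.symm hw''
  have hbneg : 0 < -b := by
    have h1 : 0 ≤ a * (-b) := by rw [hw']; positivity
    have h2 : 0 ≤ -b := by
      by_contra hcon
      push Not at hcon
      nlinarith
    omega
  have hB₁ : -b = B₀ ^ 2 := by
    rcases hB₀ with h | h
    · exact h
    · nlinarith [sq_nonneg B₀]
  obtain ⟨B, hB0, hB⟩ : ∃ B : ℤ, 0 ≤ B ∧ -b = B ^ 2 := ⟨|B₀|, abs_nonneg _, by rw [sq_abs, hB₁]⟩
  have hAB : A * B = 2 * w' ^ 2 := by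
    have h1 : (A * B) ^ 2 = (2 * w' ^ 2) ^ 2 := by rw [mul_pow, ← hA, ← hB, hw']
    exact (pow_left_inj₀ (by positivity) (by positivity) (by norm_num)).1 h1
  have hA2 : 2 ≤ A := by
    by_contra hcon
    have : A = 0 ∨ A = 1 := by omega
    rcases this with h | h <;> rw [h] at hA <;> omega
  have hBA : B < A := by
    have h1 : B ^ 2 < A ^ 2 := by
      rw [← hB, ← hA]
      have := neg_le_abs b
      omega
    exact lt_of_pow_lt_pow_left₀ 2 hA0 h1
  have hB1 : 1 ≤ B := by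
    by_contra hcon
    have : B = 0 := by omega
    rw [this] at hB
    omega
  obtain ⟨s, hs⟩ := hp
  -- the factors
  let W : ℤ := 2 * w' * (A * B) ^ s
  have hW : W ^ 2 = 2 * (A * B) ^ p := by
    have h1 : (A * B) ^ p = ((A * B) ^ s) ^ 2 * (A * B) := by rw [hs]; ring
    calc W ^ 2 = 2 * ((A * B) ^ s) ^ 2 * (2 * w' ^ 2) := by simp only [W]; ring
      _ = 2 * (A * B) ^ p := by rw [← hAB, h1]; ring
  have hW0 : 0 ≤ W := by positivity
  have hFF : (A ^ p + B ^ p + W) * (A ^ p + B ^ p - W) = a ^ p - b ^ p := by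
    have h1 : b ^ p = -(B ^ 2) ^ p := by
      rw [← hB, Odd.neg_pow ⟨s, hs⟩]; ring
    rw [h1, hA]
    calc (A ^ p + B ^ p + W) * (A ^ p + B ^ p - W) = (A ^ p + B ^ p) ^ 2 - W ^ 2 := by ring
      _ = (A ^ 2) ^ p - -(B ^ 2) ^ p := by rw [hW, mul_pow]; ring
  have hdiff : 0 < a ^ p - b ^ p := by
    have := pow_sub_lower ha0 hba (p := p) (by omega)
    have : 0 < a ^ (p - 1) := by positivity
    omega
  have hF1 : 0 < A ^ p + B ^ p + W := by positivity
  have hF2 : 0 < A ^ p + B ^ p - W := by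
    by_contra hcon
    push Not at hcon
    nlinarith
  have hBp : B ^ p ≤ A ^ p := pow_le_pow_left₀ hB0 hBA.le p
  have hMlow := Mp_lower ha1 hba (p := p) (by omega)
  have hcopN : IsCoprime (Mp a b p) b := coprime_quot hab (by omega) (Mp_mul a b p)
  have hbig : 4 * A ^ p < Mp a b p := by
    by_contra hcon
    push Not at hcon
    have h1 : a ^ (p - 1) ≤ 8 * A ^ (p + 2) := by
      have : 2 * a * Mp a b p ≤ 8 * A ^ (p + 2) := by
        calc 2 * a * Mp a b p ≤ 2 * a * (4 * A ^ p) :=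
              mul_le_mul_of_nonneg_left hcon (by positivity)
          _ = 8 * A ^ (p + 2) := by rw [hA]; ring
      omega
    have h2 : a ^ (p - 1) = A ^ (p + 2) * A ^ (p - 4) := by
      rw [hA, ← pow_mul, ← pow_add]; congr 1; omega
    have h3 : (2 : ℤ) ^ 4 ≤ A ^ (p - 4) := by
      calc (2 : ℤ) ^ 4 ≤ 2 ^ (p - 4) := pow_le_pow_right₀ (by norm_num) (by omega)
        _ ≤ A ^ (p - 4) := pow_le_pow_left₀ (by norm_num) hA2 _
    have h4 : 0 < A ^ (p + 2) := by positivity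
    rw [h2] at h1
    nlinarith
  -- the coefficients
  have hAa : A ≤ a := by rw [hA]; nlinarith
  have hBa : B ≤ a := hBA.le.trans hAa
  have hABa : A * B ≤ a := by rw [hA, sq]; exact mul_le_mul_of_nonneg_left hBA.le hA0
  have hwa : w' ≤ a := by nlinarith
  have hba' : |b| ≤ a := hba.le
  have ha2 : a ^ 2 ≤ a ^ 3 := pow_le_pow_right₀ (by omega) (by norm_num)
  have hsq : (A * B) ^ 2 = a * (-b) := by rw [mul_pow, ← hA, ← hB]
  obtain ⟨j, c, hc, hj, hWj⟩ : ∃ (j : ℕ) (c : ℤ), |c| ≤ 2 * a ^ 3 ∧ j ≤ s ∧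
      b * W = c * (a ^ j * b ^ (s - j)) := by
    rcases Nat.even_or_odd' s with ⟨j, hj | hj⟩
    · refine ⟨j, b * (2 * w') * (-1) ^ j, ?_, by omega, ?_⟩
      · rw [abs_mul, abs_pow, abs_neg, abs_one, one_pow, mul_one, abs_mul,
          abs_of_nonneg (show 0 ≤ 2 * w' by positivity)]
        calc |b| * (2 * w') ≤ a * (2 * a) :=
              mul_le_mul hba' (by linarith) (by positivity) ha0.le
          _ = 2 * a ^ 2 := by ring
          _ ≤ 2 * a ^ 3 := by linarith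
      · simp only [W]
        rw [show s - j = j by omega]
        conv_lhs => rw [hj, pow_mul, hsq]
        rw [mul_pow, neg_pow b]
        ring
    · refine ⟨j, 2 * w' * (A * B) * (-1) ^ j, ?_, by omega, ?_⟩
      · rw [abs_mul, abs_pow, abs_neg, abs_one, one_pow, mul_one,
          abs_of_nonneg (show 0 ≤ 2 * w' * (A * B) by positivity)]
        calc 2 * w' * (A * B) ≤ 2 * a * a := by
              apply mul_le_mul (by linarith) hABa (by positivity) (by positivity)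
          _ = 2 * a ^ 2 := by ring
          _ ≤ 2 * a ^ 3 := by linarith
      · simp only [W]
        rw [show s - j = j + 1 by omega]
        conv_lhs => rw [hj, pow_succ, pow_mul, hsq]
        rw [mul_pow, neg_pow b]
        ring
  have hbp : b * (A ^ p) = b * A * (a ^ s * b ^ (s - s)) := by
    rw [hs, pow_succ, pow_mul, ← hA]; simp; ring
  have hbq : b * (B ^ p) = b * B * (-1) ^ s * (a ^ 0 * b ^ (s - 0)) := by
    rw [hs, pow_succ, pow_mul, ← hB, neg_pow b]; simp; ring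
  have hcA : |b * A| ≤ 2 * a ^ 3 := by
    rw [abs_mul, abs_of_nonneg hA0]
    calc |b| * A ≤ a * a := mul_le_mul hba' hAa hA0 ha0.le
      _ = a ^ 2 := by ring
      _ ≤ 2 * a ^ 3 := by linarith [pow_pos ha0 3]
  have hcB : |b * B * (-1) ^ s| ≤ 2 * a ^ 3 := by
    rw [abs_mul, abs_pow, abs_neg, abs_one, one_pow, mul_one, abs_mul, abs_of_nonneg hB0]
    calc |b| * B ≤ a * a := mul_le_mul hba' hBa hB0 ha0.le
      _ = a ^ 2 := by ring
      _ ≤ 2 * a ^ 3 := by linarith [pow_pos ha0 3]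
  have hform : ∀ ε : ℤ, |ε| = 1 →
      SparseForm a b s 3 (2 * a.natAbs ^ 3) (b * (A ^ p + B ^ p + ε * W)) := by
    intro ε hε
    refine ⟨3, le_rfl, ![b * A, b * B * (-1) ^ s, ε * c], ![s, 0, j], ?_, ?_, ?_⟩
    · intro i
      push_cast
      rw [abs_of_pos ha0]
      fin_cases i
      · exact hcA
      · exact hcB
      · change |ε * c| ≤ _
        rw [abs_mul, hε, one_mul]
        exact hc
    · intro i
      fin_cases i
      · exact le_rfl
      · exact Nat.zero_le _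
      · exact hj
    · rw [Fin.sum_univ_three]
      change _ = b * A * (a ^ s * b ^ (s - s)) + b * B * (-1) ^ s * (a ^ 0 * b ^ (s - 0)) +
        ε * c * (a ^ j * b ^ (s - j))
      rw [← hbp, ← hbq, mul_assoc ε, ← hWj]
      ring
  have hq : SparseForm a b 0 3 (2 * a.natAbs ^ 3) (b ^ 2 * (a - b)) := by
    refine ⟨1, by omega, ![b ^ 2 * (a - b)], ![0], ?_, ?_, ?_⟩
    · intro i
      push_cast
      rw [abs_of_pos ha0]
      fin_cases i
      change |b ^ 2 * (a - b)| ≤ _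
      rw [abs_mul, abs_pow]
      have h1 : |a - b| ≤ 2 * a := by
        have h2 := abs_sub a b
        rw [abs_of_pos ha0] at h2
        omega
      calc |b| ^ 2 * |a - b| ≤ a ^ 2 * (2 * a) :=
            mul_le_mul (pow_le_pow_left₀ (abs_nonneg _) hba' 2) h1 (abs_nonneg _) (by positivity)
        _ = 2 * a ^ 3 := by ring
    · intro i
      fin_cases i
      simp
    · rw [Fin.sum_univ_one]
      simp
  have hx := hform 1 (by simp)
  have hy := hform (-1) (by simp)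
  clear_value W
  refine ⟨s, s, 0, b * (A ^ p + B ^ p + 1 * W), b * (A ^ p + B ^ p + (-1) * W),
    b ^ 2 * (a - b), by omega, hx, hy, hq, ?_, ?_, ?_⟩
  · calc b * (A ^ p + B ^ p + 1 * W) * (b * (A ^ p + B ^ p + (-1) * W))
        = b ^ 2 * ((A ^ p + B ^ p + W) * (A ^ p + B ^ p - W)) := by ring
      _ = b ^ 2 * (a - b) * Mp a b p := by rw [hFF, ← Mp_mul]; ring
  · intro hdvd
    have h1 : Mp a b p ∣ A ^ p + B ^ p + 1 * W := hcopN.dvd_of_dvd_mul_left hdvd
    have h2 := Int.le_of_dvd (by linarith) h1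
    linarith
  · intro hdvd
    have h1 : Mp a b p ∣ A ^ p + B ^ p + (-1) * W := hcopN.dvd_of_dvd_mul_left hdvd
    have h2 := Int.le_of_dvd (by linarith) h1
    linarith

end Q217.SG
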