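import Pool.Agent.Q217.SG.DeformGen

/-!
# The deformation principle, reversed form
-/

set_option autoImplicit false

namespace Q217.SG

open Finset Polynomial Q217.SF

variable {r : ℕ} {k : Fin r → ℕ} {l : ℕ}

/-- **The deformation principle**, with the last factor `v X ^ Y + u`. -/
theorem deformRev {R : Type*} [CommRing R] (hr : 2 ≤ r) (T : ∀ t, Fin (k t) → R)
    (α : ∀ t, Fin (k t) → ℤ) (D : Fin l → R) (β : Fin l → ℤ) (u v : R) (M : ℤ) (h : ℕ)
    (hM : 0 ≤ M)
    (hgap : ∀ S : Finset (Idx k l), (∀ i ∈ S, ∀ j, expo α β M i ≤ expo α β M j + h →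
      expo α β M j ≤ expo α β M i + h → j ∈ S) → ∑ i ∈ S, term T D u v i = 0)
    (hbig : ((∑ t, k t + l + 1 : ℕ) : ℝ) * Real.sqrt (2 * r) ^ (∑ t, k t + l) * h < M) :
    ∃ (P : Fin r → R[X]) (Pq : R[X]) (s s' Y : ℕ), 1 ≤ Y ∧
      (Y : ℝ) ≤ Real.sqrt (2 * r) ^ (∑ t, k t + l) ∧
      (∀ t, (P t).eval 1 = ∑ i, T t i) ∧
      (Pq.eval 1 = ∑ j, D j) ∧
      X ^ s' * ∏ t, P t = X ^ s * Pq * (C v * X ^ Y + C u) := by
  classical
  -- the exponents and coefficients
  let x : Var k l → ℤ := fun p => match p with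
    | none => M
    | some (.inl p) => α p.1 p.2
    | some (.inr j) => β j
  let E : Idx k l → ℤ := expo α β M
  have hE : ∀ i, ∑ p, vec k l i p * x p = E i := by
    intro i
    rcases i with φ | ⟨j, b⟩
    · rw [sum_vec_inl]; simp [x, E, expo]
    · cases b
      · rw [sum_vec_false]; rfl
      · rw [sum_vec_true]; rfl
  have hcard : Fintype.card (Var k l) = ∑ t, k t + l + 1 := by
    simp [Fintype.card_option, Fintype.card_sigma]
  let Rows : Set (Var k l → ℤ) :=
    {v | ∃ i j : Idx k l, E i ≤ E j + h ∧ E j ≤ E i + h ∧ v = fun p => vec k l i p - vec k l j p}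
  have hR : (1 : ℝ) ≤ 2 * r := by
    have : (2 : ℝ) ≤ r := by exact_mod_cast hr
    linarith
  obtain ⟨y, hy1, hy2, hy3⟩ := exists_functional (none : Var k l) Rows hR
    (by
      rintro _ ⟨i, j, -, -, rfl⟩
      exact vec_sub_norm hr i j) x (h := h) (by positivity)
    (by
      rintro _ ⟨i, j, h1, h2, rfl⟩
      have e1 : ∑ p, (vec k l i p - vec k l j p) * x p = E i - E j := by
        rw [← hE i, ← hE j, ← Finset.sum_sub_distrib]
        apply Finset.sum_congr rfl
        intro p _; ring
      rw [e1]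
      have e2 : |E i - E j| ≤ h := by
        rw [abs_le]; constructor <;> omega
      exact_mod_cast e2)
    (by
      rw [hcard]
      have e3 : |((x none : ℤ) : ℝ)| = M := by
        rw [abs_of_nonneg]
        have : (0 : ℝ) ≤ M := by exact_mod_cast hM
        exact this
      rw [e3]
      simpa using hbig)
  rw [hcard] at hy2
  simp only [add_tsub_cancel_right] at hy2
  -- the shifts
  let sh : Fin r → ℕ := fun t => ∑ i, (y (some (.inl ⟨t, i⟩))).natAbs
  have hsh : ∀ t i, 0 ≤ sh t - y (some (.inl ⟨t, i⟩)) := by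
    intro t i
    have h1 : (y (some (.inl ⟨t, i⟩))).natAbs ≤ sh t :=
      Finset.single_le_sum (f := fun i => (y (some (.inl ⟨t, i⟩))).natAbs)
        (fun _ _ => Nat.zero_le _) (Finset.mem_univ i)
    omega
  let sq : ℕ := ∑ j, (y (some (.inr j))).natAbs
  have hsq : ∀ j, 0 ≤ sq - y (some (.inr j)) := by
    intro j
    have h1 : (y (some (.inr j))).natAbs ≤ sq :=
      Finset.single_le_sum (f := fun j => (y (some (.inr j))).natAbs)
        (fun _ _ => Nat.zero_le _) (Finset.mem_univ j)
    omega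
  let z : ∀ t, Fin (k t) → ℕ := fun t i => (sh t - y (some (.inl ⟨t, i⟩))).toNat
  have hz : ∀ t i, (z t i : ℤ) = sh t - y (some (.inl ⟨t, i⟩)) :=
    fun t i => Int.toNat_of_nonneg (hsh t i)
  let zq : Fin l → ℕ := fun j => (sq - y (some (.inr j))).toNat
  have hzq : ∀ j, (zq j : ℤ) = sq - y (some (.inr j)) := fun j => Int.toNat_of_nonneg (hsq j)
  let P : Fin r → R[X] := fun t => ∑ i, C (T t i) * X ^ z t i
  let Pq : R[X] := ∑ j, C (D j) * X ^ zq j
  let s : ℕ := ∑ t, sh t
  let Y : ℕ := (y none).toNat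
  have hY : (Y : ℤ) = y none := Int.toNat_of_nonneg (by omega)
  let Z : Idx k l → ℕ := fun i => match i with
    | .inl φ => sq + Y + ∑ t, z t (φ t)
    | .inr (j, true) => s + zq j
    | .inr (j, false) => s + Y + zq j
  have hZ : ∀ i, (Z i : ℤ) = s + sq + Y - ∑ p, vec k l i p * y p := by
    intro i
    rcases i with φ | ⟨j, b⟩
    · rw [sum_vec_inl]
      simp only [Z, s]
      push_cast
      simp only [hz]
      rw [Finset.sum_sub_distrib]
      ring
    · cases b
      · rw [sum_vec_false]; simp only [Z]; push_cast; rw [hzq]; ring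
      · rw [sum_vec_true]; simp only [Z]; push_cast; rw [hzq, hY]; ring
  refine ⟨P, Pq, s, sq + Y, Y, by omega, ?_, ?_, ?_, ?_⟩
  · have : (Y : ℝ) = (y none : ℝ) := by exact_mod_cast hY
    rw [this]; exact hy2
  · intro t
    simp [P, eval_finsetSum]
  · simp [Pq, eval_finsetSum]
  · -- the identity
    have hprodP : X ^ (sq + Y) * ∏ t, P t =
        ∑ φ : (∀ t, Fin (k t)), C (term T D u v (.inl φ)) * X ^ Z (.inl φ) := by
      simp only [P]
      rw [Finset.prod_univ_sum, Finset.mul_sum, Fintype.piFinset_univ]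
      apply Finset.sum_congr rfl
      intro φ _
      rw [Finset.prod_mul_distrib, Finset.prod_pow_eq_pow_sum, ← map_prod]
      simp only [term, Z]
      rw [pow_add]
      ring
    have hQ : X ^ s * Pq * (C v * X ^ Y + C u) =
        -∑ q : Fin l × Bool, C (term T D u v (.inr q)) * X ^ Z (.inr q) := by
      rw [Fintype.sum_prod_type, ← Finset.sum_neg_distrib]
      simp only [Pq]
      rw [Finset.mul_sum, Finset.sum_mul]
      apply Finset.sum_congr rfl
      intro j _
      rw [Fintype.sum_bool]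
      simp only [term, Z, pow_add, C_neg, C_mul, neg_mul]
      ring
    have hclosed : ∀ n : ℕ, ∑ i ∈ Finset.univ.filter (fun i : Idx k l => Z i = n),
        term T D u v i = 0 := by
      intro n
      apply hgap
      intro i hi j h1 h2
      rw [Finset.mem_filter] at hi ⊢
      refine ⟨Finset.mem_univ _, ?_⟩
      have h3 := hy3 _ ⟨i, j, h1, h2, rfl⟩
      have h4 : ∑ p, vec k l i p * y p = ∑ p, vec k l j p * y p := by
        have : ∑ p, (vec k l i p - vec k l j p) * y p =
            ∑ p, vec k l i p * y p - ∑ p, vec k l j p * y p := by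
          rw [← Finset.sum_sub_distrib]
          apply Finset.sum_congr rfl
          intro p _; ring
        linarith [h3, this]
      have h5 := hZ i
      have h6 := hZ j
      rw [← h4] at h6
      have h7 : (Z i : ℤ) = Z j := by rw [h5, h6]
      rw [← hi.2]
      exact_mod_cast h7.symm
    have hzero : ∑ i : Idx k l, C (term T D u v i) * X ^ Z i = (0 : R[X]) := by
      ext n
      rw [finsetSum_coeff, coeff_zero, ← hclosed n, Finset.sum_filter]
      apply Finset.sum_congr rfl
      intro i _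
      rw [coeff_C_mul_X_pow]
      by_cases hn : Z i = n
      · rw [if_pos hn, if_pos hn.symm]
      · rw [if_neg hn, if_neg (fun h => hn h.symm)]
    rw [Fintype.sum_sum_type] at hzero
    rw [hprodP, hQ]
    linear_combination hzero

/-- A monic polynomial, prime over an extension, dividing a product of the form above divides one of
the factors; so its value at `1` divides the value of the factor. -/
theorem dvd_of_prime_map {R K : Type*} [CommRing R] [IsDomain R] [Field K] {ι : R →+* K}
    (hι : Function.Injective ι) {P : Fin r → R[X]} {Pq : R[X]} {s s' : ℕ} {G Q : R[X]}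
    (hG : G.Monic) (hirr : Irreducible (G.map ι)) (h0 : G.coeff 0 ≠ 0) (hGQ : G ∣ Q)
    (h : X ^ s' * ∏ t, P t = X ^ s * Pq * Q) :
    ∃ t, G.eval 1 ∣ (P t).eval 1 := by
  have hprime : Prime (G.map ι) := hirr.prime
  have h1 : G.map ι ∣ X ^ s' * ∏ t, (P t).map ι := by
    have h2 : G ∣ X ^ s' * ∏ t, P t := by rw [h]; exact hGQ.mul_left _
    have h3 := Polynomial.map_dvd ι h2
    rwa [Polynomial.map_mul, Polynomial.map_pow, map_X, Polynomial.map_prod] at h3
  rcases hprime.dvd_or_dvd h1 with h2 | h2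
  · exfalso
    have h3 : G.map ι ∣ X := hprime.dvd_of_dvd_pow h2
    have h4 : Associated (G.map ι) X := (hprime.dvd_prime_iff_associated Polynomial.prime_X).1 h3
    have h5 : X ∣ G.map ι := h4.symm.dvd
    rw [X_dvd_iff, coeff_map, map_eq_zero_iff ι hι] at h5
    exact h0 h5
  · obtain ⟨t, -, ht⟩ := (Prime.dvd_finsetProd_iff hprime (fun t => (P t).map ι)).1 h2
    rw [Polynomial.map_dvd_map ι hι hG] at ht
    obtain ⟨S, hS⟩ := ht
    exact ⟨t, ⟨S.eval 1, by rw [hS, eval_mul]⟩⟩

end Q217.SG
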