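import Pool.Agent.Q217.SG.DeformRev
import Pool.Agent.Q217.SF.Factor

/-!
# Fermat numbers and sums of two squares: polynomials over the Gaussian numbers
-/

set_option autoImplicit false

namespace Q217.SG.Gauss

open Finset Polynomial Q217.SF

/-- the Gaussian integers -/
abbrev GI : Type := QuadraticAlgebra ℤ (-1) 0

/-- the Gaussian numbers -/
abbrev GQ : Type := QuadraticAlgebra ℚ (-1) 0

instance factGQ : Fact (∀ r : ℚ, r ^ 2 ≠ -1 + 0 * r) := ⟨by
  intro r h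
  nlinarith [sq_nonneg r]⟩

/-- the inclusion -/
def incl : GI →+* GQ where
  toFun z := ⟨z.re, z.im⟩
  map_zero' := by ext <;> simp
  map_one' := by ext <;> simp [QuadraticAlgebra.re_one, QuadraticAlgebra.im_one]
  map_add' z w := by ext <;> simp
  map_mul' z w := by ext <;> simp

theorem incl_injective : Function.Injective incl := by
  intro z w h
  have h1 : (z.re : ℚ) = w.re := congrArg QuadraticAlgebra.re h
  have h2 : (z.im : ℚ) = w.im := congrArg QuadraticAlgebra.im h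
  ext
  · exact_mod_cast h1
  · exact_mod_cast h2

instance : IsDomain GI := incl_injective.isDomain incl

/-- the imaginary unit -/
def I : GI := ⟨0, 1⟩

theorem I_sq : I * I = -1 := by
  ext <;> simp [I, QuadraticAlgebra.re_one, QuadraticAlgebra.im_one]

theorem rat_pow_ne {x : ℚ} {p N : ℕ} (hp : ¬ p ∣ N) : x ^ p ≠ 2 ^ N := by
  intro h
  have h1 : padicValRat 2 (x ^ p) = N := by
    rw [h, padicValRat.pow, show (2 : ℚ) = ((2 : ℕ) : ℚ) by norm_num,
      padicValRat.self (by norm_num)]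
    simp
  rw [padicValRat.pow] at h1
  apply hp
  have : (p : ℤ) ∣ (N : ℤ) := ⟨_, h1.symm⟩
  exact_mod_cast this

theorem odd_not_dvd {p m : ℕ} (hp : p.Prime) (h2 : Odd p) : ¬ p ∣ 2 ^ m := by
  intro h
  have h3 := (Nat.prime_dvd_prime_iff_eq hp Nat.prime_two).1 (hp.dvd_of_dvd_pow h)
  rw [h3] at h2
  exact absurd h2 (by decide)

theorem irr_odd {m Y : ℕ} (hY : Odd Y) :
    Irreducible (X ^ Y - C (-(2 ^ (2 ^ m)) : GQ)) := by
  apply capelli hY.pos.ne'
  · intro p hp hpY β hβ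
    have hodd : Odd p := hY.of_dvd_nat hpY
    have h1 := congrArg QuadraticAlgebra.norm hβ
    rw [map_pow, QuadraticAlgebra.norm_neg, map_pow] at h1
    have h2 : QuadraticAlgebra.norm (2 : GQ) = 2 ^ 2 := by
      have := QuadraticAlgebra.norm_natCast (a := (-1 : ℚ)) (b := 0) 2
      simpa using this
    rw [h2, ← pow_mul, ← pow_succ'] at h1
    exact rat_pow_ne (odd_not_dvd hp hodd) h1
  · intro h4
    exfalso
    have : 2 ∣ Y := (by norm_num : 2 ∣ 4).trans h4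
    rw [← even_iff_two_dvd] at this
    exact (Nat.not_even_iff_odd.2 hY) this

theorem sq_ne {m : ℕ} (hm : 2 ≤ m) (β : GQ) :
    β ^ 2 ≠ (⟨0, -2 ^ (2 ^ (m - 1))⟩ : GQ) := by
  intro h
  obtain ⟨x, y⟩ := β
  rw [sq] at h
  have h1 := congrArg QuadraticAlgebra.re h
  have h2 := congrArg QuadraticAlgebra.im h
  simp at h1 h2
  have h3 : x ^ 4 * 2 ^ 2 = 2 ^ (2 ^ m) := by
    have e : (2 : ℕ) ^ m = 2 ^ (m - 1) * 2 := by rw [← pow_succ]; congr 1; omega
    rw [e, pow_mul]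
    have h4 : x * y + y * x = -2 ^ (2 ^ (m - 1)) := h2
    have h5 : (x * y + y * x) ^ 2 = (2 ^ (2 ^ (m - 1))) ^ 2 := by rw [h4]; ring
    have h6 : x * x = y * y := by linarith
    calc x ^ 4 * 2 ^ 2 = 4 * (x * x) * (x * x) := by ring
      _ = 4 * (x * x) * (y * y) := by rw [h6]
      _ = (x * y + y * x) ^ 2 := by ring
      _ = (2 ^ (2 ^ (m - 1))) ^ 2 := h5
  have hM : 2 ≤ 2 ^ m := by
    calc 2 = 2 ^ 1 := rfl
      _ ≤ 2 ^ m := Nat.pow_le_pow_right (by norm_num) (by omega)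
  have h4 : x ^ 4 = 2 ^ (2 ^ m - 2) := by
    have h5 : (2 : ℚ) ^ (2 ^ m) = 2 ^ (2 ^ m - 2) * 2 ^ 2 := by
      rw [← pow_add]; congr 1; omega
    rw [h5] at h3
    exact mul_right_cancel₀ (by norm_num) h3
  refine rat_pow_ne (p := 4) ?_ h4
  intro h5
  obtain ⟨j, rfl⟩ := Nat.exists_eq_add_of_le hm
  have h6 : 4 ∣ 2 ^ (2 + j) := ⟨2 ^ j, by rw [pow_add]; norm_num⟩
  omega

theorem irr_even {m Z : ℕ} (hm : 2 ≤ m) (hZ : 1 ≤ Z) :
    Irreducible (X ^ Z - C (⟨0, -2 ^ (2 ^ (m - 1))⟩ : GQ)) := by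
  apply capelli (by omega)
  · intro p hp hpZ β hβ
    rcases hp.eq_two_or_odd' with h2 | hodd
    · subst h2
      exact sq_ne hm β hβ
    · have h1 := congrArg QuadraticAlgebra.norm hβ
      rw [map_pow] at h1
      have h2 : QuadraticAlgebra.norm (⟨0, -2 ^ (2 ^ (m - 1))⟩ : GQ) = 2 ^ (2 ^ m) := by
        rw [QuadraticAlgebra.norm_def]
        have e : (2 : ℕ) ^ m = 2 ^ (m - 1) * 2 := by rw [← pow_succ]; congr 1; omega
        rw [e, pow_mul]
        ring
      rw [h2] at h1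
      exact rat_pow_ne (odd_not_dvd hp hodd) h1
  · intro h4 β hβ
    apply sq_ne hm (2 * ⟨0, 1⟩ * β ^ 2)
    rw [← hβ]
    have h1 : (⟨0, 1⟩ : GQ) ^ 2 = -1 := by
      rw [sq]
      ext <;> simp [QuadraticAlgebra.re_one, QuadraticAlgebra.im_one]
    calc (2 * (⟨0, 1⟩ : GQ) * β ^ 2) ^ 2 = 4 * (⟨0, 1⟩ : GQ) ^ 2 * β ^ 4 := by ring
      _ = -4 * β ^ 4 := by rw [h1]; ring

end Q217.SG.Gauss
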