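import Pool.Agent.Q217.SG.Gauss
import Pool.Agent.Q217.SG.ClosedGen

/-!
# Fermat numbers and sums of two squares of sparse integers
-/

set_option autoImplicit false

namespace Q217.SG.Gauss

open Finset Polynomial Q217.SF

/-- the size of a Gaussian integer -/
def sz (z : GI) : ℤ := |z.re| + |z.im|

theorem sz_nonneg (z : GI) : 0 ≤ sz z := add_nonneg (abs_nonneg _) (abs_nonneg _)

theorem sz_mul (z w : GI) : sz (z * w) ≤ sz z * sz w := by
  have h1 : (z * w).re = z.re * w.re - z.im * w.im := by simp; ring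
  have h2 : (z * w).im = z.re * w.im + z.im * w.re := by simp
  simp only [sz]
  rw [h1, h2]
  calc |z.re * w.re - z.im * w.im| + |z.re * w.im + z.im * w.re|
      ≤ (|z.re * w.re| + |z.im * w.im|) + (|z.re * w.im| + |z.im * w.re|) :=
        add_le_add (abs_sub _ _) (abs_add_le _ _)
    _ = (|z.re| + |z.im|) * (|w.re| + |w.im|) := by
        rw [abs_mul, abs_mul, abs_mul, abs_mul]; ring

theorem sz_int (n : ℤ) : sz (n : GI) = |n| := by simp [sz]

theorem sz_neg (z : GI) : sz (-z) = sz z := by simp [sz]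

theorem re_sum {ι : Type*} (s : Finset ι) (f : ι → GI) :
    (∑ i ∈ s, f i).re = ∑ i ∈ s, (f i).re :=
  map_sum (QuadraticAlgebra.reₗ (R := ℤ) (a := -1) (b := 0)) f s

theorem im_sum {ι : Type*} (s : Finset ι) (f : ι → GI) :
    (∑ i ∈ s, f i).im = ∑ i ∈ s, (f i).im :=
  map_sum (QuadraticAlgebra.imₗ (R := ℤ) (a := -1) (b := 0)) f s

theorem two_pow_re (n : ℕ) : ((2 : GI) ^ n).re = 2 ^ n := by
  have h : (2 : GI) ^ n = ((2 ^ n : ℤ) : GI) := by push_cast; rfl
  rw [h, QuadraticAlgebra.re_intCast]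
  rfl

theorem two_pow_im (n : ℕ) : ((2 : GI) ^ n).im = 0 := by
  have h : (2 : GI) ^ n = ((2 ^ n : ℤ) : GI) := by push_cast; rfl
  rw [h, QuadraticAlgebra.im_intCast]

theorem re_mul_two_pow (z : GI) (n : ℕ) : (z * 2 ^ n).re = z.re * 2 ^ n := by
  rw [QuadraticAlgebra.re_mul, two_pow_re, two_pow_im]
  ring

theorem im_mul_two_pow (z : GI) (n : ℕ) : (z * 2 ^ n).im = z.im * 2 ^ n := by
  rw [QuadraticAlgebra.im_mul, two_pow_re, two_pow_im]
  ring

theorem closed_gauss {J : Type*} [Fintype J] [DecidableEq J] {c : J → GI} {E : J → ℤ} {h : ℕ}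
    (hE : ∀ i, 0 ≤ E i) (hJ : ∑ i, sz (c i) < 2 ^ (h + 1))
    (h0 : ∑ i, c i * 2 ^ (E i).toNat = 0) (S : Finset J)
    (hcl : ∀ i ∈ S, ∀ j, E i ≤ E j + h → E j ≤ E i + h → j ∈ S) :
    ∑ i ∈ S, c i * 2 ^ (E i).toNat = 0 := by
  have hm : ∀ i, E i ≤ ∑ j, E j := fun i =>
    Finset.single_le_sum (f := E) (fun j _ => hE j) (Finset.mem_univ i)
  have hint : ∀ f : J → ℤ, (∀ i, |f i| ≤ sz (c i)) → ∑ i, f i * 2 ^ (E i).toNat = 0 →
      ∑ i ∈ S, f i * 2 ^ (E i).toNat = 0 := by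
    intro f hf hf0
    have := closed_pair (a := 2) (b := 1) (by norm_num) isCoprime_one_right (by norm_num)
      (c := f) (E := E) (m := ∑ j, E j) (h := h) Finset.univ (fun i _ => ⟨hE i, hm i⟩)
      (lt_of_le_of_lt (Finset.sum_le_sum (fun i _ => hf i)) hJ)
      (by simpa using hf0) S (Finset.subset_univ _) (fun i hi j _ h1 h2 => hcl i hi j h1 h2)
    simpa using this
  have hre := congrArg QuadraticAlgebra.re h0
  have him := congrArg QuadraticAlgebra.im h0
  rw [re_sum] at hre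
  rw [im_sum] at him
  simp only [re_mul_two_pow, im_mul_two_pow, QuadraticAlgebra.re_zero,
    QuadraticAlgebra.im_zero] at hre him
  ext
  · rw [re_sum]
    simp only [re_mul_two_pow, QuadraticAlgebra.re_zero]
    exact hint _ (fun i => by simp only [sz]; linarith [abs_nonneg (c i).im]) hre
  · rw [im_sum]
    simp only [im_mul_two_pow, QuadraticAlgebra.im_zero]
    exact hint _ (fun i => by simp only [sz]; linarith [abs_nonneg (c i).re]) him

/-- the coefficients of the expanded identity -/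
def coefG {k : Fin 2 → ℕ} {l : ℕ} (c : ∀ t, Fin (k t) → GI) (d : Fin l → ℤ) : Idx k l → GI
  | .inl φ => ∏ t, c t (φ t)
  | .inr (j, _) => -(d j : GI)

theorem sum_sz {k : Fin 2 → ℕ} {l : ℕ} (c : ∀ t, Fin (k t) → GI) (d : Fin l → ℤ) :
    ∑ i : Idx k l, sz (coefG c d i) ≤ ∏ t, ∑ i, sz (c t i) + 2 * ∑ j, |d j| := by
  classical
  rw [Fintype.sum_sum_type, Fintype.sum_prod_type]
  apply add_le_add
  · rw [Finset.prod_univ_sum, Fintype.piFinset_univ]
    apply Finset.sum_le_sum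
    intro φ _
    simp only [coefG]
    rw [Fin.prod_univ_two, Fin.prod_univ_two]
    exact sz_mul _ _
  · rw [Finset.mul_sum]
    apply Finset.sum_le_sum
    intro j _
    rw [Fintype.sum_bool]
    simp only [coefG, sz_neg, sz_int]
    linarith

/-- **The main theorem over the Gaussian integers.** -/
theorem gauss_main {m l : ℕ} (hm : 2 ≤ m) (k : Fin 2 → ℕ) (c : ∀ t, Fin (k t) → GI)
    (α : ∀ t, Fin (k t) → ℕ) (d : Fin l → ℤ) (β : Fin l → ℕ)
    (hprod : ∏ t, ∑ i, c t i * 2 ^ α t i = (∑ j, (d j : GI) * 2 ^ β j) * (2 ^ (2 ^ m) + 1))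
    (H : ℕ) (hH : ∏ t, ∑ i, sz (c t i) + 2 * ∑ j, |d j| < 2 ^ (H + 1))
    (hbig : (∑ t, k t + l + 1) * 2 ^ (∑ t, k t + l) * H < 2 ^ m) :
    ∃ t, 1 + I * 2 ^ (2 ^ (m - 1)) ∣ ∑ i, c t i * 2 ^ α t i := by
  classical
  let T : ∀ t, Fin (k t) → GI := fun t i => c t i * 2 ^ α t i
  let D : Fin l → GI := fun j => (d j : GI) * 2 ^ β j
  let α' : ∀ t, Fin (k t) → ℤ := fun t i => α t i
  let β' : Fin l → ℤ := fun j => β j
  have hE : ∀ i : Idx k l, 0 ≤ expo α' β' ((2 ^ m : ℕ) : ℤ) i := by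
    intro i
    rcases i with φ | ⟨j, q⟩
    · simp only [expo, α']; positivity
    · cases q <;> simp only [expo, β'] <;> positivity
  have hterm : ∀ i : Idx k l, term T D (2 ^ (2 ^ m)) 1 i =
      coefG c d i * 2 ^ (expo α' β' ((2 ^ m : ℕ) : ℤ) i).toNat := by
    intro i
    rcases i with φ | ⟨j, q⟩
    · simp only [term, coefG, expo, T, α']
      have e1 : (∑ t, (α t (φ t) : ℤ)).toNat = ∑ t, α t (φ t) := by
        have : ∑ t, (α t (φ t) : ℤ) = ((∑ t, α t (φ t) : ℕ) : ℤ) := by push_cast; rfl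
        rw [this, Int.toNat_natCast]
      rw [e1, Finset.prod_mul_distrib, Finset.prod_pow_eq_pow_sum]
    · cases q
      · simp only [term, coefG, expo, D, β']
        rw [Int.toNat_natCast]
        ring
      · simp only [term, coefG, expo, D, β']
        have e1 : (((2 ^ m : ℕ) : ℤ) + (β j : ℤ)).toNat = 2 ^ m + β j := by
          rw [← Nat.cast_add, Int.toNat_natCast]
        rw [e1, pow_add]
        ring
  have hsqrt : Real.sqrt (2 * ((2 : ℕ) : ℝ)) = 2 := by
    rw [show (2 : ℝ) * ((2 : ℕ) : ℝ) = 2 ^ 2 by norm_num]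
    exact Real.sqrt_sq (by norm_num)
  obtain ⟨P, Pq, s, s', Y, hY1, -, hP, -, hid⟩ := deformRev (r := 2) le_rfl T α' D β'
    (2 ^ (2 ^ m)) 1 ((2 ^ m : ℕ) : ℤ) H (by positivity)
    (by
      intro S hS
      have htot := sum_term T D (2 ^ (2 ^ m)) 1 hprod
      rw [Finset.sum_congr rfl (fun i _ => hterm i)] at htot ⊢
      exact closed_gauss hE (lt_of_le_of_lt (sum_sz c d) hH) htot S hS)
    (by
      rw [hsqrt]
      exact_mod_cast hbig)
  have hI : (I * 2 ^ (2 ^ (m - 1)) : GI) * (I * 2 ^ (2 ^ (m - 1))) = -(2 ^ (2 ^ m)) := by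
    have e : (2 : ℕ) ^ m = 2 ^ (m - 1) * 2 := by rw [← pow_succ]; congr 1; omega
    rw [e, pow_mul]
    calc (I * 2 ^ (2 ^ (m - 1)) : GI) * (I * 2 ^ (2 ^ (m - 1)))
        = (I * I) * (2 ^ (2 ^ (m - 1))) ^ 2 := by ring
      _ = -((2 ^ (2 ^ (m - 1))) ^ 2) := by rw [I_sq]; ring
  rcases Nat.even_or_odd' Y with ⟨Z, hZ | hZ⟩
  · -- `Y` even
    have hZ1 : 1 ≤ Z := by omega
    obtain ⟨t, ht⟩ := dvd_of_prime_map incl_injective (G := X ^ Z + C (I * 2 ^ (2 ^ (m - 1))))
      (monic_X_pow_add_C _ (by omega))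
      (by
        have := irr_even hm hZ1
        rw [Polynomial.map_add, Polynomial.map_pow, map_X, map_C]
        have e : incl (I * 2 ^ (2 ^ (m - 1))) = -(⟨0, -2 ^ (2 ^ (m - 1))⟩ : GQ) := by
          ext
          · change ((I * 2 ^ (2 ^ (m - 1)) : GI).re : ℚ) = _
            rw [re_mul_two_pow]
            simp [I]
          · change ((I * 2 ^ (2 ^ (m - 1)) : GI).im : ℚ) = _
            rw [im_mul_two_pow]
            simp [I]
        rw [e, map_neg, ← sub_eq_add_neg]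
        exact this)
      (by
        rw [coeff_add, coeff_X_pow, if_neg (by omega), coeff_C_zero, zero_add]
        intro h0
        have := congrArg QuadraticAlgebra.im h0
        rw [im_mul_two_pow] at this
        simp [I] at this)
      (Q := C 1 * X ^ Y + C (2 ^ (2 ^ m)))
      ⟨X ^ Z - C (I * 2 ^ (2 ^ (m - 1))), by
        rw [hZ, mul_comm 2 Z, pow_mul]
        have : (C (2 ^ (2 ^ m)) : GI[X]) = -(C (I * 2 ^ (2 ^ (m - 1))) *
            C (I * 2 ^ (2 ^ (m - 1)))) := by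
          rw [← C_mul, hI, C_neg, neg_neg]
        rw [this, C_1]
        ring⟩ hid
    refine ⟨t, ?_⟩
    rw [hP t] at ht
    simpa using ht
  · -- `Y` odd
    obtain ⟨t, ht⟩ := dvd_of_prime_map incl_injective (G := X ^ Y + C (2 ^ (2 ^ m)))
      (monic_X_pow_add_C _ (by omega))
      (by
        have := irr_odd (m := m) (Y := Y) ⟨Z, hZ⟩
        have e : incl (2 ^ (2 ^ m)) = 2 ^ (2 ^ m) := by
          rw [map_pow, map_ofNat]
        rw [Polynomial.map_add, Polynomial.map_pow, map_X, map_C, e]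
        rw [map_neg, sub_neg_eq_add] at this
        exact this)
      (by
        rw [coeff_add, coeff_X_pow, if_neg (by omega), coeff_C_zero, zero_add]
        intro h0
        have h1 := congrArg QuadraticAlgebra.re h0
        rw [two_pow_re, QuadraticAlgebra.re_zero] at h1
        exact (pow_ne_zero _ (by norm_num : (2 : ℤ) ≠ 0)) h1)
      (Q := C 1 * X ^ Y + C (2 ^ (2 ^ m))) (by rw [C_1, one_mul]) hid
    refine ⟨t, ?_⟩
    rw [hP t] at ht
    have h1 : (1 + I * 2 ^ (2 ^ (m - 1)) : GI) ∣ 1 + 2 ^ (2 ^ m) := by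
      refine ⟨1 - I * 2 ^ (2 ^ (m - 1)), ?_⟩
      linear_combination hI
    have h2 : (1 + 2 ^ (2 ^ m) : GI) ∣ ∑ i, T t i := by simpa using ht
    exact h1.trans h2

end Q217.SG.Gauss
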