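import Pool.Agent.Q217.SG.DeformRev
import Pool.Agent.Q217.SF.Capelli

/-!
# The golden field
-/

set_option autoImplicit false

namespace Q217.SG.Golden

open Polynomial Q217.SF

/-- the golden integers -/
abbrev ZP : Type := QuadraticAlgebra ℤ 1 1

/-- the golden field -/
abbrev QP : Type := QuadraticAlgebra ℚ 1 1

instance factQP : Fact (∀ r : ℚ, r ^ 2 ≠ 1 + 1 * r) := ⟨by
  intro r h
  have h1 : (2 * r - 1) ^ 2 = ((5 : ℕ) : ℚ) := by push_cast; linear_combination 4 * h
  have h2 : padicValRat 5 ((2 * r - 1) ^ 2) = 1 := by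
    rw [h1, padicValRat.self (by norm_num)]
  have h3 : Fact (Nat.Prime 5) := ⟨by norm_num⟩
  rw [padicValRat.pow] at h2
  omega⟩

/-- the inclusion -/
def incl : ZP →+* QP where
  toFun z := ⟨z.re, z.im⟩
  map_zero' := by ext <;> simp
  map_one' := by ext <;> simp [QuadraticAlgebra.re_one, QuadraticAlgebra.im_one]
  map_add' z w := by ext <;> simp
  map_mul' z w := by ext <;> simp

theorem incl_injective : Function.Injective incl := by
  intro z w h
  have h1 : (z.re : ℚ) = w.re := congrArg QuadraticAlgebra.re h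
  have h2 : (z.im : ℚ) = w.im := congrArg QuadraticAlgebra.im h
  ext
  · exact_mod_cast h1
  · exact_mod_cast h2

instance : IsDomain ZP := incl_injective.isDomain incl

/-- the real embedding of the golden field with a root `s` of `s ^ 2 = s + 1` -/
def emb (s : ℝ) (hs : s ^ 2 = s + 1) : QP →+* ℝ where
  toFun z := z.re + z.im * s
  map_zero' := by simp
  map_one' := by simp [QuadraticAlgebra.re_one, QuadraticAlgebra.im_one]
  map_add' z w := by simp; ring
  map_mul' z w := by
    simp
    linear_combination (-(z.im : ℝ) * w.im) * hs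

/-- the first real embedding -/
noncomputable def e₁ : QP →+* ℝ := emb Real.goldenRatio Real.goldenRatio_sq

/-- the second real embedding -/
noncomputable def e₂ : QP →+* ℝ := emb Real.goldenConj Real.goldenConj_sq

/-- the golden ratio in the golden field -/
def g : QP := ⟨0, 1⟩

/-- the golden ratio in the golden integers -/
def γ : ZP := ⟨0, 1⟩

/-- its conjugate -/
def γ' : ZP := ⟨1, -1⟩

theorem incl_γ : incl γ = g := by
  simp [incl, γ, g]

theorem e₁_g : e₁ g = Real.goldenRatio := by simp [e₁, emb, g]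

theorem e₂_g : e₂ g = Real.goldenConj := by simp [e₂, emb, g]

theorem e₁_mul_e₂ (z : QP) : e₁ z * e₂ z = z.norm := by
  have h1 := Real.goldenRatio_mul_goldenConj
  have h2 := Real.goldenRatio_add_goldenConj
  change ((z.re : ℝ) + z.im * Real.goldenRatio) * (z.re + z.im * Real.goldenConj) = _
  rw [QuadraticAlgebra.norm_def]
  push_cast
  linear_combination (z.re * z.im : ℝ) * h2 + (z.im * z.im : ℝ) * h1

theorem e₁_add_e₂ (z : QP) : e₁ z + e₂ z = ((2 * z.re + z.im : ℚ) : ℝ) := by
  have h2 := Real.goldenRatio_add_goldenConj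
  change ((z.re : ℝ) + z.im * Real.goldenRatio) + (z.re + z.im * Real.goldenConj) = _
  push_cast
  linear_combination (z.im : ℝ) * h2

/-- The golden ratio is not a `p`-th power in the golden field, `p` an odd prime. -/
theorem g_ne_pow {p : ℕ} (hp : p.Prime) (hodd : Odd p) (z : QP) : z ^ p ≠ g := by
  intro hz
  have hφ := Real.one_lt_goldenRatio
  have hs : e₁ z ^ p = Real.goldenRatio := by rw [← map_pow, hz, e₁_g]
  have hs' : e₂ z ^ p = Real.goldenConj := by rw [← map_pow, hz, e₂_g]
  -- the norm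
  have hn : e₁ z * e₂ z = -1 := by
    have h1 : (e₁ z * e₂ z) ^ p = (-1) ^ p := by
      rw [mul_pow, hs, hs', Real.goldenRatio_mul_goldenConj, hodd.neg_one_pow]
    exact hodd.pow_injective h1
  -- bounds for the first embedding
  have h1 : 1 < e₁ z := by
    by_contra hcon
    push Not at hcon
    have h2 : e₁ z ^ p ≤ 1 ^ p := hodd.pow_le_pow.2 hcon
    rw [hs, one_pow] at h2
    linarith
  have h2 : e₁ z < Real.goldenRatio := by
    by_contra hcon
    push Not at hcon
    have h3 : Real.goldenRatio ^ p ≤ e₁ z ^ p :=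
      pow_le_pow_left₀ (by linarith) hcon p
    rw [hs] at h3
    have h4 : Real.goldenRatio ^ 1 < Real.goldenRatio ^ p :=
      pow_lt_pow_right₀ hφ hp.one_lt
    rw [pow_one] at h4
    linarith
  -- the trace is an integer
  have hint : IsIntegral ℤ (algebraMap ℚ QP (2 * z.re + z.im)) := by
    have e : algebraMap ℚ QP (2 * z.re + z.im) = z + star z := by
      ext
      · change 2 * z.re + z.im = z.re + (z.re + 1 * z.im)
        ring
      · change (0 : ℚ) = z.im + -z.im
        ring
    have hg : IsIntegral ℤ g := by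
      refine ⟨X ^ 2 - X - 1, by monicity!, ?_⟩
      rw [eval₂_sub, eval₂_sub, eval₂_X_pow, eval₂_X, eval₂_one, sq]
      ext <;> simp [g, QuadraticAlgebra.re_one, QuadraticAlgebra.im_one]
    have hz1 : IsIntegral ℤ z := by
      apply IsIntegral.of_pow hp.pos
      rw [hz]; exact hg
    have hz2 : IsIntegral ℤ (star z) := by
      apply IsIntegral.of_pow hp.pos
      rw [← star_pow, hz]
      have : star g = 1 - g := by
        ext <;> simp [g, QuadraticAlgebra.re_one, QuadraticAlgebra.im_one]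
      rw [this]
      exact isIntegral_one.sub hg
    rw [e]
    exact hz1.add hz2
  have hint' : IsIntegral ℤ (2 * z.re + z.im) :=
    (isIntegral_algebraMap_iff (algebraMap ℚ QP).injective).1 hint
  obtain ⟨t, ht⟩ := IsIntegrallyClosed.isIntegral_iff.1 hint'
  have h3 : e₁ z + e₂ z = t := by
    rw [e₁_add_e₂, ← ht]
    simp
  have h4 : e₁ z * (t : ℝ) = e₁ z ^ 2 - 1 := by
    rw [← h3]
    linear_combination hn
  have h5 : (0 : ℝ) < t := by
    have h8 : 0 < e₁ z * (t : ℝ) := by rw [h4]; nlinarith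
    by_contra hcon
    push Not at hcon
    have h9 : e₁ z * (t : ℝ) ≤ 0 := mul_nonpos_of_nonneg_of_nonpos (by linarith) hcon
    linarith
  have h6 : (t : ℝ) < 1 := by
    have h7 : e₁ z * (t : ℝ) < e₁ z * 1 := by
      rw [h4]
      have h8 := Real.goldenRatio_sq
      nlinarith
    exact lt_of_mul_lt_mul_left h7 (by linarith)
  have h7 : 0 < t := by exact_mod_cast h5
  have h8 : t < 1 := by exact_mod_cast h6
  omega

theorem g_ne_zero : g ≠ 0 := by
  intro h
  have := congrArg QuadraticAlgebra.im h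
  simp [g] at this

theorem g_pow_ne_pow {p n : ℕ} (hp : p.Prime) (hodd : Odd p) (hn : ¬ p ∣ n) (z : QP) :
    z ^ p ≠ g ^ n := by
  intro hz
  have hcop : Nat.gcd n p = 1 := (Nat.Coprime.symm ((Nat.Prime.coprime_iff_not_dvd hp).2 hn))
  have hb : (n : ℤ) * Nat.gcdA n p + (p : ℤ) * Nat.gcdB n p = 1 := by
    have := Nat.gcd_eq_gcd_ab n p
    rw [hcop] at this
    simpa using this.symm
  apply g_ne_pow hp hodd (z ^ (Nat.gcdA n p) * g ^ (Nat.gcdB n p))
  have e1 : (z ^ (Nat.gcdA n p)) ^ p = (z ^ p) ^ (Nat.gcdA n p) := by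
    rw [← zpow_natCast (z ^ Nat.gcdA n p) p, ← zpow_mul, mul_comm, zpow_mul, zpow_natCast]
  rw [mul_pow, e1, hz, ← zpow_natCast g n, ← zpow_natCast (g ^ Nat.gcdB n p) p, ← zpow_mul,
    ← zpow_mul, ← zpow_add₀ g_ne_zero]
  rw [show (n : ℤ) * Nat.gcdA n p + Nat.gcdB n p * p = 1 by rw [← hb]; ring]
  exact zpow_one g

/-- `2` is not a square. -/
theorem two_ne_sq (z : QP) : z ^ 2 ≠ 2 := by
  intro h
  obtain ⟨x, y⟩ := z
  rw [sq] at h
  have h1 : x * x + 1 * y * y = 2 := congrArg QuadraticAlgebra.re h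
  have h2 : x * y + y * x + 1 * y * y = 0 := congrArg QuadraticAlgebra.im h
  have h3 : y * (2 * x + y) = 0 := by linarith
  rcases mul_eq_zero.1 h3 with h4 | h4
  · rw [h4] at h1
    have h5 : x ^ 2 = ((2 : ℕ) : ℚ) := by push_cast; linarith
    have h6 : padicValRat 2 (x ^ 2) = 1 := by rw [h5, padicValRat.self (by norm_num)]
    rw [padicValRat.pow] at h6
    omega
  · have h5 : y = -2 * x := by linarith
    rw [h5] at h1
    have h6 : (5 * x) ^ 2 = 5 * ((2 : ℕ) : ℚ) := by push_cast; linarith
    have h7 : padicValRat 2 ((5 * x) ^ 2) = 1 := by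
      rw [h6, padicValRat.mul (by norm_num) (by norm_num), padicValRat.self (by norm_num)]
      have : padicValRat 2 (5 : ℚ) = 0 := by
        have h8 : padicValNat 2 5 = 0 := padicValNat.eq_zero_of_not_dvd (by norm_num)
        have h9 := padicValRat.of_nat (p := 2) (n := 5)
        rw [h8] at h9
        exact_mod_cast h9
      rw [this]; norm_num
    rw [padicValRat.pow] at h7
    omega

theorem e₁_pos (n : ℕ) : 0 < e₁ (g ^ n) := by
  rw [map_pow, e₁_g]
  exact pow_pos Real.goldenRatio_pos n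

theorem pow_pos_of_neg_sq {x : ℝ} (h : x < 0) : 0 < x ^ 2 := by nlinarith

theorem goldenConj_odd (m : ℕ) : Real.goldenConj ^ (2 * m + 1) < 0 := by
  have h6 := Real.goldenConj_neg
  have h7 : 0 < Real.goldenConj ^ (2 * m) := by
    rw [pow_mul]
    exact pow_pos (pow_pos_of_neg_sq h6) m
  rw [pow_succ]
  exact mul_neg_of_pos_of_neg h7 h6

/-- `X ^ Y + g ^ (2 n)` is irreducible. -/
theorem irr_plus {n Y : ℕ} (hY : 1 ≤ Y)
    (h : ∀ p : ℕ, p.Prime → Odd p → p ∣ Y → ¬ p ∣ n) :
    Irreducible (X ^ Y - C (-g ^ (2 * n))) := by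
  apply capelli (by omega)
  · intro p hp hpY z hz
    rcases hp.eq_two_or_odd' with h2 | hodd
    · subst h2
      have h1 := congrArg e₁ hz
      rw [map_pow, map_neg] at h1
      have := e₁_pos (2 * n)
      nlinarith [sq_nonneg (e₁ z)]
    · apply g_pow_ne_pow hp hodd (n := 2 * n) _ (-z)
      · rw [hodd.neg_pow, hz, neg_neg]
      · intro hd
        rcases (Nat.Prime.dvd_mul hp).1 hd with h3 | h3
        · rw [(Nat.prime_dvd_prime_iff_eq hp Nat.prime_two).1 h3] at hodd
          exact absurd hodd (by decide)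
        · exact h p hp hodd hpY h3
  · intro h4 z hz
    have h1 : (2 * z ^ 2 - g ^ n) * (2 * z ^ 2 + g ^ n) = 0 := by
      linear_combination -hz
    rcases mul_eq_zero.1 h1 with h2 | h2
    · -- `2 z ^ 2 = g ^ n`
      have h3 : 2 * z ^ 2 = g ^ n := by linear_combination h2
      rcases Nat.even_or_odd' n with ⟨m, hm | hm⟩
      · have hgm : g ^ m ≠ 0 := pow_ne_zero _ g_ne_zero
        have hz0 : z ≠ 0 := by
          rintro rfl
          rw [zero_pow (by norm_num), mul_zero] at h3
          exact (pow_ne_zero n g_ne_zero) h3.symm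
        apply two_ne_sq (g ^ m / z)
        rw [div_pow, ← pow_mul, mul_comm m 2, ← hm, ← h3]
        field_simp
      · have h5 := congrArg e₂ h3
        rw [map_mul, map_pow, map_pow, e₂_g, map_ofNat, hm] at h5
        have h6 := goldenConj_odd m
        nlinarith [sq_nonneg (e₂ z)]
    · have h3 : 2 * z ^ 2 = -g ^ n := by linear_combination h2
      have h5 := congrArg e₁ h3
      rw [map_mul, map_pow, map_neg, map_ofNat] at h5
      have := e₁_pos n
      nlinarith [sq_nonneg (e₁ z)]

/-- `X ^ Y - g ^ (2 n)` is irreducible for odd `Y`. -/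
theorem irr_minus_odd {n Y : ℕ} (hY : Odd Y)
    (h : ∀ p : ℕ, p.Prime → Odd p → p ∣ Y → ¬ p ∣ n) :
    Irreducible (X ^ Y - C (g ^ (2 * n))) := by
  apply capelli hY.pos.ne'
  · intro p hp hpY z hz
    have hodd : Odd p := hY.of_dvd_nat hpY
    apply g_pow_ne_pow hp hodd (n := 2 * n) _ z hz
    intro hd
    rcases (Nat.Prime.dvd_mul hp).1 hd with h3 | h3
    · rw [(Nat.prime_dvd_prime_iff_eq hp Nat.prime_two).1 h3] at hodd
      exact absurd hodd (by decide)
    · exact h p hp hodd hpY h3
  · intro h4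
    exfalso
    have : 2 ∣ Y := (by norm_num : 2 ∣ 4).trans h4
    rw [← even_iff_two_dvd] at this
    exact (Nat.not_even_iff_odd.2 hY) this

/-- `X ^ Z - g ^ n` is irreducible for odd `n`. -/
theorem irr_minus_even {n Z : ℕ} (hZ : 1 ≤ Z) (hn : Odd n)
    (h : ∀ p : ℕ, p.Prime → Odd p → p ∣ Z → ¬ p ∣ n) :
    Irreducible (X ^ Z - C (g ^ n)) := by
  obtain ⟨m, hm⟩ := hn
  apply capelli (by omega)
  · intro p hp hpZ z hz
    rcases hp.eq_two_or_odd' with h2 | hodd
    · subst h2
      have h5 := congrArg e₂ hz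
      rw [map_pow, map_pow, e₂_g, hm] at h5
      have h6 := goldenConj_odd m
      nlinarith [sq_nonneg (e₂ z)]
    · exact g_pow_ne_pow hp hodd (h p hp hodd hpZ) z hz
  · intro h4 z hz
    have h5 := congrArg e₁ hz
    rw [map_mul, map_pow, map_neg, map_ofNat] at h5
    have h7 := e₁_pos n
    have h6 : 0 ≤ e₁ z ^ 4 := by positivity
    linarith

end Q217.SG.Golden
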