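import Pool.Agent.Q217.SG.Golden
import Pool.Agent.Q217.SG.ClosedGen

/-!
# The gap lemma for sums of powers of the golden ratio
-/

set_option autoImplicit false

namespace Q217.SG.Golden

open Finset Polynomial Q217.SF

/-- the golden unit -/
def gu : ZPˣ where
  val := γ
  inv := -γ'
  val_inv := by ext <;> simp [γ, γ', QuadraticAlgebra.re_one, QuadraticAlgebra.im_one]
  inv_val := by ext <;> simp [γ, γ', QuadraticAlgebra.re_one, QuadraticAlgebra.im_one]

/-- the powers of the golden ratio -/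
def G (e : ℤ) : ZP := ((gu ^ e : ZPˣ) : ZP)

theorem G_add (e f : ℤ) : G (e + f) = G e * G f := by
  simp [G, zpow_add]

theorem G_natCast (n : ℕ) : G n = γ ^ n := by
  simp only [G, zpow_natCast, Units.val_pow_eq_pow_val]
  rfl

theorem G_zero : G 0 = 1 := by simp [G]

/-- the first real embedding -/
noncomputable def s₁ : ZP →+* ℝ := e₁.comp incl

/-- the second real embedding -/
noncomputable def s₂ : ZP →+* ℝ := e₂.comp incl

theorem s₁_injective : Function.Injective s₁ := e₁.injective.comp incl_injective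

theorem s₂_injective : Function.Injective s₂ := e₂.injective.comp incl_injective

theorem s₁_apply (z : ZP) : s₁ z = z.re + z.im * Real.goldenRatio := by
  change (((z.re : ℤ) : ℚ) : ℝ) + (((z.im : ℤ) : ℚ) : ℝ) * _ = _
  push_cast
  rfl

theorem s₂_apply (z : ZP) : s₂ z = z.re + z.im * Real.goldenConj := by
  change (((z.re : ℤ) : ℚ) : ℝ) + (((z.im : ℤ) : ℚ) : ℝ) * _ = _
  push_cast
  rfl

theorem s₁_γ : s₁ γ = Real.goldenRatio := by simp [s₁_apply, γ]

theorem s₂_γ : s₂ γ = Real.goldenConj := by simp [s₂_apply, γ]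

theorem map_G (s : ZP →+* ℝ) (e : ℤ) : s (G e) = s γ ^ e := by
  have h : s (G e) = ((Units.map (s : ZP →* ℝ) gu ^ e : ℝˣ) : ℝ) := by
    rw [← map_zpow, Units.coe_map]
    rfl
  rw [h, Units.val_zpow_eq_zpow_val]
  rfl

theorem s₁_G (e : ℤ) : s₁ (G e) = Real.goldenRatio ^ e := by rw [map_G, s₁_γ]

theorem s₂_G (e : ℤ) : |s₂ (G e)| = Real.goldenRatio ^ (-e) := by
  rw [map_G, s₂_γ, abs_zpow, abs_of_neg Real.goldenConj_neg, ← Real.inv_goldenRatio, inv_zpow,
    zpow_neg]

theorem s₁_mul_s₂ (z : ZP) : s₁ z * s₂ z = ((z.norm : ℤ) : ℝ) := by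
  have h := e₁_mul_e₂ (incl z)
  change s₁ z * s₂ z = _ at h
  rw [h, QuadraticAlgebra.norm_def, QuadraticAlgebra.norm_def]
  change (((z.re : ℚ) * z.re + 1 * z.re * z.im - 1 * z.im * z.im : ℚ) : ℝ) = _
  push_cast
  rfl

theorem s₁_star (z : ZP) : s₁ (star z) = s₂ z := by
  rw [s₁_apply, s₂_apply]
  have h1 : (star z).re = z.re + z.im := by simp
  have h2 : (star z).im = -z.im := by simp
  rw [h1, h2]
  push_cast
  have := Real.goldenRatio_add_goldenConj
  linear_combination (-(z.im : ℝ)) * this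

theorem s₂_star (z : ZP) : s₂ (star z) = s₁ z := by
  rw [← s₁_star, star_star]

/-- the size -/
noncomputable def sz (z : ZP) : ℝ := max |s₁ z| |s₂ z|

theorem sz_nonneg (z : ZP) : 0 ≤ sz z := le_max_of_le_left (abs_nonneg _)

theorem sz_mul (z w : ZP) : sz (z * w) ≤ sz z * sz w := by
  simp only [sz, map_mul, abs_mul]
  apply max_le
  · exact mul_le_mul (le_max_left _ _) (le_max_left _ _) (abs_nonneg _)
      (le_max_of_le_left (abs_nonneg _))
  · exact mul_le_mul (le_max_right _ _) (le_max_right _ _) (abs_nonneg _)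
      (le_max_of_le_left (abs_nonneg _))

theorem sz_neg (z : ZP) : sz (-z) = sz z := by simp [sz]

theorem sz_star (z : ZP) : sz (star z) = sz z := by
  simp only [sz, s₁_star, s₂_star]
  exact max_comm _ _

theorem sz_le (z : ZP) : sz z ≤ |z.re| + 2 * |z.im| := by
  have h1 : |Real.goldenRatio| ≤ 2 := by
    rw [abs_of_pos Real.goldenRatio_pos]
    exact Real.goldenRatio_lt_two.le
  have h2 : |Real.goldenConj| ≤ 2 := by
    rw [abs_of_neg Real.goldenConj_neg]
    have := Real.neg_one_lt_goldenConj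
    linarith
  have key : ∀ w : ℝ, |w| ≤ 2 → |(z.re : ℝ) + z.im * w| ≤ |(z.re : ℝ)| + 2 * |(z.im : ℝ)| := by
    intro w hw
    calc |(z.re : ℝ) + z.im * w| ≤ |(z.re : ℝ)| + |(z.im : ℝ) * w| := abs_add_le _ _
      _ = |(z.re : ℝ)| + |(z.im : ℝ)| * |w| := by rw [abs_mul]
      _ ≤ |(z.re : ℝ)| + |(z.im : ℝ)| * 2 := by
          have := mul_le_mul_of_nonneg_left hw (abs_nonneg (z.im : ℝ))
          linarith
      _ = |(z.re : ℝ)| + 2 * |(z.im : ℝ)| := by ring
  simp only [sz, s₁_apply, s₂_apply]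
  push_cast
  exact max_le (key _ h1) (key _ h2)

/-- The low part of a vanishing sum with a gap vanishes. -/
theorem low_golden {J : Type*} [DecidableEq J] {c : J → ZP} {E : J → ℤ} {h : ℕ} {A : Finset J}
    (hA : (∑ i ∈ A, sz (c i)) ^ 2 < 4 * Real.goldenRatio ^ (h + 1))
    (h0 : ∑ i ∈ A, c i * G (E i) = 0) {t : ℤ} (ht : ∀ i ∈ A, E i < t → E i + h < t) :
    ∑ i ∈ A.filter (fun i => E i < t), c i * G (E i) = 0 := by
  have hφ := Real.one_lt_goldenRatio
  have hφ0 := Real.goldenRatio_pos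
  set z := ∑ i ∈ A.filter (fun i => E i < t), c i * G (E i) with hz
  have hsplit := Finset.sum_filter_add_sum_filter_not A (fun i => E i < t)
    (fun i => c i * G (E i))
  have hz' : z = -∑ i ∈ A.filter (fun i => ¬ E i < t), c i * G (E i) := by
    rw [h0] at hsplit
    exact eq_neg_of_add_eq_zero_left hsplit
  set SL := ∑ i ∈ A.filter (fun i => E i < t), sz (c i) with hSL
  set SH := ∑ i ∈ A.filter (fun i => ¬ E i < t), sz (c i) with hSH
  have hSL0 : 0 ≤ SL := Finset.sum_nonneg (fun i _ => sz_nonneg _)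
  have hSH0 : 0 ≤ SH := Finset.sum_nonneg (fun i _ => sz_nonneg _)
  have hS : SL + SH = ∑ i ∈ A, sz (c i) :=
    Finset.sum_filter_add_sum_filter_not A (fun i => E i < t) (fun i => sz (c i))
  have h1 : |s₁ z| ≤ SL * Real.goldenRatio ^ (t - h - 1) := by
    rw [hz, map_sum, hSL, Finset.sum_mul]
    refine (Finset.abs_sum_le_sum_abs _ _).trans (Finset.sum_le_sum ?_)
    intro i hi
    rw [Finset.mem_filter] at hi
    have h2 := ht i hi.1 hi.2
    rw [map_mul, abs_mul, s₁_G, abs_of_pos (zpow_pos hφ0 _)]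
    exact mul_le_mul (le_max_left _ _) (zpow_le_zpow_right₀ hφ.le (by omega))
      (zpow_pos hφ0 _).le (sz_nonneg _)
  have h2 : |s₂ z| ≤ SH * Real.goldenRatio ^ (-t) := by
    rw [hz', map_neg, abs_neg, map_sum, hSH, Finset.sum_mul]
    refine (Finset.abs_sum_le_sum_abs _ _).trans (Finset.sum_le_sum ?_)
    intro i hi
    rw [Finset.mem_filter] at hi
    rw [map_mul, abs_mul, s₂_G]
    exact mul_le_mul (le_max_right _ _) (zpow_le_zpow_right₀ hφ.le (by omega))
      (zpow_pos hφ0 _).le (sz_nonneg _)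
  have h3 : |s₁ z * s₂ z| < 1 := by
    rw [abs_mul]
    have e1 : Real.goldenRatio ^ (t - h - 1) * Real.goldenRatio ^ (-t) *
        Real.goldenRatio ^ (h + 1) = 1 := by
      rw [← zpow_natCast, ← zpow_add₀ hφ0.ne', ← zpow_add₀ hφ0.ne']
      have : t - (h : ℤ) - 1 + -t + ((h + 1 : ℕ) : ℤ) = 0 := by push_cast; ring
      rw [this, zpow_zero]
    have hq : 0 < Real.goldenRatio ^ (t - h - 1) * Real.goldenRatio ^ (-t) :=
      mul_pos (zpow_pos hφ0 _) (zpow_pos hφ0 _)
    have h4 : 4 * (SL * SH) < 4 * Real.goldenRatio ^ (h + 1) := by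
      refine lt_of_le_of_lt ?_ hA
      rw [← hS]
      nlinarith [sq_nonneg (SL - SH)]
    calc |s₁ z| * |s₂ z| ≤ (SL * Real.goldenRatio ^ (t - h - 1)) *
          (SH * Real.goldenRatio ^ (-t)) :=
          mul_le_mul h1 h2 (abs_nonneg _) (mul_nonneg hSL0 (zpow_pos hφ0 _).le)
      _ = (SL * SH) * (Real.goldenRatio ^ (t - h - 1) * Real.goldenRatio ^ (-t)) := by ring
      _ < Real.goldenRatio ^ (h + 1) *
          (Real.goldenRatio ^ (t - h - 1) * Real.goldenRatio ^ (-t)) :=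
          mul_lt_mul_of_pos_right (by linarith) hq
      _ = 1 := by rw [← e1]; ring
  rw [s₁_mul_s₂] at h3
  have h4 : |z.norm| < 1 := by exact_mod_cast h3
  have h5 : z.norm = 0 := Int.abs_lt_one_iff.1 h4
  have h6 : s₁ z * s₂ z = 0 := by rw [s₁_mul_s₂, h5]; simp
  rcases mul_eq_zero.1 h6 with h7 | h7
  · exact s₁_injective (by rw [h7, map_zero])
  · exact s₂_injective (by rw [h7, map_zero])

/-- **The gap lemma for powers of the golden ratio.** -/
theorem closed_golden {J : Type*} [Fintype J] [DecidableEq J] {c : J → ZP} {E : J → ℤ} {h : ℕ}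
    (hJ : (∑ i, sz (c i)) ^ 2 < 4 * Real.goldenRatio ^ (h + 1))
    (h0 : ∑ i, c i * G (E i) = 0) (S : Finset J)
    (hcl : ∀ i ∈ S, ∀ j, E i ≤ E j + h → E j ≤ E i + h → j ∈ S) :
    ∑ i ∈ S, c i * G (E i) = 0 := by
  refine closed_of_low (W := fun i => c i * G (E i)) (E := E) (h := h) (by omega) Finset.univ ?_
    Finset.univ subset_rfl h0 S (Finset.subset_univ _) (fun i hi j _ h1 h2 => hcl i hi j h1 h2)
  intro J' _ h0' t ht
  refine low_golden (lt_of_le_of_lt ?_ hJ) h0' ht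
  have h1 : ∑ i ∈ J', sz (c i) ≤ ∑ i, sz (c i) :=
    Finset.sum_le_sum_of_subset_of_nonneg (Finset.subset_univ _) (fun i _ _ => sz_nonneg _)
  have h2 : 0 ≤ ∑ i ∈ J', sz (c i) := Finset.sum_nonneg (fun i _ => sz_nonneg _)
  exact pow_le_pow_left₀ h2 h1 2

end Q217.SG.Golden
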