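import Pool.Agent.Q217.SG.GoldenGap

/-!
# Products of sparse golden integers
-/

set_option autoImplicit false

namespace Q217.SG.Golden

open Finset Polynomial Q217.SF

/-- the coefficients of the expanded identity -/
def coefP {k : Fin 2 → ℕ} {l : ℕ} (c : ∀ t, Fin (k t) → ZP) (d : Fin l → ZP) (v : ZP) :
    Idx k l → ZP
  | .inl φ => ∏ t, c t (φ t)
  | .inr (j, true) => -d j
  | .inr (j, false) => -(d j * v)

theorem sz_one : sz 1 = 1 := by simp [sz]

theorem sum_sz {k : Fin 2 → ℕ} {l : ℕ} (c : ∀ t, Fin (k t) → ZP) (d : Fin l → ZP) {v : ZP}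
    (hv : v = 1 ∨ v = -1) :
    ∑ i : Idx k l, sz (coefP c d v i) ≤ ∏ t, ∑ i, sz (c t i) + 2 * ∑ j, sz (d j) := by
  classical
  have hv1 : sz v = 1 := by
    rcases hv with h | h <;> rw [h]
    · exact sz_one
    · rw [sz_neg, sz_one]
  rw [Fintype.sum_sum_type, Fintype.sum_prod_type]
  apply add_le_add
  · rw [Finset.prod_univ_sum, Fintype.piFinset_univ]
    apply Finset.sum_le_sum
    intro φ _
    simp only [coefP]
    rw [Fin.prod_univ_two, Fin.prod_univ_two]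
    exact sz_mul _ _
  · rw [Finset.mul_sum]
    apply Finset.sum_le_sum
    intro j _
    rw [Fintype.sum_bool]
    simp only [coefP, sz_neg]
    have h1 := sz_mul (d j) v
    rw [hv1, mul_one] at h1
    linarith

theorem G_sum {ι : Type*} (s : Finset ι) (f : ι → ℤ) : G (∑ i ∈ s, f i) = ∏ i ∈ s, G (f i) := by
  classical
  induction s using Finset.induction_on with
  | empty => simp [G_zero]
  | insert a s ha ih => rw [Finset.sum_insert ha, Finset.prod_insert ha, G_add, ih]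

/-- The deformed identity. -/
theorem golden_data {n l : ℕ} (k : Fin 2 → ℕ) (c : ∀ t, Fin (k t) → ZP)
    (α : ∀ t, Fin (k t) → ℤ) (d : Fin l → ZP) (β : Fin l → ℤ) {v : ZP} (hv : v = 1 ∨ v = -1)
    (hprod : ∏ t, ∑ i, c t i * G (α t i) = (∑ j, d j * G (β j)) * (γ ^ (2 * n) + v))
    (H : ℕ) (hH : (∏ t, ∑ i, sz (c t i) + 2 * ∑ j, sz (d j)) ^ 2 < 4 * Real.goldenRatio ^ (H + 1))
    (hbig : (∑ t, k t + l + 1) * 2 ^ (∑ t, k t + l) * H < 2 * n) :
    ∃ (P : Fin 2 → ZP[X]) (Pq : ZP[X]) (s s' Y : ℕ), 1 ≤ Y ∧ Y ≤ 2 ^ (∑ t, k t + l) ∧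
      (∀ t, (P t).eval 1 = ∑ i, c t i * G (α t i)) ∧
      X ^ s' * ∏ t, P t = X ^ s * Pq * (C v * X ^ Y + C (γ ^ (2 * n))) := by
  classical
  let T : ∀ t, Fin (k t) → ZP := fun t i => c t i * G (α t i)
  let D : Fin l → ZP := fun j => d j * G (β j)
  have hterm : ∀ i : Idx k l, term T D (γ ^ (2 * n)) v i =
      coefP c d v i * G (expo α β ((2 * n : ℕ) : ℤ) i) := by
    intro i
    rcases i with φ | ⟨j, q⟩
    · simp only [term, coefP, expo, T]
      rw [Finset.prod_mul_distrib, G_sum]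
    · cases q
      · simp only [term, coefP, expo, D]
        ring
      · simp only [term, coefP, expo, D]
        rw [G_add, G_natCast]
        ring
  have hsqrt : Real.sqrt (2 * ((2 : ℕ) : ℝ)) = 2 := by
    rw [show (2 : ℝ) * ((2 : ℕ) : ℝ) = 2 ^ 2 by norm_num]
    exact Real.sqrt_sq (by norm_num)
  obtain ⟨P, Pq, s, s', Y, hY1, hY2, hP, -, hid⟩ := deformRev (r := 2) le_rfl T α D β
    (γ ^ (2 * n)) v ((2 * n : ℕ) : ℤ) H (by positivity)
    (by
      intro S hS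
      have htot := sum_term T D (γ ^ (2 * n)) v hprod
      rw [Finset.sum_congr rfl (fun i _ => hterm i)] at htot ⊢
      refine closed_golden (lt_of_le_of_lt ?_ hH) htot S hS
      exact pow_le_pow_left₀ (Finset.sum_nonneg (fun i _ => sz_nonneg _)) (sum_sz c d hv) 2)
    (by
      rw [hsqrt]
      exact_mod_cast hbig)
  refine ⟨P, Pq, s, s', Y, hY1, ?_, hP, hid⟩
  rw [hsqrt] at hY2
  exact_mod_cast hY2

/-- **The main theorem**, first case. -/
theorem golden_plus {n l : ℕ} (k : Fin 2 → ℕ) (c : ∀ t, Fin (k t) → ZP)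
    (α : ∀ t, Fin (k t) → ℤ) (d : Fin l → ZP) (β : Fin l → ℤ)
    (hprod : ∏ t, ∑ i, c t i * G (α t i) = (∑ j, d j * G (β j)) * (γ ^ (2 * n) + 1))
    (H : ℕ) (hH : (∏ t, ∑ i, sz (c t i) + 2 * ∑ j, sz (d j)) ^ 2 < 4 * Real.goldenRatio ^ (H + 1))
    (hbig : (∑ t, k t + l + 1) * 2 ^ (∑ t, k t + l) * H < 2 * n)
    (hn : ∀ p : ℕ, p.Prime → Odd p → p ≤ 2 ^ (∑ t, k t + l) → ¬ p ∣ n) :
    ∃ t, γ ^ (2 * n) + 1 ∣ ∑ i, c t i * G (α t i) := by
  obtain ⟨P, Pq, s, s', Y, hY1, hY2, hP, hid⟩ := golden_data k c α d β (Or.inl rfl) hprod H hH hbig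
  obtain ⟨t, ht⟩ := dvd_of_prime_map incl_injective (G := X ^ Y + C (γ ^ (2 * n)))
    (monic_X_pow_add_C _ (by omega))
    (by
      have := irr_plus (n := n) hY1
        (fun p hp ho hd => hn p hp ho ((Nat.le_of_dvd (by omega) hd).trans hY2))
      have e : incl (γ ^ (2 * n)) = g ^ (2 * n) := by rw [map_pow, incl_γ]
      rw [Polynomial.map_add, Polynomial.map_pow, map_X, map_C, e]
      rw [map_neg, sub_neg_eq_add] at this
      exact this)
    (by
      rw [coeff_add, coeff_X_pow, if_neg (by omega), coeff_C_zero, zero_add]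
      rw [← G_natCast]
      exact (Units.ne_zero _))
    (Q := C 1 * X ^ Y + C (γ ^ (2 * n))) (by rw [C_1, one_mul]) hid
  refine ⟨t, ?_⟩
  rw [hP t] at ht
  rw [add_comm]
  simpa using ht

/-- **The main theorem**, second case. -/
theorem golden_minus {n l : ℕ} (hodd : Odd n) (k : Fin 2 → ℕ) (c : ∀ t, Fin (k t) → ZP)
    (α : ∀ t, Fin (k t) → ℤ) (d : Fin l → ZP) (β : Fin l → ℤ)
    (hprod : ∏ t, ∑ i, c t i * G (α t i) = (∑ j, d j * G (β j)) * (γ ^ (2 * n) + -1))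
    (H : ℕ) (hH : (∏ t, ∑ i, sz (c t i) + 2 * ∑ j, sz (d j)) ^ 2 < 4 * Real.goldenRatio ^ (H + 1))
    (hbig : (∑ t, k t + l + 1) * 2 ^ (∑ t, k t + l) * H < 2 * n)
    (hn : ∀ p : ℕ, p.Prime → Odd p → p ≤ 2 ^ (∑ t, k t + l) → ¬ p ∣ n) :
    ∃ t, 1 - γ ^ n ∣ ∑ i, c t i * G (α t i) := by
  obtain ⟨P, Pq, s, s', Y, hY1, hY2, hP, hid⟩ := golden_data k c α d β (Or.inr rfl) hprod H hH hbig
  rcases Nat.even_or_odd' Y with ⟨Z, hZ | hZ⟩
  · obtain ⟨t, ht⟩ := dvd_of_prime_map incl_injective (G := X ^ Z - C (γ ^ n))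
      (monic_X_pow_sub_C _ (by omega))
      (by
        have := irr_minus_even (n := n) (Z := Z) (by omega) hodd
          (fun p hp ho hd => hn p hp ho ((Nat.le_of_dvd (by omega) hd).trans (by omega)))
        have e : incl (γ ^ n) = g ^ n := by rw [map_pow, incl_γ]
        rw [Polynomial.map_sub, Polynomial.map_pow, map_X, map_C, e]
        exact this)
      (by
        rw [coeff_sub, coeff_X_pow, if_neg (by omega), coeff_C_zero, zero_sub]
        rw [← G_natCast]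
        exact neg_ne_zero.2 (Units.ne_zero _))
      (Q := C (-1) * X ^ Y + C (γ ^ (2 * n)))
      ⟨-(X ^ Z + C (γ ^ n)), by
        rw [hZ, mul_comm 2 Z, pow_mul, mul_comm 2 n, pow_mul, C_pow, C_neg, C_1]
        ring⟩ hid
    refine ⟨t, ?_⟩
    rw [hP t] at ht
    simpa using ht
  · obtain ⟨t, ht⟩ := dvd_of_prime_map incl_injective (G := X ^ Y - C (γ ^ (2 * n)))
      (monic_X_pow_sub_C _ (by omega))
      (by
        have := irr_minus_odd (n := n) (Y := Y) ⟨Z, hZ⟩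
          (fun p hp ho hd => hn p hp ho ((Nat.le_of_dvd (by omega) hd).trans hY2))
        have e : incl (γ ^ (2 * n)) = g ^ (2 * n) := by rw [map_pow, incl_γ]
        rw [Polynomial.map_sub, Polynomial.map_pow, map_X, map_C, e]
        exact this)
      (by
        rw [coeff_sub, coeff_X_pow, if_neg (by omega), coeff_C_zero, zero_sub]
        rw [← G_natCast]
        exact neg_ne_zero.2 (Units.ne_zero _))
      (Q := C (-1) * X ^ Y + C (γ ^ (2 * n)))
      ⟨-1, by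
        rw [C_neg, C_1]
        ring⟩ hid
    refine ⟨t, ?_⟩
    rw [hP t] at ht
    have h1 : (1 - γ ^ n : ZP) ∣ 1 - γ ^ (2 * n) := by
      refine ⟨1 + γ ^ n, ?_⟩
      rw [mul_comm 2 n, pow_mul]
      ring
    have h2 : (1 - γ ^ (2 * n) : ZP) ∣ ∑ i, c t i * G (α t i) := by simpa using ht
    exact h1.trans h2

end Q217.SG.Golden
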