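import Pool.Agent.Q217.SF.Factor

/-!
# Irreducibility of `a ^ n X ^ Y - b ^ n`
-/

set_option autoImplicit false

namespace Q217.SG

open Finset Polynomial Q217.SF

/-- A pair of coprime integers without algebraic factorization. -/
structure Good (a b : ℤ) : Prop where
  one_lt : 1 < a
  coprime : IsCoprime a b
  ne_zero : b ≠ 0
  no_pow : ∀ p : ℕ, p.Prime → ¬ ∃ u v : ℤ, a = u ^ p ∧ b = v ^ p
  no_four : ¬ ∃ f : ℤ, -4 * a * b = f ^ 4

theorem Good.rat_pow {a b : ℤ} (h : Good a b) {p : ℕ} (hp : p.Prime) (y : ℚ) :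
    y ^ p ≠ (b : ℚ) / a := by
  intro hy
  have ha0 : 0 < a := by have := h.one_lt; omega
  have hcop : Nat.Coprime b.natAbs a.natAbs := by
    have := Int.isCoprime_iff_gcd_eq_one.1 h.coprime.symm
    exact this
  have h1 : ((b : ℚ) / a).num = b := Rat.num_div_eq_of_coprime ha0 hcop
  have h2 : (((b : ℚ) / a).den : ℤ) = a := Rat.den_div_eq_of_coprime ha0 hcop
  apply h.no_pow p hp
  refine ⟨(y.den : ℤ), y.num, ?_, ?_⟩
  · rw [← h2, ← hy, Rat.den_pow]; push_cast; rfl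
  · rw [← h1, ← hy, Rat.num_pow]

theorem rat_pow_of_coprime {y z : ℚ} {n p : ℕ} (hz : z ≠ 0) (hn : Nat.Coprime n p)
    (h : y ^ p = z ^ n) : ∃ w : ℚ, w ^ p = z := by
  have hb : (n : ℤ) * Nat.gcdA n p + (p : ℤ) * Nat.gcdB n p = 1 := by
    have := Nat.gcd_eq_gcd_ab n p
    rw [hn] at this
    simpa using this.symm
  refine ⟨y ^ (Nat.gcdA n p) * z ^ (Nat.gcdB n p), ?_⟩
  have e1 : (y ^ (Nat.gcdA n p)) ^ p = (y ^ p) ^ (Nat.gcdA n p) := by
    rw [← zpow_natCast (y ^ Nat.gcdA n p) p, ← zpow_mul, mul_comm, zpow_mul, zpow_natCast]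
  rw [mul_pow, e1, h, ← zpow_natCast z n, ← zpow_natCast (z ^ Nat.gcdB n p) p, ← zpow_mul,
    ← zpow_mul, ← zpow_add₀ hz]
  rw [show (n : ℤ) * Nat.gcdA n p + Nat.gcdB n p * p = 1 by rw [← hb]; ring]
  exact zpow_one z

/-- a rational number whose fourth power is an integer -/
theorem int_of_pow_four {f : ℚ} {m : ℤ} (h : f ^ 4 = m) : ∃ g : ℤ, m = g ^ 4 := by
  have h1 : (f ^ 4).den = 1 := by rw [h]; simp
  rw [Rat.den_pow] at h1
  have h2 : f.den = 1 := by
    by_contra hne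
    have : 1 < f.den := by
      have := f.pos
      omega
    have := Nat.one_lt_pow (by norm_num : 4 ≠ 0) this
    omega
  refine ⟨f.num, ?_⟩
  have h3 : (f.num : ℚ) = f := by
    conv_rhs => rw [← Rat.num_div_den f, h2]
    simp
  have : ((m : ℤ) : ℚ) = ((f.num ^ 4 : ℤ) : ℚ) := by
    push_cast
    rw [h3, h]
  exact_mod_cast this

theorem Good.four {a b : ℤ} (h : Good a b) (y : ℚ) : -4 * y ^ 4 ≠ (b : ℚ) / a := by
  intro hy
  have ha0 : 0 < a := by have := h.one_lt; omega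
  have haQ : (a : ℚ) ≠ 0 := by exact_mod_cast ha0.ne'
  have hb : (b : ℚ) = -4 * y ^ 4 * a := by
    rw [hy]; field_simp
  -- `- a b` is a square
  have h1 : ((-(a * b) : ℤ) : ℚ) = (2 * y ^ 2 * a) ^ 2 := by
    push_cast; rw [hb]; ring
  have h2 : ∃ s : ℤ, -(a * b) = s ^ 2 := by
    have h3 : ((2 * y ^ 2 * a) ^ 2 : ℚ).den = 1 := by rw [← h1]; exact Rat.den_intCast _
    rw [Rat.den_pow] at h3
    have h4 : (2 * y ^ 2 * a : ℚ).den = 1 := by
      by_contra hne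
      have : 1 < (2 * y ^ 2 * a : ℚ).den := by
        have := (2 * y ^ 2 * a : ℚ).pos
        omega
      have := Nat.one_lt_pow (by norm_num : 2 ≠ 0) this
      omega
    refine ⟨(2 * y ^ 2 * a : ℚ).num, ?_⟩
    have h5 : (((2 * y ^ 2 * a : ℚ).num : ℤ) : ℚ) = 2 * y ^ 2 * a := by
      conv_rhs => rw [← Rat.num_div_den (2 * y ^ 2 * a : ℚ), h4]
      simp
    have : ((-(a * b) : ℤ) : ℚ) = (((2 * y ^ 2 * a : ℚ).num ^ 2 : ℤ) : ℚ) := by
      rw [h1, Int.cast_pow, h5]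
    exact_mod_cast this
  obtain ⟨s, hs⟩ := h2
  have h3 : a * (-b) = s ^ 2 := by rw [← hs]; ring
  obtain ⟨A, hA⟩ := Int.sq_of_isCoprime (h.coprime.neg_right) h3
  have hA2 : a = A ^ 2 := by
    rcases hA with hA | hA
    · exact hA
    · nlinarith [sq_nonneg A]
  have h4 : (2 * y * A) ^ 4 = ((-4 * a * b : ℤ) : ℚ) := by
    push_cast
    rw [hb]
    have : (a : ℚ) = (A : ℚ) ^ 2 := by exact_mod_cast hA2
    rw [this]; ring
  obtain ⟨g, hg⟩ := int_of_pow_four h4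
  exact h.no_four ⟨g, hg⟩

theorem Good.irreducible {a b : ℤ} (h : Good a b) {n Y : ℕ} (hY : 1 ≤ Y)
    (hn : Nat.Coprime n Y) : Irreducible (X ^ Y - C (((b : ℚ) / a) ^ n)) := by
  have ha0 : 0 < a := by have := h.one_lt; omega
  have haQ : (a : ℚ) ≠ 0 := by exact_mod_cast ha0.ne'
  have hbQ : (b : ℚ) ≠ 0 := by exact_mod_cast h.ne_zero
  have hz : (b : ℚ) / a ≠ 0 := div_ne_zero hbQ haQ
  apply capelli (by omega)
  · intro p hp hpY y hy
    obtain ⟨w, hw⟩ := rat_pow_of_coprime hz (hn.coprime_dvd_right hpY) hy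
    exact h.rat_pow hp w hw
  · intro h4 y hy
    have hodd : Odd n := by
      rw [← Nat.coprime_two_right]
      exact hn.coprime_dvd_right ((by norm_num : 2 ∣ 4).trans h4)
    obtain ⟨m, hm⟩ := hodd
    rcases Nat.even_or_odd m with ⟨j, hj⟩ | ⟨j, hj⟩
    · -- `n = 4 j + 1`
      apply h.four (y / ((b : ℚ) / a) ^ j)
      have : ((b : ℚ) / a) ^ n = (((b : ℚ) / a) ^ j) ^ 4 * ((b : ℚ) / a) := by
        rw [hm, hj]; ring
      rw [this] at hy
      rw [div_pow]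
      have h0 : (((b : ℚ) / a) ^ j) ^ 4 ≠ 0 := pow_ne_zero _ (pow_ne_zero _ hz)
      rw [mul_div_assoc', hy, mul_comm, mul_div_assoc, div_self h0, mul_one]
    · -- `n = 4 j + 3`
      have hy0 : y ≠ 0 := by
        rintro rfl
        rw [zero_pow (by norm_num), mul_zero] at hy
        exact (pow_ne_zero n hz) hy.symm
      apply h.four (((b : ℚ) / a) ^ (j + 1) / (2 * y))
      have e1 : ((b : ℚ) / a) ^ n * ((b : ℚ) / a) = (((b : ℚ) / a) ^ (j + 1)) ^ 4 := by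
        rw [hm, hj]; ring
      rw [← hy] at e1
      rw [div_pow, ← e1]
      field_simp
      ring

/-- **Irreducibility over the integers.** -/
theorem Good.prime {a b : ℤ} (h : Good a b) {n Y : ℕ} (hY : 1 ≤ Y) (hn : Nat.Coprime n Y) :
    Prime (C (a ^ n) * X ^ Y + C (-b ^ n) : ℤ[X]) := by
  have ha0 : 0 < a := by have := h.one_lt; omega
  have haQ : (a : ℚ) ≠ 0 := by exact_mod_cast ha0.ne'
  rw [← UniqueFactorizationMonoid.irreducible_iff_prime]
  have hprim : (C (a ^ n) * X ^ Y + C (-b ^ n) : ℤ[X]).IsPrimitive := by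
    intro c hc
    rw [C_dvd_iff_dvd_coeff] at hc
    have h1 := hc 0
    rw [coeff_add, coeff_C_mul_X_pow, if_neg (by omega), coeff_C_zero, zero_add] at h1
    have h2 := hc Y
    rw [coeff_add, coeff_C_mul_X_pow, if_pos rfl, coeff_C_of_ne_zero (by omega), add_zero] at h2
    exact (h.coprime.pow (m := n) (n := n)).isUnit_of_dvd' h2 ((dvd_neg).1 h1)
  rw [IsPrimitive.Int.irreducible_iff_irreducible_map_cast hprim]
  have e : (C (a ^ n) * X ^ Y + C (-b ^ n) : ℤ[X]).map (Int.castRingHom ℚ) =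
      C ((a : ℚ) ^ n) * (X ^ Y - C (((b : ℚ) / a) ^ n)) := by
    simp only [Polynomial.map_add, Polynomial.map_mul, Polynomial.map_pow, map_X, map_C]
    rw [mul_sub, ← C_mul, div_pow, mul_div_cancel₀ _ (pow_ne_zero _ haQ)]
    simp
    ring
  have hu : IsUnit (C ((a : ℚ) ^ n)) := isUnit_C.2 (IsUnit.mk0 _ (pow_ne_zero _ haQ))
  rw [e, irreducible_isUnit_mul hu]
  exact h.irreducible hY hn

end Q217.SG
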