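import Pool.Agent.Q217.SG.Unit

/-!
# Sparse multiples of repunits
-/

set_option autoImplicit false

namespace Q217.SG

open Finset

/-- Powers of `b` modulo `b ^ n - 1`. -/
theorem pow_modEq {b : ℤ} {n : ℕ} (α ρ : ℕ) (hρ : ρ ≤ n) :
    b ^ n - 1 ∣ b ^ ((α + (n - ρ)) % n) * b ^ ρ - b ^ α := by
  have h1 : b ^ n - 1 ∣ b ^ (n * ((α + (n - ρ)) / n)) - 1 := by
    rw [pow_mul]
    have := sub_dvd_pow_sub_pow (b ^ n) 1 ((α + (n - ρ)) / n)
    rwa [one_pow] at this
  have h2 : b ^ α * b ^ n = b ^ ((α + (n - ρ)) % n) * b ^ (n * ((α + (n - ρ)) / n)) * b ^ ρ := by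
    rw [← pow_add, ← pow_add, ← pow_add]
    congr 1
    have := Nat.mod_add_div (α + (n - ρ)) n
    omega
  have h3 : b ^ ((α + (n - ρ)) % n) * b ^ ρ - b ^ α =
      (b ^ n - 1) * b ^ α - (b ^ (n * ((α + (n - ρ)) / n)) - 1) *
        (b ^ ((α + (n - ρ)) % n) * b ^ ρ) := by
    linear_combination (-1 : ℤ) * h2
  rw [h3]
  exact dvd_sub (dvd_mul_right _ _) (h1.mul_right _)

/-- If `b ^ n - 1` divides `b - 1` times a sparse integer, then it divides the integer. -/
theorem sparse_multiple {b : ℤ} (hb : 2 ≤ b) {n k h : ℕ} (c : Fin k → ℤ) (α : Fin k → ℕ)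
    (hc : (b - 1) * ∑ i, |c i| < b ^ (h + 1)) (hn : k * (h + 1) < n)
    (hd : b ^ n - 1 ∣ (b - 1) * ∑ i, c i * b ^ α i) :
    b ^ n - 1 ∣ ∑ i, c i * b ^ α i := by
  classical
  rcases Nat.eq_zero_or_pos k with rfl | hk
  · simp
  have : NeZero k := ⟨by omega⟩
  have hhn : h + 1 < n := by
    have : 1 * (h + 1) ≤ k * (h + 1) := Nat.mul_le_mul_right _ hk
    omega
  -- a free window of residues
  obtain ⟨ρ, hρn, hρ⟩ : ∃ ρ : ℕ, ρ < n ∧ ∀ i, (α i + (n - ρ)) % n + h + 1 < n := by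
    by_contra hcon
    push Not at hcon
    choose! i hi using hcon
    let f : Fin n → Fin k × Fin (h + 1) := fun ρ =>
      ⟨i ρ, ⟨n - 1 - (α (i ρ) + (n - ρ)) % n, by
        have h1 := hi ρ ρ.2
        have h2 := Nat.mod_lt (α (i ρ) + (n - ρ)) (by omega : 0 < n)
        omega⟩⟩
    have hf : Function.Injective f := by
      intro ρ σ hρσ
      simp only [f, Prod.mk.injEq, Fin.mk.injEq] at hρσ
      obtain ⟨h1, h2⟩ := hρσ
      rw [h1] at h2
      have hρ2 := ρ.2
      have hσ2 := σ.2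
      have h3 := Nat.mod_lt (α (i σ) + (n - ρ)) (by omega : 0 < n)
      have h4 := Nat.mod_lt (α (i σ) + (n - σ)) (by omega : 0 < n)
      have h5 : (α (i σ) + (n - ρ)) % n = (α (i σ) + (n - σ)) % n := by omega
      have h6 : (n - (ρ : ℕ)) ≡ (n - (σ : ℕ)) [MOD n] := Nat.ModEq.add_left_cancel' _ h5
      have h7 : ((n - ρ : ℕ) : ℤ) ≡ ((n - σ : ℕ) : ℤ) [ZMOD n] := (Int.natCast_modEq_iff).2 h6
      have h8 : (n : ℤ) ∣ ((n - σ : ℕ) : ℤ) - ((n - ρ : ℕ) : ℤ) := h7.dvd
      have h9 : ((n - σ : ℕ) : ℤ) - ((n - ρ : ℕ) : ℤ) = (ρ : ℤ) - σ := by omega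
      rw [h9] at h8
      have h10 : |(ρ : ℤ) - σ| < n := by rw [abs_lt]; constructor <;> omega
      have h11 := Int.eq_zero_of_abs_lt_dvd h8 h10
      apply Fin.ext
      omega
    have := Fintype.card_le_of_injective f hf
    rw [Fintype.card_prod, Fintype.card_fin, Fintype.card_fin, Fintype.card_fin] at this
    omega
  let a : Fin k → ℕ := fun i => (α i + (n - ρ)) % n
  have hcong : b ^ n - 1 ∣ (∑ i, c i * b ^ a i) * b ^ ρ - ∑ i, c i * b ^ α i := by
    rw [Finset.sum_mul, ← Finset.sum_sub_distrib]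
    apply Finset.dvd_sum
    intro i _
    have := (pow_modEq (b := b) (n := n) (α i) ρ hρn.le).mul_left (c i)
    have e : c i * (b ^ ((α i + (n - ρ)) % n) * b ^ ρ - b ^ α i) =
        c i * b ^ a i * b ^ ρ - c i * b ^ α i := by simp only [a]; ring
    rwa [e] at this
  have hcopb : IsCoprime (b ^ n - 1) b := by
    obtain ⟨j, rfl⟩ : ∃ j, n = j + 1 := ⟨n - 1, by omega⟩
    refine ⟨-1, b ^ j, ?_⟩
    ring
  have hzero : (b - 1) * ∑ i, c i * b ^ a i = 0 := by
    have h1 : b ^ n - 1 ∣ (b - 1) * (∑ i, c i * b ^ a i) * b ^ ρ := by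
      have h2 := hcong.mul_left (b - 1)
      have h3 := dvd_add h2 hd
      have e : (b - 1) * ((∑ i, c i * b ^ a i) * b ^ ρ - ∑ i, c i * b ^ α i) +
          (b - 1) * ∑ i, c i * b ^ α i = (b - 1) * (∑ i, c i * b ^ a i) * b ^ ρ := by ring
      rwa [e] at h3
    have h2 : b ^ n - 1 ∣ (b - 1) * ∑ i, c i * b ^ a i :=
      (hcopb.pow_right (n := ρ)).dvd_of_dvd_mul_right h1
    apply Int.eq_zero_of_abs_lt_dvd h2
    rw [abs_mul, abs_of_nonneg (by linarith : (0 : ℤ) ≤ b - 1)]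
    have hb0 : (0 : ℤ) < b := by linarith
    calc (b - 1) * |∑ i, c i * b ^ a i| ≤ (b - 1) * ∑ i, |c i| * b ^ (n - h - 2) := by
          apply mul_le_mul_of_nonneg_left _ (by linarith)
          refine (Finset.abs_sum_le_sum_abs _ _).trans ?_
          apply Finset.sum_le_sum
          intro i _
          rw [abs_mul, abs_of_nonneg (by positivity : (0 : ℤ) ≤ b ^ a i)]
          apply mul_le_mul_of_nonneg_left _ (abs_nonneg _)
          apply pow_le_pow_right₀ (by linarith)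
          have := hρ i
          simp only [a]
          omega
      _ = ((b - 1) * ∑ i, |c i|) * b ^ (n - h - 2) := by rw [← Finset.sum_mul]; ring
      _ < b ^ (h + 1) * b ^ (n - h - 2) := mul_lt_mul_of_pos_right hc (by positivity)
      _ = b ^ (n - 1) := by
          rw [← pow_add]
          congr 1
          omega
      _ ≤ b ^ n - 1 := by
          obtain ⟨j, rfl⟩ : ∃ j, n = j + 1 := ⟨n - 1, by omega⟩
          rw [Nat.add_sub_cancel, pow_succ]
          have : 1 ≤ b ^ j := one_le_pow₀ (by linarith)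
          nlinarith
  have hz : ∑ i, c i * b ^ a i = 0 := by
    rcases mul_eq_zero.1 hzero with h1 | h1
    · linarith
    · exact h1
  rw [hz, zero_mul, zero_sub, dvd_neg] at hcong
  exact hcong

end Q217.SG
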