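import Pool.Agent.Q217.SG.ClosedGen
import Pool.Agent.Q217.SG.DeformGen
import Pool.Agent.Q217.SG.IrredPair

/-!
# Euclid's lemma for sparse forms in `a` and `b` and the numbers `(a ^ n - b ^ n) / (a - b)`
-/

set_option autoImplicit false

namespace Q217.SG

open Finset Polynomial Q217.SF

variable {r : ℕ} {k : Fin r → ℕ} {l : ℕ}

/-- the coefficients of the expanded identity -/
def coef (c : ∀ t, Fin (k t) → ℤ) (d : Fin l → ℤ) : Idx k l → ℤ
  | .inl φ => ∏ t, c t (φ t)
  | .inr (j, true) => -d j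
  | .inr (j, false) => d j

theorem sum_coef (c : ∀ t, Fin (k t) → ℤ) (d : Fin l → ℤ) :
    ∑ i : Idx k l, |coef c d i| = ∏ t, ∑ i, |c t i| + 2 * ∑ j, |d j| := by
  classical
  rw [Fintype.sum_sum_type, Fintype.sum_prod_type]
  have e1 : ∑ φ : (∀ t, Fin (k t)), |coef c d (.inl φ)| = ∏ t, ∑ i, |c t i| := by
    rw [Finset.prod_univ_sum, Fintype.piFinset_univ]
    apply Finset.sum_congr rfl
    intro φ _
    simp only [coef]
    rw [Finset.abs_prod]
  have e2 : ∑ j, ∑ q : Bool, |coef c d (.inr (j, q))| = 2 * ∑ j, |d j| := by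
    rw [Finset.mul_sum]
    apply Finset.sum_congr rfl
    intro j _
    rw [Fintype.sum_bool]
    simp only [coef, abs_neg]
    ring
  rw [e1, e2]

/-- the value of a form -/
def form {k : ℕ} (a b : ℤ) (m : ℕ) (c : Fin k → ℤ) (α : Fin k → ℕ) : ℤ :=
  ∑ i, c i * (a ^ α i * b ^ (m - α i))

theorem euclid_aux {a b : ℤ} (h : Good a b) (hba : |b| ≤ a) {n : ℕ} (hr : 2 ≤ r)
    (c : ∀ t, Fin (k t) → ℤ) (α : ∀ t, Fin (k t) → ℕ) (m : Fin r → ℕ) (d : Fin l → ℤ)
    (β : Fin l → ℕ) (mq : ℕ) (hα : ∀ t i, α t i ≤ m t) (hβ : ∀ j, β j ≤ mq)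
    (hdeg : ∑ t, m t = mq + n)
    (hcop : ∀ Y : ℕ, 1 ≤ Y → (Y : ℝ) ≤ Real.sqrt (2 * r) ^ (∑ t, k t + l) → Nat.Coprime n Y)
    (hprod : ∏ t, form a b (m t) (c t) (α t) = form a b mq d β * (a ^ n - b ^ n)) (H : ℕ)
    (hh : ∏ t, ∑ i, |c t i| + 2 * ∑ j, |d j| < a ^ (H + 1))
    (hbig : ((∑ t, k t + l + 1 : ℕ) : ℝ) * Real.sqrt (2 * r) ^ (∑ t, k t + l) * H < n) :
    ∃ t, a ^ n - b ^ n ∣ form a b (m t) (c t) (α t) := by
  classical
  let T : ∀ t, Fin (k t) → ℤ := fun t i => c t i * (a ^ α t i * b ^ (m t - α t i))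
  let D : Fin l → ℤ := fun j => d j * (a ^ β j * b ^ (mq - β j))
  let α' : ∀ t, Fin (k t) → ℤ := fun t i => α t i
  let β' : Fin l → ℤ := fun j => β j
  have hterm : ∀ i : Idx k l, term T D (a ^ n) (-b ^ n) i = coef c d i *
      (a ^ (expo α' β' n i).toNat * b ^ (((∑ t, m t : ℕ) : ℤ) - expo α' β' n i).toNat) := by
    intro i
    rcases i with φ | ⟨j, q⟩
    · simp only [term, coef, expo, T, α']
      have e1 : (∑ t, (α t (φ t) : ℤ)).toNat = ∑ t, α t (φ t) := by
        have : ∑ t, (α t (φ t) : ℤ) = ((∑ t, α t (φ t) : ℕ) : ℤ) := by push_cast; rfl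
        rw [this, Int.toNat_natCast]
      have e2 : (((∑ t, m t : ℕ) : ℤ) - ∑ t, (α t (φ t) : ℤ)).toNat =
          ∑ t, (m t - α t (φ t)) := by
        have : ((∑ t, m t : ℕ) : ℤ) - ∑ t, (α t (φ t) : ℤ) =
            ((∑ t, (m t - α t (φ t)) : ℕ) : ℤ) := by
          push_cast
          rw [← Finset.sum_sub_distrib]
          apply Finset.sum_congr rfl
          intro t _
          rw [Nat.cast_sub (hα t _)]
        rw [this, Int.toNat_natCast]
      rw [e1, e2, Finset.prod_mul_distrib, Finset.prod_mul_distrib, Finset.prod_pow_eq_pow_sum,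
        Finset.prod_pow_eq_pow_sum]
    · have hb := hβ j
      cases q
      · simp only [term, coef, expo, D, β']
        have e1 : ((β j : ℕ) : ℤ).toNat = β j := Int.toNat_natCast _
        have e2 : (((∑ t, m t : ℕ) : ℤ) - (β j : ℤ)).toNat = (mq - β j) + n := by
          rw [hdeg]; omega
        rw [e1, e2, pow_add]
        ring
      · simp only [term, coef, expo, D, β']
        have e1 : ((n : ℤ) + (β j : ℤ)).toNat = n + β j := by omega
        have e2 : (((∑ t, m t : ℕ) : ℤ) - ((n : ℤ) + (β j : ℤ))).toNat = mq - β j := by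
          rw [hdeg]; omega
        rw [e1, e2, pow_add]
        ring
  have hEb : ∀ i : Idx k l, 0 ≤ expo α' β' n i ∧ expo α' β' n i ≤ ((∑ t, m t : ℕ) : ℤ) := by
    intro i
    rcases i with φ | ⟨j, q⟩
    · simp only [expo, α']
      constructor
      · positivity
      · push_cast
        apply Finset.sum_le_sum
        intro t _
        exact_mod_cast hα t _
    · have hb := hβ j
      cases q <;> simp only [expo, β'] <;> rw [hdeg] <;> omega
  obtain ⟨P, Pq, s, s', Y, hY1, hY2, hP, -, hid⟩ := deformGen hr T α' D β' (a ^ n) (-b ^ n) n H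
    (by positivity)
    (by
      intro S hS
      have htot := sum_term T D (a ^ n) (-b ^ n) (by
        rw [← sub_eq_add_neg]
        exact hprod)
      rw [Finset.sum_congr rfl (fun i _ => hterm i)] at htot ⊢
      refine closed_pair h.one_lt h.coprime hba (c := coef c d) (E := expo α' β' n)
        (m := ((∑ t, m t : ℕ) : ℤ)) (h := H) Finset.univ (fun i _ => hEb i) ?_ htot S
        (Finset.subset_univ _) (fun i hi j _ h1 h2 => hS i hi j h1 h2)
      rw [sum_coef]
      exact hh)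
    (by exact_mod_cast hbig)
  have hpr := h.prime hY1 (hcop Y hY1 hY2)
  obtain ⟨t, ht⟩ := dvd_of_prime hpr (by
    rw [coeff_add, coeff_C_mul_X_pow, if_neg (by omega), coeff_C_zero, zero_add]
    exact neg_ne_zero.2 (pow_ne_zero _ h.ne_zero)) hid
  refine ⟨t, ?_⟩
  rw [hP t] at ht
  have e2 : (C (a ^ n) * X ^ Y + C (-b ^ n) : ℤ[X]).eval 1 = a ^ n - b ^ n := by
    simp
    ring
  rw [e2] at ht
  exact ht

end Q217.SG
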