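import Pool.Agent.Q217.SG.PairEuclid

/-!
# Euclid's lemma for the numbers `(a ^ n - b ^ n) / (a - b)`, main form
-/

set_option autoImplicit false

namespace Q217.SG

open Finset Polynomial Q217.SF

variable {r : ℕ} {k : Fin r → ℕ} {l : ℕ}

theorem form_smul {k : ℕ} (a b x : ℤ) (m : ℕ) (c : Fin k → ℤ) (α : Fin k → ℕ) :
    form a b m (fun i => x * c i) α = x * form a b m c α := by
  simp only [form]
  rw [Finset.mul_sum]
  apply Finset.sum_congr rfl
  intro i _; ring

theorem form_succ {k : ℕ} (a b : ℤ) (m : ℕ) (c : Fin k → ℤ) (α : Fin k → ℕ) (hα : ∀ i, α i ≤ m) :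
    form a b (m + 1) c α = b * form a b m c α := by
  simp only [form]
  rw [Finset.mul_sum]
  apply Finset.sum_congr rfl
  intro i _
  have : m + 1 - α i = (m - α i) + 1 := by have := hα i; omega
  rw [this, pow_succ]
  ring

theorem coprime_quot {a b N : ℤ} {n : ℕ} (hab : IsCoprime a b) (hn : n ≠ 0)
    (hN : (a - b) * N = a ^ n - b ^ n) : IsCoprime N b := by
  have h1 : IsCoprime (a ^ n - b ^ n) b := by
    obtain ⟨j, rfl⟩ := Nat.exists_eq_succ_of_ne_zero hn
    have h2 : IsCoprime (a ^ (j + 1)) b := hab.pow_left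
    have h3 : a ^ (j + 1) - b ^ (j + 1) = a ^ (j + 1) + b * (-b ^ j) := by ring
    rw [Nat.succ_eq_add_one, h3]
    exact h2.add_mul_left_left (-b ^ j)
  rw [← hN] at h1
  exact h1.of_mul_left_right

theorem sqrt_pow_ge_one {r : ℕ} (hr : 2 ≤ r) (K : ℕ) : (1 : ℝ) ≤ Real.sqrt (2 * r) ^ K := by
  apply one_le_pow₀
  rw [Real.one_le_sqrt]
  have : (2 : ℝ) ≤ r := by exact_mod_cast hr
  linarith

/-- **Euclid's lemma for sparse forms.** -/
theorem euclid_pair {a b : ℤ} (h : Good a b) (hba : |b| ≤ a) {n : ℕ} (hr : 2 ≤ r)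
    (c : ∀ t, Fin (k t) → ℤ) (α : ∀ t, Fin (k t) → ℕ) (m : Fin r → ℕ) (d : Fin l → ℤ)
    (β : Fin l → ℕ) (mq : ℕ) (hα : ∀ t i, α t i ≤ m t) (hβ : ∀ j, β j ≤ mq)
    (hdeg : ∑ t, m t + 1 = mq + n)
    (hcop : ∀ p : ℕ, p.Prime → p ∣ n → Real.sqrt (2 * r) ^ (∑ t, k t + l) < p)
    {N : ℤ} (hN : (a - b) * N = a ^ n - b ^ n)
    (hprod : ∏ t, form a b (m t) (c t) (α t) = form a b mq d β * N)
    (hbig : ((∑ t, k t + l + 1 : ℕ) : ℝ) * Real.sqrt (2 * r) ^ (∑ t, k t + l) *
      Nat.log a.natAbs ((a - b).natAbs * ∏ t, ∑ i, (c t i).natAbs +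
        2 * b.natAbs * ∑ j, (d j).natAbs) < n) :
    ∃ t, N ∣ form a b (m t) (c t) (α t) := by
  classical
  have ha1 := h.one_lt
  have hn0 : n ≠ 0 := by
    rintro rfl
    have h1 : (0 : ℝ) ≤ ((∑ t, k t + l + 1 : ℕ) : ℝ) * Real.sqrt (2 * r) ^ (∑ t, k t + l) *
      Nat.log a.natAbs ((a - b).natAbs * ∏ t, ∑ i, (c t i).natAbs +
        2 * b.natAbs * ∑ j, (d j).natAbs) := by positivity
    simp only [Nat.cast_zero] at hbig
    linarith
  have hcopN := coprime_quot h.coprime hn0 hN
  let t0 : Fin r := ⟨0, by omega⟩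
  let c' : ∀ t, Fin (k t) → ℤ := fun t i => (if t = t0 then (a - b) else 1) * c t i
  let m' : Fin r → ℕ := fun t => if t = t0 then m t + 1 else m t
  let d' : Fin l → ℤ := fun j => b * d j
  have hform : ∀ t, form a b (m' t) (c' t) (α t) =
      (if t = t0 then (a - b) * b else 1) * form a b (m t) (c t) (α t) := by
    intro t
    by_cases ht : t = t0
    · simp only [m', c', if_pos ht]
      rw [form_smul, form_succ _ _ _ _ _ (hα t)]
      ring
    · simp only [m', c', if_neg ht]
      rw [form_smul, one_mul]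
  have hprodite : ∀ x : ℤ, ∏ t : Fin r, (if t = t0 then x else 1) = x := by
    intro x
    rw [Finset.prod_ite_eq' Finset.univ t0 (fun _ => x)]
    simp
  have hprodite' : ∀ x : ℕ, ∏ t : Fin r, (if t = t0 then x else 1) = x := by
    intro x
    rw [Finset.prod_ite_eq' Finset.univ t0 (fun _ => x)]
    simp
  obtain ⟨t, ht⟩ := euclid_aux h hba (n := n) hr c' α m' d' β mq
    (by
      intro t i
      by_cases ht : t = t0
      · simp only [m', if_pos ht]; have := hα t i; omega
      · simp only [m', if_neg ht]; exact hα t i)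
    hβ
    (by
      have : ∑ t, m' t = ∑ t, m t + 1 := by
        have e : ∀ t, m' t = m t + (if t = t0 then 1 else 0) := by
          intro t
          by_cases ht : t = t0
          · simp only [m', if_pos ht]
          · simp only [m', if_neg ht, add_zero]
        rw [Finset.sum_congr rfl (fun t _ => e t), Finset.sum_add_distrib,
          Finset.sum_ite_eq' Finset.univ t0 (fun _ => 1)]
        simp
      rw [this, hdeg])
    (by
      intro Y hY1 hY2
      apply Nat.Coprime.symm
      apply Nat.coprime_of_dvd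
      intro p hp hpY hpn
      have h1 := hcop p hp hpn
      have h2 : (p : ℝ) ≤ Y := by exact_mod_cast Nat.le_of_dvd (by omega) hpY
      linarith)
    (by
      rw [Finset.prod_congr rfl (fun t _ => hform t), Finset.prod_mul_distrib, hprodite, hprod]
      simp only [d']
      rw [form_smul, ← hN]
      ring)
    (Nat.log a.natAbs ((a - b).natAbs * ∏ t, ∑ i, (c t i).natAbs +
        2 * b.natAbs * ∑ j, (d j).natAbs))
    (by
      have h1 := Nat.lt_pow_succ_log_self (b := a.natAbs) (by omega)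
        ((a - b).natAbs * ∏ t, ∑ i, (c t i).natAbs + 2 * b.natAbs * ∑ j, (d j).natAbs)
      have h2 : ∏ t, ∑ i, |c' t i| + 2 * ∑ j, |d' j| =
          (((a - b).natAbs * ∏ t, ∑ i, (c t i).natAbs +
            2 * b.natAbs * ∑ j, (d j).natAbs : ℕ) : ℤ) := by
        have e1 : ∀ t, ∑ i, |c' t i| = (if t = t0 then |a - b| else 1) * ∑ i, |c t i| := by
          intro t
          rw [Finset.mul_sum]
          apply Finset.sum_congr rfl
          intro i _
          simp only [c']
          rw [abs_mul]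
          congr 1
          split_ifs
          · rfl
          · simp
        rw [Finset.prod_congr rfl (fun t _ => e1 t), Finset.prod_mul_distrib, hprodite]
        simp only [d', abs_mul]
        rw [← Finset.mul_sum]
        push_cast
        ring
      rw [h2]
      have h3 : ((a.natAbs : ℕ) : ℤ) = a := by omega
      have h4 := Int.ofNat_lt.2 h1
      rw [Nat.cast_pow, h3] at h4
      exact h4)
    hbig
  refine ⟨t, ?_⟩
  rw [hform t] at ht
  have h1 : N ∣ a ^ n - b ^ n := ⟨a - b, by rw [← hN]; ring⟩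
  by_cases htt : t = t0
  · rw [if_pos htt, ← hN] at ht
    have hab0 : a - b ≠ 0 := by
      intro h0
      have h2 : a = b := by omega
      have h3 := h.coprime
      rw [← h2, isCoprime_self, Int.isUnit_iff] at h3
      omega
    rw [mul_assoc] at ht
    have h2 := (mul_dvd_mul_iff_left hab0).1 ht
    exact hcopN.dvd_of_dvd_mul_left h2
  · rw [if_neg htt, one_mul] at ht
    exact h1.trans ht

end Q217.SG
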