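import Pool.Agent.Q217.SG.PairMain

/-!
# Euclid's lemma for two sparse forms
-/

set_option autoImplicit false

namespace Q217.SG

open Finset

theorem euclid_two {a b : ℤ} (h : Good a b) (hba : |b| ≤ a) {n k₁ k₂ l : ℕ}
    (c₁ : Fin k₁ → ℤ) (α₁ : Fin k₁ → ℕ) (m₁ : ℕ) (c₂ : Fin k₂ → ℤ) (α₂ : Fin k₂ → ℕ) (m₂ : ℕ)
    (d : Fin l → ℤ) (β : Fin l → ℕ) (mq : ℕ) (hα₁ : ∀ i, α₁ i ≤ m₁) (hα₂ : ∀ i, α₂ i ≤ m₂)
    (hβ : ∀ j, β j ≤ mq) (hdeg : m₁ + m₂ + 1 = mq + n)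
    (hcop : ∀ p : ℕ, p.Prime → p ∣ n → 2 ^ (k₁ + k₂ + l) < p)
    {N : ℤ} (hN : (a - b) * N = a ^ n - b ^ n)
    (hprod : form a b m₁ c₁ α₁ * form a b m₂ c₂ α₂ = form a b mq d β * N)
    (hbig : (k₁ + k₂ + l + 1) * 2 ^ (k₁ + k₂ + l) *
      Nat.log a.natAbs ((a - b).natAbs * ((∑ i, (c₁ i).natAbs) * ∑ i, (c₂ i).natAbs) +
        2 * b.natAbs * ∑ j, (d j).natAbs) < n) :
    N ∣ form a b m₁ c₁ α₁ ∨ N ∣ form a b m₂ c₂ α₂ := by
  let k : Fin 2 → ℕ := fun t => match t with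
    | 0 => k₁
    | 1 => k₂
  let c : ∀ t, Fin (k t) → ℤ := fun t => match t with
    | 0 => c₁
    | 1 => c₂
  let α : ∀ t, Fin (k t) → ℕ := fun t => match t with
    | 0 => α₁
    | 1 => α₂
  let m : Fin 2 → ℕ := fun t => match t with
    | 0 => m₁
    | 1 => m₂
  have hsum : ∑ t, k t = k₁ + k₂ := by rw [Fin.sum_univ_two]
  have hsqrt : Real.sqrt (2 * ((2 : ℕ) : ℝ)) = 2 := by
    rw [show (2 : ℝ) * ((2 : ℕ) : ℝ) = 2 ^ 2 by norm_num]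
    exact Real.sqrt_sq (by norm_num)
  obtain ⟨t, ht⟩ := euclid_pair h hba (n := n) (r := 2) le_rfl c α m d β mq
    (by
      intro t i
      match t, i with
      | 0, i => exact hα₁ i
      | 1, i => exact hα₂ i)
    hβ (by rw [Fin.sum_univ_two]; exact hdeg)
    (by
      intro p hp hpn
      rw [hsum, hsqrt]
      exact_mod_cast hcop p hp hpn)
    hN
    (by rw [Fin.prod_univ_two]; exact hprod)
    (by
      rw [hsum, hsqrt, Fin.prod_univ_two]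
      exact_mod_cast hbig)
  match t, ht with
  | 0, ht => exact Or.inl ht
  | 1, ht => exact Or.inr ht

end Q217.SG
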