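import Pool.Agent.Q217.SG.DeformExp
import Pool.Agent.Q217.SG.ClosedGen
import Pool.Agent.Q217.SF.Capelli

/-!
# Sparse factors of the numbers `c b ^ (2 n) + d b ^ n + c`
-/

set_option autoImplicit false

namespace Q217.SG.Palin

open Finset Polynomial Q217.SF

/-- the field generated by the roots of `T ^ 2 + d T + c ^ 2` -/
abbrev K (c d : ℤ) : Type := QuadraticAlgebra ℚ (-((c : ℚ) * c)) (-(d : ℚ))

/-- `T ^ 2 + d T + c ^ 2` has no rational root -/
abbrev NoRoot (c d : ℤ) : Prop := ∀ r : ℚ, r ^ 2 ≠ -((c : ℚ) * c) + -(d : ℚ) * r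

/-- the number whose roots are considered -/
def kap (b c d : ℤ) (n : ℕ) : K c d :=
  ⟨-((d : ℚ) * (b : ℚ) ^ n / c), -((b : ℚ) ^ n / c)⟩

variable {b c d : ℤ}

theorem re_sum {ι : Type*} (s : Finset ι) (f : ι → K c d) :
    (∑ i ∈ s, f i).re = ∑ i ∈ s, (f i).re :=
  map_sum (QuadraticAlgebra.reₗ (R := ℚ) (a := -((c : ℚ) * c)) (b := -(d : ℚ))) f s

theorem im_sum {ι : Type*} (s : Finset ι) (f : ι → K c d) :
    (∑ i ∈ s, f i).im = ∑ i ∈ s, (f i).im :=
  map_sum (QuadraticAlgebra.imₗ (R := ℚ) (a := -((c : ℚ) * c)) (b := -(d : ℚ))) f s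

/-- The gap lemma for sums of terms `(f + g ω) b ^ E`. -/
theorem closed_K {J : Type*} [Fintype J] [DecidableEq J] (hb : 1 < b) {f g : J → ℤ} {E : J → ℤ}
    {h : ℕ} (hE : ∀ i, 0 ≤ E i) (hf : ∑ i, |f i| < b ^ (h + 1)) (hg : ∑ i, |g i| < b ^ (h + 1))
    (h0 : ∑ i, (⟨(f i * b ^ (E i).toNat : ℤ), (g i * b ^ (E i).toNat : ℤ)⟩ : K c d) = 0)
    (S : Finset J) (hcl : ∀ i ∈ S, ∀ j, E i ≤ E j + h → E j ≤ E i + h → j ∈ S) :
    ∑ i ∈ S, (⟨(f i * b ^ (E i).toNat : ℤ), (g i * b ^ (E i).toNat : ℤ)⟩ : K c d) = 0 := by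
  have hm : ∀ i, E i ≤ ∑ j, E j := fun i =>
    Finset.single_le_sum (f := E) (fun j _ => hE j) (Finset.mem_univ i)
  have hint : ∀ f : J → ℤ, ∑ i, |f i| < b ^ (h + 1) → ∑ i, f i * b ^ (E i).toNat = 0 →
      ∑ i ∈ S, f i * b ^ (E i).toNat = 0 := by
    intro f hf hf0
    have := closed_pair (a := b) (b := 1) hb isCoprime_one_right (by rw [abs_one]; omega)
      (c := f) (E := E) (m := ∑ j, E j) (h := h) Finset.univ (fun i _ => ⟨hE i, hm i⟩)
      hf (by simpa using hf0) S (Finset.subset_univ _) (fun i hi j _ h1 h2 => hcl i hi j h1 h2)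
    simpa using this
  have hre := congrArg QuadraticAlgebra.re h0
  have him := congrArg QuadraticAlgebra.im h0
  rw [re_sum] at hre
  rw [im_sum] at him
  simp only [QuadraticAlgebra.re_zero, QuadraticAlgebra.im_zero] at hre him
  ext
  · rw [re_sum]
    simp only [QuadraticAlgebra.re_zero]
    have := hint f hf (by exact_mod_cast hre)
    exact_mod_cast this
  · rw [im_sum]
    simp only [QuadraticAlgebra.im_zero]
    have := hint g hg (by exact_mod_cast him)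
    exact_mod_cast this

/-! ### The coefficients of the expanded identity -/

/-- first components -/
def ff {k : Fin 2 → ℕ} {l : ℕ} (x : ∀ t, Fin (k t) → ℤ) (q : Fin l → ℤ) (c d : ℤ) :
    Idx k (l + l) → ℤ
  | .inl φ => ∏ t, x t (φ t)
  | .inr (j, true) => Fin.addCases (fun j => -(c * c * q j)) (fun j => -(c * d * q j)) j
  | .inr (j, false) => Fin.addCases (fun _ => 0) (fun j => -(c * c * q j)) j

/-- second components -/
def gg {k : Fin 2 → ℕ} {l : ℕ} (q : Fin l → ℤ) (c : ℤ) : Idx k (l + l) → ℤ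
  | .inl _ => 0
  | .inr (j, true) => Fin.addCases (fun _ => 0) (fun j => -(c * q j)) j
  | .inr (j, false) => Fin.addCases (fun j => c * q j) (fun _ => 0) j

theorem sum_ff {k : Fin 2 → ℕ} {l : ℕ} (hc : 0 < c) (hd : 0 ≤ d) (x : ∀ t, Fin (k t) → ℤ)
    (q : Fin l → ℤ) : ∑ i, |ff x q c d i| = ∏ t, ∑ i, |x t i| + c * (2 * c + d) * ∑ j, |q j| := by
  classical
  rw [Fintype.sum_sum_type, Fintype.sum_prod_type]
  congr 1
  · rw [Finset.prod_univ_sum, Fintype.piFinset_univ]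
    apply Finset.sum_congr rfl
    intro φ _
    simp only [ff]
    rw [Finset.abs_prod]
  · simp only [Fintype.sum_bool]
    rw [Fin.sum_univ_add]
    simp only [ff, Fin.addCases_left, Fin.addCases_right, abs_neg, abs_mul, abs_of_pos hc,
      abs_of_nonneg hd, abs_zero, add_zero]
    rw [← Finset.sum_add_distrib, Finset.mul_sum]
    apply Finset.sum_congr rfl
    intro j _
    ring

theorem sum_gg {k : Fin 2 → ℕ} {l : ℕ} (hc : 0 < c) (q : Fin l → ℤ) :
    ∑ i, |gg (k := k) q c i| = 2 * c * ∑ j, |q j| := by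
  classical
  rw [Fintype.sum_sum_type, Fintype.sum_prod_type]
  have h1 : ∑ φ : (∀ t, Fin (k t)), |gg (k := k) q c (.inl φ)| = 0 := by simp [gg]
  rw [h1, zero_add]
  simp only [Fintype.sum_bool]
  rw [Fin.sum_univ_add]
  simp only [gg, Fin.addCases_left, Fin.addCases_right, abs_neg, abs_mul, abs_of_pos hc,
    abs_zero, zero_add, add_zero]
  rw [← Finset.sum_add_distrib, Finset.mul_sum]
  apply Finset.sum_congr rfl
  intro j _
  ring

/-- the cofactor -/
def DD {l : ℕ} (q : Fin l → ℤ) (β : Fin l → ℕ) (b c d : ℤ) (n : ℕ) : Fin (l + l) → K c d :=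
  Fin.addCases (fun j => ⟨(c * q j * b ^ (n + β j) : ℤ), 0⟩)
    (fun j => ⟨(d * q j * b ^ β j : ℤ), (q j * b ^ β j : ℤ)⟩)

/-- its exponents -/
def ee {l : ℕ} (β : Fin l → ℕ) (n : ℕ) : Fin (l + l) → ℤ :=
  Fin.addCases (fun j => ((n + β j : ℕ) : ℤ)) (fun j => (β j : ℤ))

theorem sum_DD {l : ℕ} (q : Fin l → ℤ) (β : Fin l → ℕ) (n : ℕ) :
    ∑ j, DD q β b c d n j = (⟨((∑ j, q j * b ^ β j : ℤ) : ℚ) * ((c : ℚ) * b ^ n + d),
      ((∑ j, q j * b ^ β j : ℤ) : ℚ)⟩ : K c d) := by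
  rw [Fin.sum_univ_add]
  simp only [DD, Fin.addCases_left, Fin.addCases_right]
  ext
  · rw [QuadraticAlgebra.re_add, re_sum, re_sum, ← Finset.sum_add_distrib]
    push_cast
    rw [Finset.sum_mul]
    apply Finset.sum_congr rfl
    intro j _
    rw [pow_add]
    ring
  · rw [QuadraticAlgebra.im_add, im_sum, im_sum]
    push_cast
    simp

/-! ### The integral polynomial -/

/-- the polynomial `c X ^ (2 Y) + d b ^ n X ^ Y + c b ^ (2 n)` -/
noncomputable def F (b c d : ℤ) (n Y : ℕ) : ℤ[X] :=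
  C c * X ^ (2 * Y) + C (d * b ^ n) * X ^ Y + C (c * b ^ (2 * n))

theorem F_eval (n Y : ℕ) : (F b c d n Y).eval 1 = c * b ^ (2 * n) + d * b ^ n + c := by
  simp [F]
  ring

theorem F_primitive (hcd : IsCoprime c d) (hcb : IsCoprime c b) (n : ℕ) {Y : ℕ} (hY : 1 ≤ Y) :
    (F b c d n Y).IsPrimitive := by
  intro r hr
  rw [C_dvd_iff_dvd_coeff] at hr
  have h1 := hr (2 * Y)
  have h2 := hr Y
  simp only [F, coeff_add, coeff_C_mul, coeff_X_pow, coeff_C] at h1 h2
  rw [if_neg (by omega : ¬ 2 * Y = Y), if_neg (by omega : ¬ 2 * Y = 0)] at h1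
  rw [if_neg (by omega : ¬ Y = 2 * Y), if_neg (by omega : ¬ Y = 0)] at h2
  have h3 : IsCoprime c (d * b ^ n) := hcd.mul_right hcb.pow_right
  exact h3.isUnit_of_dvd' (by simpa using h1) (by simpa using h2)

theorem kap_mul_star (hc : c ≠ 0) (n : ℕ) :
    kap b c d n * star (kap b c d n) = (⟨(b : ℚ) ^ (2 * n), 0⟩ : K c d) := by
  have hc' : (c : ℚ) ≠ 0 := by exact_mod_cast hc
  ext
  · simp [kap]
    field_simp
    ring
  · simp [kap]
    field_simp
    ring

theorem kap_add_star (hc : c ≠ 0) (n : ℕ) :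
    kap b c d n + star (kap b c d n) = (⟨-((d : ℚ) * (b : ℚ) ^ n / c), 0⟩ : K c d) := by
  have hc' : (c : ℚ) ≠ 0 := by exact_mod_cast hc
  ext
  · simp [kap]
    field_simp
    ring
  · simp [kap]

/-- the embedding of the rational numbers -/
def ι : ℚ →+* K c d := algebraMap ℚ (K c d)

theorem ι_apply (r : ℚ) : ι r = (⟨r, 0⟩ : K c d) := rfl

theorem F_map (hc : c ≠ 0) (n Y : ℕ) :
    ((F b c d n Y).map (Int.castRingHom ℚ)).map (ι : ℚ →+* K c d) =
      C (ι (c : ℚ)) * ((X ^ Y - C (kap b c d n)) * (X ^ Y - C (star (kap b c d n)))) := by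
  have hc' : (c : ℚ) ≠ 0 := by exact_mod_cast hc
  have e1 : (X ^ Y - C (kap b c d n)) * (X ^ Y - C (star (kap b c d n))) =
      X ^ (2 * Y) - C (kap b c d n + star (kap b c d n)) * X ^ Y +
        C (kap b c d n * star (kap b c d n)) := by
    rw [C_add, C_mul, two_mul, pow_add]
    ring
  rw [e1, kap_mul_star hc, kap_add_star hc, ← ι_apply, ← ι_apply]
  simp only [F, Polynomial.map_add, Polynomial.map_mul, Polynomial.map_pow, map_X, map_C]
  rw [mul_add, mul_sub, ← mul_assoc (C (ι (c : ℚ))) (C (ι (-((d : ℚ) * (b : ℚ) ^ n / c)))),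
    ← C_mul, ← C_mul, ← map_mul, ← map_mul]
  have e2 : (c : ℚ) * -((d : ℚ) * (b : ℚ) ^ n / c) = -((d : ℚ) * (b : ℚ) ^ n) := by
    field_simp
  rw [e2]
  simp only [map_neg, Int.cast_mul, Int.cast_pow, eq_intCast]
  ring

end Q217.SG.Palin
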