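import Pool.Agent.Q217.SG.PalinMain

/-!
# Irreducibility of the binomials for the numbers `c b ^ (2 n) + d b ^ n + c`
-/

set_option autoImplicit false

namespace Q217.SG.Palin

open Finset Polynomial Q217.SF

variable {b c d : ℤ}

/-- the trace -/
def tr (z : K c d) : ℚ := 2 * z.re - d * z.im

theorem norm_eq (z : K c d) :
    QuadraticAlgebra.norm z = z.re ^ 2 - d * z.re * z.im + c ^ 2 * z.im ^ 2 := by
  rw [QuadraticAlgebra.norm_def]
  ring

theorem tr_sq (z : K c d) : tr (z ^ 2) = tr z ^ 2 - 2 * QuadraticAlgebra.norm z := by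
  rw [norm_eq, sq z]
  simp only [tr, QuadraticAlgebra.re_mul, QuadraticAlgebra.im_mul]
  ring

theorem disc (z : K c d) :
    tr z ^ 2 - 4 * QuadraticAlgebra.norm z = ((d : ℚ) ^ 2 - 4 * c ^ 2) * z.im ^ 2 := by
  rw [norm_eq, tr]
  ring

theorem tr_rec (y : K c d) (k : ℕ) :
    tr (y ^ (k + 2)) = tr y * tr (y ^ (k + 1)) - QuadraticAlgebra.norm y * tr (y ^ k) := by
  have h1 : y ^ (k + 2) = y ^ k * (y * y) := by ring
  have h2 : y ^ (k + 1) = y ^ k * y := pow_succ y k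
  rw [h1, h2, norm_eq]
  generalize y ^ k = w
  simp only [tr, QuadraticAlgebra.re_mul, QuadraticAlgebra.im_mul]
  ring

theorem tr_one : tr (1 : K c d) = 2 := by
  simp [tr, QuadraticAlgebra.re_one, QuadraticAlgebra.im_one]

theorem tr_neg (z : K c d) : tr (-z) = -tr z := by
  simp [tr]
  ring

theorem kap_norm (hc : c ≠ 0) (n : ℕ) :
    QuadraticAlgebra.norm (kap b c d n) = ((b : ℚ) ^ n) ^ 2 := by
  have hc' : (c : ℚ) ≠ 0 := by exact_mod_cast hc
  rw [norm_eq, kap]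
  field_simp
  ring

theorem kap_tr (hc : c ≠ 0) (n : ℕ) : tr (kap b c d n) = -((d : ℚ) * b ^ n / c) := by
  have hc' : (c : ℚ) ≠ 0 := by exact_mod_cast hc
  rw [tr, kap]
  field_simp
  ring

theorem kap_add (m n : ℕ) : kap b c d (m + n) = ι ((b : ℚ) ^ m) * kap b c d n := by
  have h : ι ((b : ℚ) ^ m) = (⟨(b : ℚ) ^ m, 0⟩ : K c d) := rfl
  rw [h]
  ext
  · rw [QuadraticAlgebra.re_mul]
    simp only [kap, pow_add]
    ring
  · rw [QuadraticAlgebra.im_mul]
    simp only [kap, pow_add]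
    ring

/-! ### The prime `2` -/

theorem not_sq (hb : 1 < b) (hc : 0 < c) (hd : 0 ≤ d) {n : ℕ}
    (h : ∀ t : ℚ, c * t ^ 2 ≠ b ^ n * (2 * c - d)) (z : K c d) : z ^ 2 ≠ kap b c d n := by
  intro hz
  have hcQ : (0 : ℚ) < c := by exact_mod_cast hc
  have hdQ : (0 : ℚ) ≤ d := by exact_mod_cast hd
  have hbQ : (0 : ℚ) < (b : ℚ) ^ n := pow_pos (by exact_mod_cast (by omega : 0 < b)) n
  have h1 : (QuadraticAlgebra.norm z) ^ 2 = ((b : ℚ) ^ n) ^ 2 := by
    rw [← map_pow, hz, kap_norm hc.ne']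
  have h2 := tr_sq z
  rw [hz, kap_tr hc.ne'] at h2
  have h3 : (c : ℚ) * tr z ^ 2 = -(d * b ^ n) + 2 * c * QuadraticAlgebra.norm z := by
    have : tr z ^ 2 = -((d : ℚ) * b ^ n / c) + 2 * QuadraticAlgebra.norm z := by linarith
    rw [this]
    field_simp
  rcases sq_eq_sq_iff_eq_or_eq_neg.1 h1 with h4 | h4
  · apply h (tr z)
    rw [h3, h4]
    ring
  · rw [h4] at h3
    have h5 : 0 ≤ (c : ℚ) * tr z ^ 2 := by positivity
    have h6 : 0 ≤ (d : ℚ) * b ^ n := mul_nonneg hdQ hbQ.le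
    have h7 : 0 < (c : ℚ) * b ^ n := mul_pos hcQ hbQ
    linarith

theorem not_four (hc : 0 < c) {n : ℕ}
    (h : ∀ r t : ℚ, 4 * r ^ 2 = b ^ n → c * (t ^ 2 - 2 * r) ^ 2 ≠ (2 * c + d) * r ^ 2)
    (hb : 0 < b) (z : K c d) : -4 * z ^ 4 ≠ kap b c d n := by
  intro hz
  have hcQ : (0 : ℚ) < c := by exact_mod_cast hc
  have hbQ : (0 : ℚ) < (b : ℚ) ^ n := pow_pos (by exact_mod_cast hb) n
  have h4 : QuadraticAlgebra.norm (2 : K c d) = 4 := by
    have := QuadraticAlgebra.norm_natCast (a := -((c : ℚ) * c)) (b := -(d : ℚ)) 2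
    rw [Nat.cast_ofNat] at this
    rw [this]
    norm_num
  -- `(2 z ^ 2) ^ 2 = - κ`
  have h1 : (2 * z ^ 2) ^ 2 = -kap b c d n := by rw [← hz]; ring
  have h2 : (QuadraticAlgebra.norm (2 * z ^ 2)) ^ 2 = ((b : ℚ) ^ n) ^ 2 := by
    rw [← map_pow, h1, QuadraticAlgebra.norm_neg, kap_norm hc.ne']
  have h3 : QuadraticAlgebra.norm (2 * z ^ 2) = 4 * (QuadraticAlgebra.norm z) ^ 2 := by
    rw [map_mul, h4, map_pow]
  have h5 : 4 * (QuadraticAlgebra.norm z) ^ 2 = (b : ℚ) ^ n := by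
    rw [h3] at h2
    have h6 : 0 ≤ 4 * (QuadraticAlgebra.norm z) ^ 2 := by positivity
    rcases sq_eq_sq_iff_eq_or_eq_neg.1 h2 with h7 | h7
    · exact h7
    · linarith
  have h6 := tr_sq (2 * z ^ 2)
  rw [h1, tr_neg, kap_tr hc.ne', h3, h5] at h6
  have h7 : tr (2 * z ^ 2) = 2 * (tr z ^ 2 - 2 * QuadraticAlgebra.norm z) := by
    rw [← tr_sq]
    have e : (2 : K c d) * z ^ 2 = z ^ 2 + z ^ 2 := by ring
    rw [e, tr, tr, QuadraticAlgebra.re_add, QuadraticAlgebra.im_add]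
    ring
  rw [h7] at h6
  apply h (QuadraticAlgebra.norm z) (tr z) h5
  have h8 : (c : ℚ) * (4 * (tr z ^ 2 - 2 * QuadraticAlgebra.norm z) ^ 2) =
      d * b ^ n + 2 * c * b ^ n := by
    have e : 4 * (tr z ^ 2 - 2 * QuadraticAlgebra.norm z) ^ 2 =
        (d : ℚ) * b ^ n / c + 2 * b ^ n := by linarith
    rw [e]
    field_simp
  rw [← h5] at h8
  linarith

/-! ### Odd primes -/

/-- the sequence of the traces of the powers -/
structure Seq (t : ℚ) (e : ℕ → ℚ) : Prop where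
  zero : e 0 = 2
  one : e 1 = t
  step : ∀ k, e (k + 2) = t * e (k + 1) - e k

theorem Seq.norm_eq {t : ℚ} {e : ℕ → ℚ} (h : Seq t e) {l : ℕ} [Fact l.Prime]
    (ht : 1 < padicNorm l t) (k : ℕ) : padicNorm l (e k) ≤ padicNorm l t ^ k ∧
      padicNorm l (e (k + 1)) = padicNorm l t ^ (k + 1) := by
  induction k with
  | zero =>
    rw [h.zero, h.one]
    refine ⟨?_, by rw [zero_add, pow_one]⟩
    have := padicNorm.of_int (p := l) (2 : ℤ)
    rw [pow_zero]
    exact_mod_cast this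
  | succ k ih =>
    refine ⟨ih.2.le, ?_⟩
    have e1 : e (k + 1 + 1) = t * e (k + 1) + -e k := by
      rw [h.step k]; ring
    have h0 : 0 < padicNorm l t := by linarith
    have h1 : padicNorm l (t * e (k + 1)) = padicNorm l t ^ (k + 1 + 1) := by
      rw [padicNorm.mul, ih.2]; ring
    have h2 : padicNorm l (-e k) < padicNorm l (t * e (k + 1)) := by
      rw [padicNorm.neg, h1]
      refine lt_of_le_of_lt ih.1 ?_
      exact pow_lt_pow_right₀ ht (by omega)
    rw [e1, padicNorm.add_eq_max_of_ne h2.ne', max_eq_left h2.le, h1]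

theorem one_lt_padicNorm {l : ℕ} [hl : Fact l.Prime] {t : ℚ} (h : 1 < padicNorm l t) :
    (l : ℚ) ≤ padicNorm l t := by
  have h0 : t ≠ 0 := by
    rintro rfl
    rw [padicNorm.zero] at h
    linarith
  obtain ⟨z, hz⟩ := padicNorm.values_discrete h0
  have hl1 : (1 : ℚ) < l := by exact_mod_cast hl.out.one_lt
  rw [hz] at h ⊢
  have h1 : 0 < -z := by
    by_contra hcon
    push Not at hcon
    have := zpow_le_one_of_nonpos₀ hl1.le hcon
    linarith
  calc (l : ℚ) = (l : ℚ) ^ (1 : ℤ) := by rw [zpow_one]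
    _ ≤ (l : ℚ) ^ (-z) := zpow_le_zpow_right₀ hl1.le (by omega)

theorem exists_norm {t : ℚ} (h : t.den ≠ 1) : ∃ l : ℕ, ∃ _ : Fact l.Prime, 1 < padicNorm l t := by
  obtain ⟨l, hl, hd⟩ := Nat.exists_prime_and_dvd h
  refine ⟨l, ⟨hl⟩, ?_⟩
  have : Fact l.Prime := ⟨hl⟩
  have hden : (t.den : ℚ) ≠ 0 := by exact_mod_cast t.den_nz
  have h1 : t = (t.num : ℚ) / (t.den : ℚ) := (Rat.num_div_den t).symm
  have h2 : padicNorm l (t.num : ℚ) = 1 := by
    rw [padicNorm.int_eq_one_iff]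
    intro hcon
    have h3 : l ∣ t.num.natAbs := Int.natCast_dvd.1 hcon
    have h4 := Nat.dvd_gcd h3 hd
    rw [t.reduced] at h4
    exact hl.one_lt.ne' (Nat.dvd_one.1 h4)
  have h3 : padicNorm l (t.den : ℚ) < 1 := by
    have := (padicNorm.int_lt_one_iff (p := l) (t.den : ℤ)).2 (by exact_mod_cast hd)
    exact_mod_cast this
  have h4 : 0 < padicNorm l (t.den : ℚ) :=
    lt_of_le_of_ne (padicNorm.nonneg _) (Ne.symm (padicNorm.nonzero hden))
  rw [h1, padicNorm.div, h2]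
  exact (one_lt_div h4).2 h3

theorem Seq.isInt {t : ℚ} {e : ℕ → ℚ} (h : Seq t e) {p : ℕ} (hp : 3 ≤ p) (hc : 0 < c)
    (h3 : ∀ l : ℕ, l.Prime → ¬ (l : ℤ) ^ 3 ∣ c) (he : e p = -((d : ℚ) / c)) : t.den = 1 := by
  by_contra hcon
  obtain ⟨l, hl, ht⟩ := exists_norm hcon
  obtain ⟨q, rfl⟩ := Nat.exists_eq_add_of_le' (show 1 ≤ p by omega)
  have h1 := (h.norm_eq ht q).2
  rw [he, padicNorm.neg, padicNorm.div] at h1
  have hc0 : (0 : ℚ) < padicNorm l (c : ℚ) :=
    lt_of_le_of_ne (padicNorm.nonneg _) (Ne.symm (padicNorm.nonzero (by exact_mod_cast hc.ne')))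
  have hd1 : padicNorm l (d : ℚ) ≤ 1 := padicNorm.of_int d
  have h2 := one_lt_padicNorm ht
  have hl1 : (1 : ℚ) < l := by exact_mod_cast hl.out.one_lt
  have h4 : (l : ℚ) ^ 3 ≤ padicNorm l t ^ (q + 1) :=
    calc (l : ℚ) ^ 3 ≤ (l : ℚ) ^ (q + 1) := pow_le_pow_right₀ hl1.le (by omega)
      _ ≤ padicNorm l t ^ (q + 1) := pow_le_pow_left₀ (by linarith) h2 _
  rw [← h1, le_div_iff₀ hc0] at h4
  have h5 : padicNorm l (c : ℚ) ≤ (l : ℚ) ^ (-(3 : ℕ) : ℤ) := by
    rw [zpow_neg, zpow_natCast]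
    have h6 : (0 : ℚ) < (l : ℚ) ^ 3 := by positivity
    rw [← one_div, le_div_iff₀ h6]
    linarith
  exact h3 l hl.out (by exact_mod_cast (padicNorm.dvd_iff_norm_le).2 h5)

/-- the integral sequence -/
def es (a : ℤ) : ℕ → ℤ
  | 0 => 2
  | 1 => a
  | k + 2 => a * es a (k + 1) - es a k

theorem Seq.eq_es {a : ℤ} {e : ℕ → ℚ} (h : Seq (a : ℚ) e) (k : ℕ) : e k = es a k := by
  induction k using Nat.twoStepInduction with
  | zero => rw [h.zero]; simp [es]
  | one => rw [h.one]; simp [es]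
  | more k h1 h2 => rw [h.step, h1, h2, es]; push_cast; ring

theorem es_large {a : ℤ} (ha : 3 ≤ |a|) (k : ℕ) :
    18 ≤ |es a (k + 3)| ∧ |es a (k + 2)| ≤ |es a (k + 3)| := by
  have hstep : ∀ m, |es a m| ≤ |es a (m + 1)| → 3 * |es a (m + 1)| - |es a m| ≤ |es a (m + 2)| := by
    intro m hm
    have h1 : es a (m + 2) = a * es a (m + 1) - es a m := rfl
    rw [h1]
    have h2 := abs_sub_abs_le_abs_sub (a * es a (m + 1)) (es a m)
    rw [abs_mul] at h2
    have h3 : 3 * |es a (m + 1)| ≤ |a| * |es a (m + 1)| :=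
      mul_le_mul_of_nonneg_right ha (abs_nonneg _)
    linarith
  have e0 : |es a 0| = 2 := rfl
  have e1 : |es a 1| = |a| := rfl
  have h0 := hstep 0 (by rw [e0, zero_add, e1]; linarith)
  rw [zero_add, e0, e1, zero_add] at h0
  have h1 := hstep 1 (by rw [e1]; linarith)
  rw [e1] at h1
  induction k with
  | zero =>
    norm_num at h0 h1 ⊢
    constructor <;> linarith
  | succ k ih =>
    have h2 := hstep (k + 2) ih.2
    have e3 : k + 2 + 1 = k + 3 := rfl
    have e4 : k + 2 + 2 = k + 1 + 3 := rfl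
    have e5 : k + 1 + 2 = k + 3 := rfl
    rw [e3, e4] at h2
    rw [e5]
    constructor <;> linarith [ih.1, ih.2]

/-- The number for the exponent `0` is not a `p`-th power, `p ≥ 3`. -/
theorem not_pow_zero (hc : 0 < c) (hcd : IsCoprime c d)
    (h3 : ∀ l : ℕ, l.Prime → ¬ (l : ℤ) ^ 3 ∣ c) (h1 : c = 1 → 3 ≤ d ∧ d ≤ 17) {p : ℕ}
    (hp : 3 ≤ p) (hodd : Odd p) (y : K c d) : y ^ p ≠ kap b c d 0 := by
  intro hy
  have hcQ : (c : ℚ) ≠ 0 := by exact_mod_cast hc.ne'
  have hn : QuadraticAlgebra.norm y = 1 := by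
    have e1 : (QuadraticAlgebra.norm y) ^ p = 1 ^ p := by
      rw [← map_pow, hy, kap_norm hc.ne', pow_zero, one_pow, one_pow]
    exact hodd.pow_injective e1
  have hseq : Seq (tr y) (fun k => tr (y ^ k)) :=
    ⟨by simp only [pow_zero]; exact tr_one, by simp only [pow_one], fun k => by
      rw [tr_rec, hn, one_mul]⟩
  have hep : tr (y ^ p) = -((d : ℚ) / c) := by
    rw [hy, kap_tr hc.ne', pow_zero, mul_one]
  have hden := hseq.isInt hp hc h3 hep
  obtain ⟨a, ha⟩ : ∃ a : ℤ, tr y = a := ⟨(tr y).num, (Rat.den_eq_one_iff _).1 hden |>.symm⟩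
  rw [ha] at hseq
  have h4 := hseq.eq_es p
  rw [hep] at h4
  have h5 : c * es a p = -d := by
    have : (c : ℚ) * es a p = -d := by rw [← h4]; field_simp
    exact_mod_cast this
  have hc1 : c = 1 := by
    have h6 : c ∣ d := (dvd_neg).1 ⟨_, h5.symm⟩
    have h7 : IsUnit c := hcd.isUnit_of_dvd' dvd_rfl h6
    rcases Int.isUnit_iff.1 h7 with h | h
    · exact h
    · omega
  obtain ⟨hd3, hd17⟩ := h1 hc1
  have hdisc := disc y
  rw [ha, hn] at hdisc
  have hc1Q : (c : ℚ) = 1 := by exact_mod_cast hc1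
  have hd3Q : (3 : ℚ) ≤ d := by exact_mod_cast hd3
  have hD : 0 < (d : ℚ) ^ 2 - 4 * (c : ℚ) ^ 2 := by
    rw [hc1Q]
    nlinarith
  have h6 : (0 : ℚ) ≤ (a : ℚ) ^ 2 - 4 * 1 := by
    rw [hdisc]
    exact mul_nonneg hD.le (sq_nonneg _)
  have h7 : 4 ≤ a ^ 2 := by
    have : (4 : ℚ) ≤ (a : ℚ) ^ 2 := by linarith
    exact_mod_cast this
  have h8 : 2 ≤ |a| := by
    by_contra hcon
    push Not at hcon
    have h9 : |a| ≤ 1 := by omega
    have h10 : a ^ 2 ≤ 1 := by
      rw [← sq_abs]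
      nlinarith [abs_nonneg a]
    omega
  rcases eq_or_lt_of_le h8 with h9 | h9
  · -- `a = ± 2`
    have h10 : (a : ℚ) ^ 2 = 4 := by
      have : a ^ 2 = 4 := by rw [← sq_abs, ← h9]; norm_num
      exact_mod_cast this
    rw [h10] at hdisc
    have h11 : y.im ^ 2 = 0 := by
      have : ((d : ℚ) ^ 2 - 4 * (c : ℚ) ^ 2) * y.im ^ 2 = 0 := by linarith
      exact (mul_eq_zero.1 this).resolve_left hD.ne'
    have h12 : y.im = 0 := by
      exact pow_eq_zero_iff (by norm_num) |>.1 h11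
    have h13 : ∀ k : ℕ, (y ^ k).im = 0 := by
      intro k
      induction k with
      | zero => simp [QuadraticAlgebra.im_one]
      | succ k ih =>
        rw [pow_succ, QuadraticAlgebra.im_mul, ih, h12]
        ring
    have h14 := h13 p
    rw [hy] at h14
    have h15 : (kap b c d 0).im = -(1 / (c : ℚ)) := by
      change -((b : ℚ) ^ 0 / c) = _
      rw [pow_zero]
    rw [h15] at h14
    have h16 : (1 : ℚ) / c ≠ 0 := one_div_ne_zero hcQ
    apply h16
    linarith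
  · obtain ⟨k, rfl⟩ := Nat.exists_eq_add_of_le' hp
    have h10 := (es_large (by omega : 3 ≤ |a|) k).1
    rw [hc1, one_mul] at h5
    rw [h5, abs_neg, abs_of_nonneg (by omega)] at h10
    omega

/-- **Irreducibility in base `10`.** -/
theorem irr_ten [Fact (NoRoot c d)] (hc : 0 < c) (hd : 0 ≤ d) (hcd : IsCoprime c d)
    (h3 : ∀ l : ℕ, l.Prime → ¬ (l : ℤ) ^ 3 ∣ c) (h1 : c = 1 → 3 ≤ d ∧ d ≤ 17) {n Y : ℕ}
    (hY : 1 ≤ Y) (h2 : ∀ t : ℚ, c * t ^ 2 ≠ ((10 : ℤ) : ℚ) ^ n * (2 * c - d))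
    (h4 : ∀ r t : ℚ, 4 * r ^ 2 = ((10 : ℤ) : ℚ) ^ n →
      c * (t ^ 2 - 2 * r) ^ 2 ≠ (2 * c + d) * r ^ 2) :
    Irreducible (X ^ Y - C (kap 10 c d n)) := by
  apply capelli (by omega)
  · intro p hp hpY z hz
    rcases hp.eq_two_or_odd' with h5 | hodd
    · subst h5
      exact not_sq (by norm_num) hc hd h2 z hz
    · have hp3 : 3 ≤ p := by
        have := hp.two_le
        rcases Nat.lt_or_ge p 3 with h | h
        · have : p = 2 := by omega
          rw [this] at hodd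
          exact absurd hodd (by decide)
        · exact h
      by_cases hpn : p ∣ n
      · obtain ⟨m, rfl⟩ := hpn
        have hbm : ι ((((10 : ℤ) : ℚ)) ^ m) ≠ (0 : K c d) := by
          intro h0
          have := congrArg QuadraticAlgebra.re h0
          have h6 : (((10 : ℤ) : ℚ)) ^ m = 0 := this
          exact (pow_ne_zero m (by norm_num)) h6
        apply not_pow_zero (b := 10) hc hcd h3 h1 hp3 hodd (z / ι ((((10 : ℤ) : ℚ)) ^ m))
        rw [div_pow, hz, ← map_pow, ← pow_mul, mul_comm m p]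
        have h6 := kap_add (b := 10) (c := c) (d := d) (p * m) 0
        rw [add_zero] at h6
        rw [h6]
        have h7 : ι ((((10 : ℤ) : ℚ)) ^ (p * m)) ≠ (0 : K c d) := by
          intro h0
          have := congrArg QuadraticAlgebra.re h0
          have h8 : (((10 : ℤ) : ℚ)) ^ (p * m) = 0 := this
          exact (pow_ne_zero _ (by norm_num)) h8
        exact mul_div_cancel_left₀ _ h7
      · have h6 := congrArg QuadraticAlgebra.norm hz
        rw [map_pow, kap_norm hc.ne'] at h6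
        have h7 : padicValRat 2 ((QuadraticAlgebra.norm z) ^ p) = 2 * n := by
          rw [h6, ← pow_mul, padicValRat.pow]
          have h8 : padicValRat 2 (((10 : ℤ) : ℚ)) = 1 := by
            have : (((10 : ℤ) : ℚ)) = ((2 : ℕ) : ℚ) * 5 := by norm_num
            rw [this, padicValRat.mul (by norm_num) (by norm_num), padicValRat.self (by norm_num)]
            have h9 : padicValRat 2 (5 : ℚ) = 0 := by
              have h8 : padicValNat 2 5 = 0 := padicValNat.eq_zero_of_not_dvd (by norm_num)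
              have h9 := padicValRat.of_nat (p := 2) (n := 5)
              rw [h8] at h9
              exact_mod_cast h9
            rw [h9]; norm_num
          rw [h8]
          push_cast
          ring
        rw [padicValRat.pow] at h7
        have h8 : (p : ℤ) ∣ ((2 * n : ℕ) : ℤ) := ⟨_, by rw [h7]; push_cast; rfl⟩
        have h9 : p ∣ 2 * n := by exact_mod_cast h8
        rcases (Nat.Prime.dvd_mul hp).1 h9 with h10 | h10
        · have := Nat.le_of_dvd (by norm_num) h10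
          omega
        · exact hpn h10
  · intro h5 z hz
    exact not_four hc h4 (by norm_num) z hz

end Q217.SG.Palin
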