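import Pool.Agent.Q217.SG.Palin

/-!
# Euclid's lemma for the numbers `c b ^ (2 n) + d b ^ n + c`
-/

set_option autoImplicit false

namespace Q217.SG.Palin

open Finset Polynomial Q217.SF

variable {b c d : ℤ}

theorem kap_im_ne (hb : b ≠ 0) (hc : c ≠ 0) (n : ℕ) : (kap b c d n).im ≠ 0 := by
  have hc' : (c : ℚ) ≠ 0 := by exact_mod_cast hc
  have hb' : (b : ℚ) ≠ 0 := by exact_mod_cast hb
  change -((b : ℚ) ^ n / c) ≠ 0
  exact neg_ne_zero.2 (div_ne_zero (pow_ne_zero _ hb') hc')

theorem coprime_aux {k : Type*} [Field k] {x y : k} (h : x ≠ y) (Y : ℕ) :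
    IsCoprime (X ^ Y - C x) (X ^ Y - C y) := by
  have hne : y - x ≠ 0 := sub_ne_zero.2 h.symm
  refine ⟨C (y - x)⁻¹, -C (y - x)⁻¹, ?_⟩
  have h4 : C (y - x)⁻¹ * C (y - x) = (1 : k[X]) := by
    rw [← C_mul, inv_mul_cancel₀ hne, C_1]
  calc _ = C (y - x)⁻¹ * (C y - C x) := by ring
    _ = 1 := by rw [← C_sub, h4]

theorem dvd_conj {k : Type*} [Field k] (σ : k →+* k) (i : ℚ →+* k) (hσ : σ.comp i = i) {κ : k}
    (hne : κ ≠ σ κ) {Y : ℕ} {A : ℚ[X]} (h : (X ^ Y - C κ) ∣ A.map i) :
    (X ^ Y - C κ) * (X ^ Y - C (σ κ)) ∣ A.map i := by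
  apply (coprime_aux hne Y).mul_dvd h
  have h3 := Polynomial.map_dvd σ h
  rwa [Polynomial.map_sub, Polynomial.map_pow, map_X, map_C, Polynomial.map_map, hσ] at h3

theorem dvd_down {k : Type*} [Field k] (i : ℚ →+* k) {c : ℚ} (hc : c ≠ 0) {A B : ℚ[X]} {G : k[X]}
    (hB : B.map i = C (i c) * G) (hG : G ∣ A.map i) : B ∣ A := by
  rw [← Polynomial.map_dvd_map' i, hB]
  have hu : IsUnit (C (i c)) := isUnit_C.2 (IsUnit.mk0 _ ((map_ne_zero i).2 hc))
  exact hu.mul_left_dvd.2 hG

theorem dvd_prim {A B : ℤ[X]} (hB : B.IsPrimitive)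
    (h : B.map (Int.castRingHom ℚ) ∣ A.map (Int.castRingHom ℚ)) : B ∣ A :=
  (IsPrimitive.Int.dvd_iff_map_cast_dvd_map_cast B A hB).2 h

/-- the conjugation -/
def conj : K c d →+* K c d where
  toFun z := ⟨z.re - d * z.im, -z.im⟩
  map_zero' := by ext <;> simp
  map_one' := by ext <;> simp [QuadraticAlgebra.re_one, QuadraticAlgebra.im_one]
  map_add' z w := by
    ext
    · simp
      ring
    · simp
      ring
  map_mul' z w := by
    ext
    · simp
      ring
    · simp
      ring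

theorem conj_ι : (conj : K c d →+* K c d).comp (ι : ℚ →+* K c d) = ι := by
  apply RingHom.ext
  intro r
  change (⟨(r : ℚ) - (d : ℚ) * 0, -0⟩ : K c d) = ⟨r, 0⟩
  ext <;> simp

theorem star_eq_conj (z : K c d) : star z = conj z := by
  ext
  · change z.re + -(d : ℚ) * z.im = z.re - d * z.im
    ring
  · rfl

theorem kap_ne (hb : b ≠ 0) (hc : c ≠ 0) (n : ℕ) : kap b c d n ≠ conj (kap b c d n) := by
  intro h0
  have h3 : (kap b c d n).im = -(kap b c d n).im := congrArg QuadraticAlgebra.im h0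
  apply kap_im_ne (d := d) hb hc n
  linarith

/-- Divisibility over the integers from divisibility over the quadratic field. -/
theorem dvd_int [Fact (NoRoot c d)] (hc : c ≠ 0) (hb : b ≠ 0) (hcd : IsCoprime c d)
    (hcb : IsCoprime c b) {n Y : ℕ} (hY : 1 ≤ Y) (P : ℤ[X])
    (h : (X ^ Y - C (kap b c d n)) ∣ (P.map (Int.castRingHom ℚ)).map (ι : ℚ →+* K c d)) :
    F b c d n Y ∣ P := by
  have hc' : (c : ℚ) ≠ 0 := by exact_mod_cast hc
  apply dvd_prim (F_primitive hcd hcb n hY)
  have hmap := F_map (b := b) (d := d) hc n Y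
  rw [star_eq_conj] at hmap
  have h1 := dvd_conj (k := K c d) conj ι conj_ι (κ := kap b c d n) (kap_ne hb hc n) (Y := Y)
    (A := P.map (Int.castRingHom ℚ)) h
  exact dvd_down (k := K c d) ι hc' (A := P.map (Int.castRingHom ℚ))
    (B := (F b c d n Y).map (Int.castRingHom ℚ))
    (G := (X ^ Y - C (kap b c d n)) * (X ^ Y - C (conj (kap b c d n)))) hmap h1

/-- **Euclid's lemma, auxiliary form.** -/
theorem palin_aux [Fact (NoRoot c d)] (hb : 1 < b) (hc : 0 < c) (hd : 0 ≤ d)
    (hcd : IsCoprime c d) (hcb : IsCoprime c b) {n l : ℕ} (k : Fin 2 → ℕ)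
    (x : ∀ t, Fin (k t) → ℤ) (α : ∀ t, Fin (k t) → ℕ) (q : Fin l → ℤ) (β : Fin l → ℕ)
    (hprod : ∏ t, ∑ i, x t i * b ^ α t i =
      (∑ j, q j * b ^ β j) * (c * (c * b ^ (2 * n) + d * b ^ n + c)))
    (H : ℕ) (hH : ∏ t, ∑ i, |x t i| + c * (2 * c + d) * ∑ j, |q j| < b ^ (H + 1))
    (hbig : (∑ t, k t + (l + l) + 1) * 2 ^ (∑ t, k t + (l + l)) * H < n)
    (hirr : ∀ Y : ℕ, 1 ≤ Y → Y ≤ 2 ^ (∑ t, k t + (l + l)) →
      Irreducible (X ^ Y - C (kap b c d n))) :
    ∃ t, c * b ^ (2 * n) + d * b ^ n + c ∣ ∑ i, x t i * b ^ α t i := by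
  classical
  have hcQ : (c : ℚ) ≠ 0 := by exact_mod_cast hc.ne'
  let T : ∀ t, Fin (k t) → K c d := fun t i => ⟨((x t i * b ^ α t i : ℤ) : ℚ), 0⟩
  let D : Fin (l + l) → K c d := DD q β b c d n
  let α' : ∀ t, Fin (k t) → ℤ := fun t i => α t i
  let u : K c d := ⟨((c * b ^ n : ℤ) : ℚ), 0⟩
  let v : K c d := ⟨0, -1⟩
  have hE : ∀ i : Idx k (l + l), 0 ≤ expo α' (ee β n) (n : ℤ) i := by
    have h0 : ∀ j, 0 ≤ ee β n j := by
      intro j
      refine Fin.addCases ?_ ?_ j
      · intro j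
        simp only [ee, Fin.addCases_left]
        exact Int.natCast_nonneg _
      · intro j
        simp only [ee, Fin.addCases_right]
        exact Int.natCast_nonneg _
    intro i
    rcases i with φ | ⟨j, e⟩
    · simp only [expo, α']; positivity
    · have := h0 j
      cases e <;> simp only [expo] <;> omega
  have hterm : ∀ i : Idx k (l + l), term T D u v i =
      (⟨(ff x q c d i * b ^ (expo α' (ee β n) (n : ℤ) i).toNat : ℤ),
        (gg q c i * b ^ (expo α' (ee β n) (n : ℤ) i).toNat : ℤ)⟩ : K c d) := by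
    intro i
    rcases i with φ | ⟨j, e⟩
    · simp only [term, ff, gg, expo, T, α']
      have e1 : (∑ t, (α t (φ t) : ℤ)).toNat = ∑ t, α t (φ t) := by
        have : ∑ t, (α t (φ t) : ℤ) = ((∑ t, α t (φ t) : ℕ) : ℤ) := by push_cast; rfl
        rw [this, Int.toNat_natCast]
      have e2 : ∀ t, (⟨((x t (φ t) * b ^ α t (φ t) : ℤ) : ℚ), 0⟩ : K c d) =
          ι ((x t (φ t) * b ^ α t (φ t) : ℤ) : ℚ) := fun t => rfl
      rw [e1, Finset.prod_congr rfl (fun t _ => e2 t), ← map_prod, ← Int.cast_prod,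
        Finset.prod_mul_distrib, Finset.prod_pow_eq_pow_sum, zero_mul, Int.cast_zero]
      rfl
    · induction j using Fin.addCases with
      | left j =>
        cases e
        · simp only [term, ff, gg, expo, D, DD, ee, Fin.addCases_left]
          rw [Int.toNat_natCast]
          ext
          · simp [v]
          · simp [v]
        · simp only [term, ff, gg, expo, D, DD, ee, Fin.addCases_left]
          have e2 : ((n : ℤ) + ((n + β j : ℕ) : ℤ)).toNat = n + (n + β j) := by
            rw [← Nat.cast_add, Int.toNat_natCast]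
          rw [e2]
          ext
          · simp [u, pow_add]
            ring
          · simp [u]
      | right j =>
        cases e
        · simp only [term, ff, gg, expo, D, DD, ee, Fin.addCases_right]
          rw [Int.toNat_natCast]
          ext
          · simp [v]
            ring
          · simp [v]
            ring
        · simp only [term, ff, gg, expo, D, DD, ee, Fin.addCases_right]
          have e2 : ((n : ℤ) + (β j : ℤ)).toNat = n + β j := by
            rw [← Nat.cast_add, Int.toNat_natCast]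
          rw [e2]
          ext
          · simp [u, pow_add]
            ring
          · simp [u, pow_add]
            ring
  have hsqrt : Real.sqrt (2 * ((2 : ℕ) : ℝ)) = 2 := by
    rw [show (2 : ℝ) * ((2 : ℕ) : ℝ) = 2 ^ 2 by norm_num]
    exact Real.sqrt_sq (by norm_num)
  have hprodK : ∏ t, ∑ i, T t i = (∑ j, D j) * (u + v) := by
    have e1 : ∏ t, ∑ i, T t i = ι ((∏ t, ∑ i, x t i * b ^ α t i : ℤ) : ℚ) := by
      rw [Int.cast_prod, map_prod]
      apply Finset.prod_congr rfl
      intro t _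
      rw [Int.cast_sum, map_sum]
      rfl
    rw [e1, hprod, sum_DD, ι_apply]
    ext
    · simp [u, v]
      ring
    · simp [u, v]
      ring
  have h2n : (0 : ℤ) < b ^ (H + 1) := by positivity
  obtain ⟨z, Pq, s, s', Y, hY1, hY2, hid⟩ := deformExp (r := 2) le_rfl T α' D (ee β n) u v
    (n : ℤ) H (by positivity)
    (by
      intro S hS
      have htot := sum_term T D u v hprodK
      rw [Finset.sum_congr rfl (fun i _ => hterm i)] at htot ⊢
      refine closed_K hb hE ?_ ?_ htot S hS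
      · rw [sum_ff hc hd]; exact hH
      · rw [sum_gg hc]
        refine lt_of_le_of_lt ?_ hH
        have h1 : 0 ≤ ∏ t, ∑ i, |x t i| :=
          Finset.prod_nonneg (fun t _ => Finset.sum_nonneg (fun i _ => abs_nonneg _))
        have h2 : 0 ≤ ∑ j, |q j| := Finset.sum_nonneg (fun i _ => abs_nonneg _)
        have h3 : 2 * c * ∑ j, |q j| ≤ c * (2 * c + d) * ∑ j, |q j| := by
          apply mul_le_mul_of_nonneg_right _ h2
          nlinarith
        linarith)
    (by
      rw [hsqrt]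
      exact_mod_cast hbig)
  have hY2' : Y ≤ 2 ^ (∑ t, k t + (l + l)) := by
    rw [hsqrt] at hY2
    exact_mod_cast hY2
  have hG := hirr Y hY1 hY2'
  have hprime : Prime (X ^ Y - C (kap b c d n)) := hG.prime
  -- the last factor
  have hlast : (C v * X ^ Y + C u : (K c d)[X]) = C v * (X ^ Y - C (kap b c d n)) := by
    have hvk : v * kap b c d n = -u := by
      ext
      · simp [u, v, kap]
        field_simp
      · simp [u, v, kap]
        ring
    rw [mul_sub, ← C_mul, hvk, C_neg, sub_neg_eq_add]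
  let P : ∀ _ : Fin 2, ℤ[X] := fun t => ∑ i, C (x t i * b ^ α t i) * X ^ z t i
  have hP : ∀ t, ((P t).map (Int.castRingHom ℚ)).map (ι : ℚ →+* K c d) =
      ∑ i, C (T t i) * X ^ z t i := by
    intro t
    simp only [P, T, Polynomial.map_sum, Polynomial.map_mul, Polynomial.map_pow, map_X, map_C]
    rfl
  have h1 : (X ^ Y - C (kap b c d n)) ∣ X ^ s' * ∏ t, (∑ i, C (T t i) * X ^ z t i) := by
    rw [hid, hlast]
    exact (Dvd.intro_left _ rfl).mul_left _
  rcases hprime.dvd_or_dvd h1 with h2 | h2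
  · exfalso
    have h3 : (X ^ Y - C (kap b c d n)) ∣ X := hprime.dvd_of_dvd_pow h2
    have h4 : Associated (X ^ Y - C (kap b c d n)) X :=
      (hprime.dvd_prime_iff_associated Polynomial.prime_X).1 h3
    have h5 : X ∣ (X ^ Y - C (kap b c d n)) := h4.symm.dvd
    rw [X_dvd_iff, coeff_sub, coeff_X_pow, if_neg (by omega), coeff_C_zero, zero_sub,
      neg_eq_zero] at h5
    apply kap_im_ne (d := d) (by omega : b ≠ 0) hc.ne' n
    rw [h5]
    rfl
  · obtain ⟨t, -, ht⟩ := (Prime.dvd_finsetProd_iff hprime _).1 h2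
    rw [← hP t] at ht
    have h6 := dvd_int hc.ne' (by omega) hcd hcb hY1 (P t) ht
    refine ⟨t, ?_⟩
    obtain ⟨S, hS⟩ := h6
    refine ⟨S.eval 1, ?_⟩
    rw [← F_eval n Y, ← eval_mul, ← hS]
    simp [P, eval_finsetSum]

end Q217.SG.Palin
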