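import Pool.Agent.Q217.SG.DeformRev
import Pool.Agent.Q217.SG.ClosedGen

/-!
# Sums of powers of a unit with two real embeddings
-/

set_option autoImplicit false

namespace Q217.SG

open Finset Polynomial Q217.SF

/-- A ring with two real embeddings, integral norms and a unit `u > 1` of norm `± 1`. -/
structure QU (R : Type*) [CommRing R] where
  /-- the first embedding -/
  s₁ : R →+* ℝ
  /-- the second embedding -/
  s₂ : R →+* ℝ
  inj₁ : Function.Injective s₁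
  inj₂ : Function.Injective s₂
  /-- the unit -/
  u : Rˣ
  one_lt : 1 < s₁ u
  h₂ : |s₂ u| = (s₁ u)⁻¹
  hN : ∀ z : R, ∃ N : ℤ, s₁ z * s₂ z = N

namespace QU

variable {R : Type*} [CommRing R] (Q : QU R)

/-- the powers of the unit -/
def G (e : ℤ) : R := ((Q.u ^ e : Rˣ) : R)

/-- the real unit -/
noncomputable def θ : ℝ := Q.s₁ Q.u

theorem one_lt_θ : 1 < Q.θ := Q.one_lt

theorem θ_pos : 0 < Q.θ := zero_lt_one.trans Q.one_lt

theorem G_add (e f : ℤ) : Q.G (e + f) = Q.G e * Q.G f := by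
  simp [G, zpow_add]

theorem G_natCast (n : ℕ) : Q.G n = (Q.u : R) ^ n := by
  simp only [G, zpow_natCast, Units.val_pow_eq_pow_val]

theorem G_zero : Q.G 0 = 1 := by simp [G]

theorem G_sum {ι : Type*} (s : Finset ι) (f : ι → ℤ) :
    Q.G (∑ i ∈ s, f i) = ∏ i ∈ s, Q.G (f i) := by
  classical
  induction s using Finset.induction_on with
  | empty => simp [G_zero]
  | insert a s ha ih => rw [Finset.sum_insert ha, Finset.prod_insert ha, G_add, ih]

theorem map_G (s : R →+* ℝ) (e : ℤ) : s (Q.G e) = s Q.u ^ e := by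
  have h : s (Q.G e) = ((Units.map (s : R →* ℝ) Q.u ^ e : ℝˣ) : ℝ) := by
    rw [← map_zpow, Units.coe_map]
    rfl
  rw [h, Units.val_zpow_eq_zpow_val]
  rfl

theorem s₁_G (e : ℤ) : Q.s₁ (Q.G e) = Q.θ ^ e := by rw [map_G, θ]

theorem s₂_G (e : ℤ) : |Q.s₂ (Q.G e)| = Q.θ ^ (-e) := by
  rw [map_G, abs_zpow, Q.h₂, inv_zpow, zpow_neg, θ]

/-- the size -/
noncomputable def sz (z : R) : ℝ := max |Q.s₁ z| |Q.s₂ z|

theorem sz_nonneg (z : R) : 0 ≤ Q.sz z := le_max_of_le_left (abs_nonneg _)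

theorem sz_mul (z w : R) : Q.sz (z * w) ≤ Q.sz z * Q.sz w := by
  simp only [sz, map_mul, abs_mul]
  apply max_le
  · exact mul_le_mul (le_max_left _ _) (le_max_left _ _) (abs_nonneg _)
      (le_max_of_le_left (abs_nonneg _))
  · exact mul_le_mul (le_max_right _ _) (le_max_right _ _) (abs_nonneg _)
      (le_max_of_le_left (abs_nonneg _))

theorem sz_neg (z : R) : Q.sz (-z) = Q.sz z := by simp [sz]

theorem sz_one : Q.sz 1 = 1 := by simp [sz]

/-- The low part of a vanishing sum with a gap vanishes. -/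
theorem low {J : Type*} [DecidableEq J] {c : J → R} {E : J → ℤ} {h : ℕ} {A : Finset J}
    (hA : (∑ i ∈ A, Q.sz (c i)) ^ 2 < 4 * Q.θ ^ (h + 1))
    (h0 : ∑ i ∈ A, c i * Q.G (E i) = 0) {t : ℤ} (ht : ∀ i ∈ A, E i < t → E i + h < t) :
    ∑ i ∈ A.filter (fun i => E i < t), c i * Q.G (E i) = 0 := by
  have hφ := Q.one_lt_θ
  have hφ0 := Q.θ_pos
  set z := ∑ i ∈ A.filter (fun i => E i < t), c i * Q.G (E i) with hz
  have hsplit := Finset.sum_filter_add_sum_filter_not A (fun i => E i < t)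
    (fun i => c i * Q.G (E i))
  have hz' : z = -∑ i ∈ A.filter (fun i => ¬ E i < t), c i * Q.G (E i) := by
    rw [h0] at hsplit
    exact eq_neg_of_add_eq_zero_left hsplit
  set SL := ∑ i ∈ A.filter (fun i => E i < t), Q.sz (c i) with hSL
  set SH := ∑ i ∈ A.filter (fun i => ¬ E i < t), Q.sz (c i) with hSH
  have hSL0 : 0 ≤ SL := Finset.sum_nonneg (fun i _ => Q.sz_nonneg _)
  have hSH0 : 0 ≤ SH := Finset.sum_nonneg (fun i _ => Q.sz_nonneg _)
  have hS : SL + SH = ∑ i ∈ A, Q.sz (c i) :=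
    Finset.sum_filter_add_sum_filter_not A (fun i => E i < t) (fun i => Q.sz (c i))
  have h1 : |Q.s₁ z| ≤ SL * Q.θ ^ (t - h - 1) := by
    rw [hz, map_sum, hSL, Finset.sum_mul]
    refine (Finset.abs_sum_le_sum_abs _ _).trans (Finset.sum_le_sum ?_)
    intro i hi
    rw [Finset.mem_filter] at hi
    have h2 := ht i hi.1 hi.2
    rw [map_mul, abs_mul, s₁_G, abs_of_pos (zpow_pos hφ0 _)]
    exact mul_le_mul (le_max_left _ _) (zpow_le_zpow_right₀ hφ.le (by omega))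
      (zpow_pos hφ0 _).le (Q.sz_nonneg _)
  have h2 : |Q.s₂ z| ≤ SH * Q.θ ^ (-t) := by
    rw [hz', map_neg, abs_neg, map_sum, hSH, Finset.sum_mul]
    refine (Finset.abs_sum_le_sum_abs _ _).trans (Finset.sum_le_sum ?_)
    intro i hi
    rw [Finset.mem_filter] at hi
    rw [map_mul, abs_mul, s₂_G]
    exact mul_le_mul (le_max_right _ _) (zpow_le_zpow_right₀ hφ.le (by omega))
      (zpow_pos hφ0 _).le (Q.sz_nonneg _)
  obtain ⟨N, hNz⟩ := Q.hN z
  have h3 : |Q.s₁ z * Q.s₂ z| < 1 := by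
    rw [abs_mul]
    have e1 : Q.θ ^ (t - h - 1) * Q.θ ^ (-t) * Q.θ ^ (h + 1) = 1 := by
      rw [← zpow_natCast, ← zpow_add₀ hφ0.ne', ← zpow_add₀ hφ0.ne']
      have : t - (h : ℤ) - 1 + -t + ((h + 1 : ℕ) : ℤ) = 0 := by push_cast; ring
      rw [this, zpow_zero]
    have hq : 0 < Q.θ ^ (t - h - 1) * Q.θ ^ (-t) :=
      mul_pos (zpow_pos hφ0 _) (zpow_pos hφ0 _)
    have h4 : 4 * (SL * SH) < 4 * Q.θ ^ (h + 1) := by
      refine lt_of_le_of_lt ?_ hA
      rw [← hS]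
      nlinarith [sq_nonneg (SL - SH)]
    calc |Q.s₁ z| * |Q.s₂ z| ≤ (SL * Q.θ ^ (t - h - 1)) * (SH * Q.θ ^ (-t)) :=
          mul_le_mul h1 h2 (abs_nonneg _) (mul_nonneg hSL0 (zpow_pos hφ0 _).le)
      _ = (SL * SH) * (Q.θ ^ (t - h - 1) * Q.θ ^ (-t)) := by ring
      _ < Q.θ ^ (h + 1) * (Q.θ ^ (t - h - 1) * Q.θ ^ (-t)) :=
          mul_lt_mul_of_pos_right (by linarith) hq
      _ = 1 := by rw [← e1]; ring
  rw [hNz] at h3
  have h4 : |N| < 1 := by exact_mod_cast h3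
  have h5 : N = 0 := Int.abs_lt_one_iff.1 h4
  have h6 : Q.s₁ z * Q.s₂ z = 0 := by rw [hNz, h5]; simp
  rcases mul_eq_zero.1 h6 with h7 | h7
  · exact Q.inj₁ (by rw [h7, map_zero])
  · exact Q.inj₂ (by rw [h7, map_zero])

/-- **The gap lemma for powers of a unit.** -/
theorem closed {J : Type*} [Fintype J] [DecidableEq J] {c : J → R} {E : J → ℤ} {h : ℕ}
    (hJ : (∑ i, Q.sz (c i)) ^ 2 < 4 * Q.θ ^ (h + 1))
    (h0 : ∑ i, c i * Q.G (E i) = 0) (S : Finset J)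
    (hcl : ∀ i ∈ S, ∀ j, E i ≤ E j + h → E j ≤ E i + h → j ∈ S) :
    ∑ i ∈ S, c i * Q.G (E i) = 0 := by
  refine closed_of_low (W := fun i => c i * Q.G (E i)) (E := E) (h := h) (by omega) Finset.univ ?_
    Finset.univ subset_rfl h0 S (Finset.subset_univ _) (fun i hi j _ h1 h2 => hcl i hi j h1 h2)
  intro J' _ h0' t ht
  refine Q.low (lt_of_le_of_lt ?_ hJ) h0' ht
  have h1 : ∑ i ∈ J', Q.sz (c i) ≤ ∑ i, Q.sz (c i) :=
    Finset.sum_le_sum_of_subset_of_nonneg (Finset.subset_univ _) (fun i _ _ => Q.sz_nonneg _)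
  have h2 : 0 ≤ ∑ i ∈ J', Q.sz (c i) := Finset.sum_nonneg (fun i _ => Q.sz_nonneg _)
  exact pow_le_pow_left₀ h2 h1 2

/-- the coefficients of the expanded identity -/
def coefQ {k : Fin 2 → ℕ} {l : ℕ} (c : ∀ t, Fin (k t) → R) (d : Fin l → R) (w v : R) :
    Idx k l → R
  | .inl φ => ∏ t, c t (φ t)
  | .inr (j, true) => -(d j * w)
  | .inr (j, false) => -(d j * v)

theorem sum_sz {k : Fin 2 → ℕ} {l : ℕ} (c : ∀ t, Fin (k t) → R) (d : Fin l → R) (w v : R) :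
    ∑ i : Idx k l, Q.sz (coefQ c d w v i) ≤
      ∏ t, ∑ i, Q.sz (c t i) + (∑ j, Q.sz (d j)) * (Q.sz w + Q.sz v) := by
  classical
  rw [Fintype.sum_sum_type, Fintype.sum_prod_type]
  apply add_le_add
  · rw [Finset.prod_univ_sum, Fintype.piFinset_univ]
    apply Finset.sum_le_sum
    intro φ _
    simp only [coefQ]
    rw [Fin.prod_univ_two, Fin.prod_univ_two]
    exact Q.sz_mul _ _
  · rw [Finset.sum_mul]
    apply Finset.sum_le_sum
    intro j _
    rw [Fintype.sum_bool]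
    simp only [coefQ, sz_neg]
    have h1 := Q.sz_mul (d j) v
    have h2 := Q.sz_mul (d j) w
    linarith

/-- The deformed identity. -/
theorem data {M l : ℕ} (k : Fin 2 → ℕ) (c : ∀ t, Fin (k t) → R)
    (α : ∀ t, Fin (k t) → ℤ) (d : Fin l → R) (β : Fin l → ℤ) (w v : R)
    (hprod : ∏ t, ∑ i, c t i * Q.G (α t i) = (∑ j, d j * Q.G (β j)) * (w * (Q.u : R) ^ M + v))
    (H : ℕ) (hH : (∏ t, ∑ i, Q.sz (c t i) + (∑ j, Q.sz (d j)) * (Q.sz w + Q.sz v)) ^ 2 <
      4 * Q.θ ^ (H + 1))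
    (hbig : (∑ t, k t + l + 1) * 2 ^ (∑ t, k t + l) * H < M) :
    ∃ (P : Fin 2 → R[X]) (Pq : R[X]) (s s' Y : ℕ), 1 ≤ Y ∧ Y ≤ 2 ^ (∑ t, k t + l) ∧
      (∀ t, (P t).eval 1 = ∑ i, c t i * Q.G (α t i)) ∧
      X ^ s' * ∏ t, P t = X ^ s * Pq * (C v * X ^ Y + C (w * (Q.u : R) ^ M)) := by
  classical
  let T : ∀ t, Fin (k t) → R := fun t i => c t i * Q.G (α t i)
  let D : Fin l → R := fun j => d j * Q.G (β j)
  have hterm : ∀ i : Idx k l, term T D (w * (Q.u : R) ^ M) v i =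
      coefQ c d w v i * Q.G (expo α β (M : ℤ) i) := by
    intro i
    rcases i with φ | ⟨j, q⟩
    · simp only [term, coefQ, expo, T]
      rw [Finset.prod_mul_distrib, Q.G_sum]
    · cases q
      · simp only [term, coefQ, expo, D]
        ring
      · simp only [term, coefQ, expo, D]
        rw [Q.G_add, Q.G_natCast]
        ring
  have hsqrt : Real.sqrt (2 * ((2 : ℕ) : ℝ)) = 2 := by
    rw [show (2 : ℝ) * ((2 : ℕ) : ℝ) = 2 ^ 2 by norm_num]
    exact Real.sqrt_sq (by norm_num)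
  obtain ⟨P, Pq, s, s', Y, hY1, hY2, hP, -, hid⟩ := deformRev (r := 2) le_rfl T α D β
    (w * (Q.u : R) ^ M) v (M : ℤ) H (by positivity)
    (by
      intro S hS
      have htot := sum_term T D (w * (Q.u : R) ^ M) v hprod
      rw [Finset.sum_congr rfl (fun i _ => hterm i)] at htot ⊢
      refine Q.closed (lt_of_le_of_lt ?_ hH) htot S hS
      exact pow_le_pow_left₀ (Finset.sum_nonneg (fun i _ => Q.sz_nonneg _))
        (Q.sum_sz c d w v) 2)
    (by
      rw [hsqrt]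
      exact_mod_cast hbig)
  refine ⟨P, Pq, s, s', Y, hY1, ?_, hP, hid⟩
  rw [hsqrt] at hY2
  exact_mod_cast hY2

end QU

end Q217.SG
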