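import Pool.Agent.Q217.SG.QuadUnit
import Pool.Agent.Q217.SF.Capelli

/-!
# The ring of the integers `a + b √2`
-/

set_option autoImplicit false

namespace Q217.SG.Silver

open Polynomial Q217.SF

/-- the ring of the integers `a + b √2` -/
abbrev ZS : Type := QuadraticAlgebra ℤ 2 0

/-- the field of the numbers `a + b √2` -/
abbrev QS : Type := QuadraticAlgebra ℚ 2 0

theorem sq_ne_two (r : ℚ) : r ^ 2 ≠ 2 := by
  intro h
  have h1 : r ^ 2 = ((2 : ℕ) : ℚ) := by push_cast; exact h
  have h2 : padicValRat 2 (r ^ 2) = 1 := by rw [h1, padicValRat.self (by norm_num)]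
  rw [padicValRat.pow] at h2
  omega

instance factQS : Fact (∀ r : ℚ, r ^ 2 ≠ 2 + 0 * r) := ⟨by
  intro r h
  apply sq_ne_two r
  linarith⟩

/-- the inclusion -/
def incl : ZS →+* QS where
  toFun z := ⟨z.re, z.im⟩
  map_zero' := by ext <;> simp
  map_one' := by ext <;> simp [QuadraticAlgebra.re_one, QuadraticAlgebra.im_one]
  map_add' z w := by ext <;> simp
  map_mul' z w := by ext <;> simp

theorem incl_injective : Function.Injective incl := by
  intro z w h
  have h1 : (z.re : ℚ) = w.re := congrArg QuadraticAlgebra.re h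
  have h2 : (z.im : ℚ) = w.im := congrArg QuadraticAlgebra.im h
  ext
  · exact_mod_cast h1
  · exact_mod_cast h2

instance : IsDomain ZS := incl_injective.isDomain incl

/-- the real embedding with a root `s` of `s ^ 2 = 2` -/
def emb (s : ℝ) (hs : s ^ 2 = 2) : QS →+* ℝ where
  toFun z := z.re + z.im * s
  map_zero' := by simp
  map_one' := by simp [QuadraticAlgebra.re_one, QuadraticAlgebra.im_one]
  map_add' z w := by simp; ring
  map_mul' z w := by
    simp
    linear_combination (-(z.im : ℝ) * w.im) * hs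

theorem sqrt_sq : Real.sqrt 2 ^ 2 = 2 := Real.sq_sqrt (by norm_num)

theorem one_lt_sqrt : 1 < Real.sqrt 2 := by
  rw [Real.lt_sqrt (by norm_num)]; norm_num

theorem sqrt_lt : Real.sqrt 2 < 3 / 2 := by
  rw [Real.sqrt_lt' (by norm_num)]; norm_num

/-- the first real embedding -/
noncomputable def e₁ : QS →+* ℝ := emb (Real.sqrt 2) sqrt_sq

/-- the second real embedding -/
noncomputable def e₂ : QS →+* ℝ := emb (-Real.sqrt 2) (by rw [neg_sq]; exact sqrt_sq)

/-- the silver ratio -/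
noncomputable def σ₁ : ℝ := 1 + Real.sqrt 2

/-- the unit `1 + √2` in the field -/
def g : QS := ⟨1, 1⟩

/-- the unit `1 + √2` -/
def γ : ZS := ⟨1, 1⟩

/-- its conjugate `1 - √2` -/
def γ' : ZS := ⟨1, -1⟩

/-- `√2` -/
def ω : ZS := ⟨0, 1⟩

theorem incl_γ : incl γ = g := by
  simp [incl, γ, g]

theorem e₁_g : e₁ g = 1 + Real.sqrt 2 := by simp [e₁, emb, g]

theorem e₂_g : e₂ g = 1 - Real.sqrt 2 := by simp [e₂, emb, g]; ring

theorem e₂_g_neg : e₂ g < 0 := by
  rw [e₂_g]
  linarith [one_lt_sqrt]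

theorem e₁_mul_e₂ (z : QS) : e₁ z * e₂ z = z.norm := by
  change ((z.re : ℝ) + z.im * Real.sqrt 2) * (z.re + z.im * -Real.sqrt 2) = _
  rw [QuadraticAlgebra.norm_def]
  push_cast
  linear_combination (-(z.im * z.im) : ℝ) * sqrt_sq

theorem e₁_add_e₂ (z : QS) : e₁ z + e₂ z = ((2 * z.re : ℚ) : ℝ) := by
  change ((z.re : ℝ) + z.im * Real.sqrt 2) + (z.re + z.im * -Real.sqrt 2) = _
  push_cast
  ring

theorem g_ne_zero : g ≠ 0 := by
  intro h
  have := congrArg QuadraticAlgebra.im h
  simp [g] at this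

/-- The unit `1 + √2` is not a `p`-th power, `p` an odd prime. -/
theorem g_ne_pow {p : ℕ} (hp : p.Prime) (hodd : Odd p) (z : QS) : z ^ p ≠ g := by
  intro hz
  have hr1 := one_lt_sqrt
  have hr2 := sqrt_lt
  have hrr := sqrt_sq
  have hs : e₁ z ^ p = 1 + Real.sqrt 2 := by rw [← map_pow, hz, e₁_g]
  have hs' : e₂ z ^ p = 1 - Real.sqrt 2 := by rw [← map_pow, hz, e₂_g]
  -- the norm
  have hn : e₁ z * e₂ z = -1 := by
    have h1 : (e₁ z * e₂ z) ^ p = (-1) ^ p := by
      rw [mul_pow, hs, hs', hodd.neg_one_pow]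
      linear_combination -hrr
    exact hodd.pow_injective h1
  -- bounds for the first embedding
  have h1 : 1 < e₁ z := by
    by_contra hcon
    push Not at hcon
    have h2 : e₁ z ^ p ≤ 1 ^ p := hodd.pow_le_pow.2 hcon
    rw [hs, one_pow] at h2
    linarith
  have h2 : e₁ z < 1 + Real.sqrt 2 := by
    by_contra hcon
    push Not at hcon
    have h3 : (1 + Real.sqrt 2) ^ p ≤ e₁ z ^ p :=
      pow_le_pow_left₀ (by linarith) hcon p
    rw [hs] at h3
    have h4 : (1 + Real.sqrt 2) ^ 1 < (1 + Real.sqrt 2) ^ p :=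
      pow_lt_pow_right₀ (by linarith) hp.one_lt
    rw [pow_one] at h4
    linarith
  -- the trace is an integer
  have hint : IsIntegral ℤ (algebraMap ℚ QS (2 * z.re)) := by
    have e : algebraMap ℚ QS (2 * z.re) = z + star z := by
      ext
      · change 2 * z.re = z.re + (z.re + 0 * z.im)
        ring
      · change (0 : ℚ) = z.im + -z.im
        ring
    have hg : IsIntegral ℤ g := by
      refine ⟨X ^ 2 - X - X - 1, by monicity!, ?_⟩
      rw [eval₂_sub, eval₂_sub, eval₂_sub, eval₂_X_pow, eval₂_X, eval₂_one, sq]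
      ext
      · change ((1 : ℚ) * 1 + 2 * 1 * 1) - 1 - 1 - 1 = 0
        norm_num
      · change ((1 : ℚ) * 1 + 1 * 1 + 0 * 1 * 1) - 1 - 1 - 0 = 0
        norm_num
    have hz1 : IsIntegral ℤ z := by
      apply IsIntegral.of_pow hp.pos
      rw [hz]; exact hg
    have hz2 : IsIntegral ℤ (star z) := by
      apply IsIntegral.of_pow hp.pos
      rw [← star_pow, hz]
      have : star g = 1 + 1 - g := by
        ext <;> simp [g, QuadraticAlgebra.re_one, QuadraticAlgebra.im_one]
      rw [this]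
      exact (isIntegral_one.add isIntegral_one).sub hg
    rw [e]
    exact hz1.add hz2
  have hint' : IsIntegral ℤ (2 * z.re) :=
    (isIntegral_algebraMap_iff (algebraMap ℚ QS).injective).1 hint
  obtain ⟨t, ht⟩ := IsIntegrallyClosed.isIntegral_iff.1 hint'
  have h3 : e₁ z + e₂ z = t := by
    rw [e₁_add_e₂, ← ht]
    simp
  have h4 : e₁ z * (t : ℝ) = e₁ z ^ 2 - 1 := by
    rw [← h3]
    linear_combination hn
  have h5 : (0 : ℝ) < t := by
    have h8 : 0 < e₁ z * (t : ℝ) := by rw [h4]; nlinarith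
    by_contra hcon
    push Not at hcon
    have h9 : e₁ z * (t : ℝ) ≤ 0 := mul_nonpos_of_nonneg_of_nonpos (by linarith) hcon
    linarith
  have h6 : (t : ℝ) < 2 := by
    have h7 : e₁ z * (t : ℝ) < e₁ z * 2 := by
      rw [h4]
      nlinarith
    exact lt_of_mul_lt_mul_left h7 (by linarith)
  have h7 : 0 < t := by exact_mod_cast h5
  have h8 : t < 2 := by exact_mod_cast h6
  have h9 : t = 1 := by omega
  have hre : 2 * z.re = 1 := by rw [← ht, h9]; simp
  have hnorm : z.norm = -1 := by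
    have := e₁_mul_e₂ z
    rw [hn] at this
    exact_mod_cast this.symm
  rw [QuadraticAlgebra.norm_def] at hnorm
  have h10 : (4 * z.im) ^ 2 = 10 := by
    have : z.re = 1 / 2 := by linarith
    rw [this] at hnorm
    linarith
  have h11 : (4 * z.im) ^ 2 = ((2 : ℕ) : ℚ) * 5 := by rw [h10]; norm_num
  have h12 : padicValRat 2 ((4 * z.im) ^ 2) = 1 := by
    rw [h11, padicValRat.mul (by norm_num) (by norm_num), padicValRat.self (by norm_num)]
    have : padicValRat 2 (5 : ℚ) = 0 := by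
      have h8 : padicValNat 2 5 = 0 := padicValNat.eq_zero_of_not_dvd (by norm_num)
      have h9 := padicValRat.of_nat (p := 2) (n := 5)
      rw [h8] at h9
      exact_mod_cast h9
    rw [this]; norm_num
  rw [padicValRat.pow] at h12
  omega

theorem g_pow_ne_pow {p n : ℕ} (hp : p.Prime) (hodd : Odd p) (hn : ¬ p ∣ n) (z : QS) :
    z ^ p ≠ g ^ n := by
  intro hz
  have hcop : Nat.gcd n p = 1 := (Nat.Coprime.symm ((Nat.Prime.coprime_iff_not_dvd hp).2 hn))
  have hb : (n : ℤ) * Nat.gcdA n p + (p : ℤ) * Nat.gcdB n p = 1 := by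
    have := Nat.gcd_eq_gcd_ab n p
    rw [hcop] at this
    simpa using this.symm
  apply g_ne_pow hp hodd (z ^ (Nat.gcdA n p) * g ^ (Nat.gcdB n p))
  have e1 : (z ^ (Nat.gcdA n p)) ^ p = (z ^ p) ^ (Nat.gcdA n p) := by
    rw [← zpow_natCast (z ^ Nat.gcdA n p) p, ← zpow_mul, mul_comm, zpow_mul, zpow_natCast]
  rw [mul_pow, e1, hz, ← zpow_natCast g n, ← zpow_natCast (g ^ Nat.gcdB n p) p, ← zpow_mul,
    ← zpow_mul, ← zpow_add₀ g_ne_zero]
  rw [show (n : ℤ) * Nat.gcdA n p + Nat.gcdB n p * p = 1 by rw [← hb]; ring]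
  exact zpow_one g

theorem e₁_pos (n : ℕ) : 0 < e₁ (g ^ n) := by
  rw [map_pow, e₁_g]
  have := one_lt_sqrt
  positivity

theorem e₂_odd {n : ℕ} (hn : Odd n) : e₂ (g ^ n) < 0 := by
  rw [map_pow]
  exact hn.pow_neg e₂_g_neg

/-- `X ^ Y + g ^ (2 n)` is irreducible for odd `n`. -/
theorem irr_plus {n Y : ℕ} (hY : 1 ≤ Y) (hn : Odd n)
    (h : ∀ p : ℕ, p.Prime → Odd p → p ∣ Y → ¬ p ∣ n) :
    Irreducible (X ^ Y - C (-g ^ (2 * n))) := by
  apply capelli (by omega)
  · intro p hp hpY z hz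
    rcases hp.eq_two_or_odd' with h2 | hodd
    · subst h2
      have h1 := congrArg e₁ hz
      rw [map_pow, map_neg] at h1
      have := e₁_pos (2 * n)
      nlinarith [sq_nonneg (e₁ z)]
    · apply g_pow_ne_pow hp hodd (n := 2 * n) _ (-z)
      · rw [hodd.neg_pow, hz, neg_neg]
      · intro hd
        rcases (Nat.Prime.dvd_mul hp).1 hd with h3 | h3
        · rw [(Nat.prime_dvd_prime_iff_eq hp Nat.prime_two).1 h3] at hodd
          exact absurd hodd (by decide)
        · exact h p hp hodd hpY h3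
  · intro h4 z hz
    have h1 : (2 * z ^ 2 - g ^ n) * (2 * z ^ 2 + g ^ n) = 0 := by
      linear_combination -hz
    rcases mul_eq_zero.1 h1 with h2 | h2
    · -- `2 z ^ 2 = g ^ n`
      have h3 : 2 * z ^ 2 = g ^ n := by linear_combination h2
      have h5 := congrArg e₂ h3
      rw [map_mul, map_pow, map_ofNat] at h5
      have h6 := e₂_odd hn
      nlinarith [sq_nonneg (e₂ z)]
    · have h3 : 2 * z ^ 2 = -g ^ n := by linear_combination h2
      have h5 := congrArg e₁ h3
      rw [map_mul, map_pow, map_neg, map_ofNat] at h5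
      have := e₁_pos n
      nlinarith [sq_nonneg (e₁ z)]

/-- `X ^ Y - g ^ (2 n)` is irreducible for odd `Y`. -/
theorem irr_minus_odd {n Y : ℕ} (hY : Odd Y)
    (h : ∀ p : ℕ, p.Prime → Odd p → p ∣ Y → ¬ p ∣ n) :
    Irreducible (X ^ Y - C (g ^ (2 * n))) := by
  apply capelli hY.pos.ne'
  · intro p hp hpY z hz
    have hodd : Odd p := hY.of_dvd_nat hpY
    apply g_pow_ne_pow hp hodd (n := 2 * n) _ z hz
    intro hd
    rcases (Nat.Prime.dvd_mul hp).1 hd with h3 | h3
    · rw [(Nat.prime_dvd_prime_iff_eq hp Nat.prime_two).1 h3] at hodd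
      exact absurd hodd (by decide)
    · exact h p hp hodd hpY h3
  · intro h4
    exfalso
    have : 2 ∣ Y := (by norm_num : 2 ∣ 4).trans h4
    rw [← even_iff_two_dvd] at this
    exact (Nat.not_even_iff_odd.2 hY) this

/-- `X ^ Z - g ^ n` is irreducible for odd `n`. -/
theorem irr_minus_even {n Z : ℕ} (hZ : 1 ≤ Z) (hn : Odd n)
    (h : ∀ p : ℕ, p.Prime → Odd p → p ∣ Z → ¬ p ∣ n) :
    Irreducible (X ^ Z - C (g ^ n)) := by
  apply capelli (by omega)
  · intro p hp hpZ z hz
    rcases hp.eq_two_or_odd' with h2 | hodd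
    · subst h2
      have h5 := congrArg e₂ hz
      rw [map_pow] at h5
      have h6 := e₂_odd hn
      nlinarith [sq_nonneg (e₂ z)]
    · exact g_pow_ne_pow hp hodd (h p hp hodd hpZ) z hz
  · intro h4 z hz
    have h5 := congrArg e₁ hz
    rw [map_mul, map_pow _ z, map_neg, map_ofNat] at h5
    have h7 := e₁_pos n
    have h6 : 0 ≤ e₁ z ^ 4 := by positivity
    linarith

theorem rat_pow_ne {x : ℚ} {p N : ℕ} (hp : ¬ p ∣ N) : x ^ p ≠ 2 ^ N := by
  intro h
  have h1 : padicValRat 2 (x ^ p) = N := by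
    rw [h, padicValRat.pow, show (2 : ℚ) = ((2 : ℕ) : ℚ) by norm_num,
      padicValRat.self (by norm_num)]
    simp
  rw [padicValRat.pow] at h1
  apply hp
  have : (p : ℤ) ∣ (N : ℤ) := ⟨_, h1.symm⟩
  exact_mod_cast this

theorem norm_g : QuadraticAlgebra.norm g = -1 := by
  rw [QuadraticAlgebra.norm_def]
  simp [g]
  norm_num

/-- `X ^ Y + 2 g ^ (4 n)` is irreducible. -/
theorem irr_two {n Y : ℕ} (hY : 1 ≤ Y) :
    Irreducible (X ^ Y - C (-(2 * g ^ (4 * n)) : QS)) := by
  have hnorm2 : QuadraticAlgebra.norm (2 : QS) = 2 ^ 2 := by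
    have := QuadraticAlgebra.norm_natCast (a := (2 : ℚ)) (b := 0) 2
    simpa using this
  apply capelli (by omega)
  · intro p hp hpY z hz
    rcases hp.eq_two_or_odd' with h2 | hodd
    · subst h2
      have h1 := congrArg e₁ hz
      rw [map_pow, map_neg, map_mul, map_ofNat] at h1
      have := e₁_pos (4 * n)
      nlinarith [sq_nonneg (e₁ z)]
    · have h1 := congrArg QuadraticAlgebra.norm hz
      rw [map_pow, QuadraticAlgebra.norm_neg, map_mul, hnorm2, map_pow, norm_g] at h1
      have h2 : ((-1 : ℚ)) ^ (4 * n) = 1 := by rw [pow_mul]; norm_num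
      rw [h2, mul_one] at h1
      refine rat_pow_ne (fun hd => ?_) h1
      have h3 := Nat.le_of_dvd (by norm_num) hd
      have h4 := hp.two_le
      have : p = 2 := by omega
      rw [this] at hodd
      exact absurd hodd (by decide)
  · intro h4 z hz
    have h5 : 2 * g ^ (4 * n) = 2 * 2 * z ^ 4 := by linear_combination hz
    have h6 := congrArg QuadraticAlgebra.norm h5
    rw [map_mul, map_mul, map_mul, hnorm2, map_pow, map_pow, norm_g] at h6
    have h2 : ((-1 : ℚ)) ^ (4 * n) = 1 := by rw [pow_mul]; norm_num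
    rw [h2] at h6
    have h7 : (2 * QuadraticAlgebra.norm z ^ 2) ^ 2 = 1 := by linarith
    have h8 : 2 * QuadraticAlgebra.norm z ^ 2 = 1 := by
      have h9 : 0 ≤ 2 * QuadraticAlgebra.norm z ^ 2 := by positivity
      nlinarith
    apply sq_ne_two (2 * QuadraticAlgebra.norm z)
    linarith

end Q217.SG.Silver
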