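import Pool.Agent.Q217.SG.Silver

/-!
# Products of sparse numbers `a + b √2`
-/

set_option autoImplicit false

namespace Q217.SG.Silver

open Finset Polynomial Q217.SF

/-! ### The unit -/

theorem norm_cast' (z : ZS) : e₁ (incl z) * e₂ (incl z) = ((z.norm : ℤ) : ℝ) := by
  rw [e₁_mul_e₂, QuadraticAlgebra.norm_def, QuadraticAlgebra.norm_def]
  change (((z.re : ℚ) * z.re + 0 * z.re * z.im - 2 * z.im * z.im : ℚ) : ℝ) = _
  push_cast
  rfl

/-- the silver unit with its embeddings -/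
noncomputable def QS₀ : QU ZS where
  s₁ := e₁.comp incl
  s₂ := e₂.comp incl
  inj₁ := e₁.injective.comp incl_injective
  inj₂ := e₂.injective.comp incl_injective
  u :=
    { val := γ
      inv := -γ'
      val_inv := by ext <;> simp [γ, γ', QuadraticAlgebra.re_one, QuadraticAlgebra.im_one]
      inv_val := by ext <;> simp [γ, γ', QuadraticAlgebra.re_one, QuadraticAlgebra.im_one] }
  one_lt := by
    change 1 < e₁ (incl γ)
    rw [incl_γ, e₁_g]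
    linarith [one_lt_sqrt]
  h₂ := by
    change |e₂ (incl γ)| = (e₁ (incl γ))⁻¹
    rw [incl_γ, e₁_g, abs_of_neg e₂_g_neg, e₂_g]
    apply eq_inv_of_mul_eq_one_left
    linear_combination sqrt_sq
  hN z := ⟨z.norm, norm_cast' z⟩

/-- powers of the unit -/
noncomputable abbrev G (e : ℤ) : ZS := QS₀.G e

/-- the size -/
noncomputable abbrev sz (z : ZS) : ℝ := QS₀.sz z

theorem G_natCast (n : ℕ) : G n = γ ^ n := QS₀.G_natCast n

theorem θ_eq : QS₀.θ = 1 + Real.sqrt 2 := by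
  change e₁ (incl γ) = _
  rw [incl_γ, e₁_g]

theorem s₁_apply (z : ZS) : QS₀.s₁ z = z.re + z.im * Real.sqrt 2 := by
  change (((z.re : ℤ) : ℚ) : ℝ) + (((z.im : ℤ) : ℚ) : ℝ) * _ = _
  push_cast
  rfl

theorem s₂_apply (z : ZS) : QS₀.s₂ z = z.re - z.im * Real.sqrt 2 := by
  change (((z.re : ℤ) : ℚ) : ℝ) + (((z.im : ℤ) : ℚ) : ℝ) * (-Real.sqrt 2) = _
  push_cast
  ring

theorem sz_star (z : ZS) : sz (star z) = sz z := by
  have h1 : QS₀.s₁ (star z) = QS₀.s₂ z := by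
    rw [s₁_apply, s₂_apply]
    have h1 : (star z).re = z.re := by simp
    have h2 : (star z).im = -z.im := by simp
    rw [h1, h2]
    push_cast
    ring
  have h2 : QS₀.s₂ (star z) = QS₀.s₁ z := by
    rw [s₁_apply, s₂_apply]
    have h1 : (star z).re = z.re := by simp
    have h2 : (star z).im = -z.im := by simp
    rw [h1, h2]
    push_cast
    ring
  simp only [sz, QU.sz, h1, h2]
  exact max_comm _ _

theorem sz_le (a b : ℤ) : sz (⟨a + b, b⟩ : ZS) ≤ |(a : ℝ)| + 3 * |(b : ℝ)| := by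
  have h1 := one_lt_sqrt
  have h2 := sqrt_lt
  have key : ∀ w : ℝ, |w| ≤ 3 → |(a : ℝ) + b * w| ≤ |(a : ℝ)| + 3 * |(b : ℝ)| := by
    intro w hw
    calc |(a : ℝ) + b * w| ≤ |(a : ℝ)| + |(b : ℝ) * w| := abs_add_le _ _
      _ = |(a : ℝ)| + |(b : ℝ)| * |w| := by rw [abs_mul]
      _ ≤ |(a : ℝ)| + |(b : ℝ)| * 3 := by
          have := mul_le_mul_of_nonneg_left hw (abs_nonneg (b : ℝ))
          linarith
      _ = |(a : ℝ)| + 3 * |(b : ℝ)| := by ring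
  simp only [sz, QU.sz, s₁_apply, s₂_apply]
  push_cast
  apply max_le
  · have := key (1 + Real.sqrt 2) (by rw [abs_le]; constructor <;> linarith)
    have e : (a : ℝ) + b + b * Real.sqrt 2 = a + b * (1 + Real.sqrt 2) := by ring
    rw [e]; exact this
  · have := key (1 - Real.sqrt 2) (by rw [abs_le]; constructor <;> linarith)
    have e : (a : ℝ) + b - b * Real.sqrt 2 = a + b * (1 - Real.sqrt 2) := by ring
    rw [e]; exact this

/-! ### The main theorems -/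

theorem silver_plus {n l : ℕ} (hodd : Odd n) (k : Fin 2 → ℕ) (c : ∀ t, Fin (k t) → ZS)
    (α : ∀ t, Fin (k t) → ℤ) (d : Fin l → ZS) (β : Fin l → ℤ)
    (hprod : ∏ t, ∑ i, c t i * G (α t i) = (∑ j, d j * G (β j)) * (1 * γ ^ (2 * n) + 1))
    (H : ℕ) (hH : (∏ t, ∑ i, sz (c t i) + (∑ j, sz (d j)) * (sz 1 + sz 1)) ^ 2 <
      4 * QS₀.θ ^ (H + 1))
    (hbig : (∑ t, k t + l + 1) * 2 ^ (∑ t, k t + l) * H < 2 * n)
    (hn : ∀ p : ℕ, p.Prime → Odd p → p ≤ 2 ^ (∑ t, k t + l) → ¬ p ∣ n) :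
    ∃ t, γ ^ (2 * n) + 1 ∣ ∑ i, c t i * G (α t i) := by
  obtain ⟨P, Pq, s, s', Y, hY1, hY2, hP, hid⟩ :=
    QS₀.data (M := 2 * n) k c α d β 1 1 hprod H hH hbig
  obtain ⟨t, ht⟩ := dvd_of_prime_map incl_injective (G := X ^ Y + C (γ ^ (2 * n)))
    (monic_X_pow_add_C _ (by omega))
    (by
      have := irr_plus (n := n) hY1 hodd
        (fun p hp ho hd => hn p hp ho ((Nat.le_of_dvd (by omega) hd).trans hY2))
      have e : incl (γ ^ (2 * n)) = g ^ (2 * n) := by rw [map_pow, incl_γ]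
      rw [Polynomial.map_add, Polynomial.map_pow, map_X, map_C, e]
      rw [map_neg, sub_neg_eq_add] at this
      exact this)
    (by
      rw [coeff_add, coeff_X_pow, if_neg (by omega), coeff_C_zero, zero_add]
      rw [← G_natCast]
      exact (Units.ne_zero _))
    (Q := C 1 * X ^ Y + C (1 * γ ^ (2 * n))) (by rw [C_1, one_mul, one_mul]) hid
  refine ⟨t, ?_⟩
  rw [hP t] at ht
  rw [add_comm]
  simpa using ht

theorem silver_minus {n l : ℕ} (hodd : Odd n) (k : Fin 2 → ℕ) (c : ∀ t, Fin (k t) → ZS)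
    (α : ∀ t, Fin (k t) → ℤ) (d : Fin l → ZS) (β : Fin l → ℤ)
    (hprod : ∏ t, ∑ i, c t i * G (α t i) = (∑ j, d j * G (β j)) * (1 * γ ^ (2 * n) + -1))
    (H : ℕ) (hH : (∏ t, ∑ i, sz (c t i) + (∑ j, sz (d j)) * (sz 1 + sz (-1))) ^ 2 <
      4 * QS₀.θ ^ (H + 1))
    (hbig : (∑ t, k t + l + 1) * 2 ^ (∑ t, k t + l) * H < 2 * n)
    (hn : ∀ p : ℕ, p.Prime → Odd p → p ≤ 2 ^ (∑ t, k t + l) → ¬ p ∣ n) :
    ∃ t, 1 - γ ^ n ∣ ∑ i, c t i * G (α t i) := by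
  obtain ⟨P, Pq, s, s', Y, hY1, hY2, hP, hid⟩ :=
    QS₀.data (M := 2 * n) k c α d β 1 (-1) hprod H hH hbig
  rcases Nat.even_or_odd' Y with ⟨Z, hZ | hZ⟩
  · obtain ⟨t, ht⟩ := dvd_of_prime_map incl_injective (G := X ^ Z - C (γ ^ n))
      (monic_X_pow_sub_C _ (by omega))
      (by
        have := irr_minus_even (n := n) (Z := Z) (by omega) hodd
          (fun p hp ho hd => hn p hp ho ((Nat.le_of_dvd (by omega) hd).trans (by omega)))
        have e : incl (γ ^ n) = g ^ n := by rw [map_pow, incl_γ]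
        rw [Polynomial.map_sub, Polynomial.map_pow, map_X, map_C, e]
        exact this)
      (by
        rw [coeff_sub, coeff_X_pow, if_neg (by omega), coeff_C_zero, zero_sub]
        rw [← G_natCast]
        exact neg_ne_zero.2 (Units.ne_zero _))
      (Q := C (-1) * X ^ Y + C (1 * γ ^ (2 * n)))
      ⟨-(X ^ Z + C (γ ^ n)), by
        rw [one_mul, hZ, mul_comm 2 Z, pow_mul, mul_comm 2 n, pow_mul, C_pow, C_neg, C_1]
        ring⟩ hid
    refine ⟨t, ?_⟩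
    rw [hP t] at ht
    simpa using ht
  · obtain ⟨t, ht⟩ := dvd_of_prime_map incl_injective (G := X ^ Y - C (γ ^ (2 * n)))
      (monic_X_pow_sub_C _ (by omega))
      (by
        have := irr_minus_odd (n := n) (Y := Y) ⟨Z, hZ⟩
          (fun p hp ho hd => hn p hp ho ((Nat.le_of_dvd (by omega) hd).trans hY2))
        have e : incl (γ ^ (2 * n)) = g ^ (2 * n) := by rw [map_pow, incl_γ]
        rw [Polynomial.map_sub, Polynomial.map_pow, map_X, map_C, e]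
        exact this)
      (by
        rw [coeff_sub, coeff_X_pow, if_neg (by omega), coeff_C_zero, zero_sub]
        rw [← G_natCast]
        exact neg_ne_zero.2 (Units.ne_zero _))
      (Q := C (-1) * X ^ Y + C (1 * γ ^ (2 * n)))
      ⟨-1, by
        rw [C_neg, C_1, one_mul]
        ring⟩ hid
    refine ⟨t, ?_⟩
    rw [hP t] at ht
    have h1 : (1 - γ ^ n : ZS) ∣ 1 - γ ^ (2 * n) := by
      refine ⟨1 + γ ^ n, ?_⟩
      rw [mul_comm 2 n, pow_mul]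
      ring
    have h2 : (1 - γ ^ (2 * n) : ZS) ∣ ∑ i, c t i * G (α t i) := by simpa using ht
    exact h1.trans h2

theorem silver_two {n l : ℕ} (k : Fin 2 → ℕ) (c : ∀ t, Fin (k t) → ZS)
    (α : ∀ t, Fin (k t) → ℤ) (d : Fin l → ZS) (β : Fin l → ℤ)
    (hprod : ∏ t, ∑ i, c t i * G (α t i) = (∑ j, d j * G (β j)) * (2 * γ ^ (4 * n) + 1))
    (H : ℕ) (hH : (∏ t, ∑ i, sz (c t i) + (∑ j, sz (d j)) * (sz 2 + sz 1)) ^ 2 <
      4 * QS₀.θ ^ (H + 1))
    (hbig : (∑ t, k t + l + 1) * 2 ^ (∑ t, k t + l) * H < 4 * n) :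
    ∃ t, 2 * γ ^ (4 * n) + 1 ∣ ∑ i, c t i * G (α t i) := by
  obtain ⟨P, Pq, s, s', Y, hY1, hY2, hP, hid⟩ :=
    QS₀.data (M := 4 * n) k c α d β 2 1 hprod H hH hbig
  obtain ⟨t, ht⟩ := dvd_of_prime_map incl_injective (G := X ^ Y + C (2 * γ ^ (4 * n)))
    (monic_X_pow_add_C _ (by omega))
    (by
      have := irr_two (n := n) hY1
      have e : incl (2 * γ ^ (4 * n)) = 2 * g ^ (4 * n) := by
        rw [map_mul, map_pow, incl_γ, map_ofNat]
      rw [Polynomial.map_add, Polynomial.map_pow, map_X, map_C, e]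
      rw [map_neg, sub_neg_eq_add] at this
      exact this)
    (by
      rw [coeff_add, coeff_X_pow, if_neg (by omega), coeff_C_zero, zero_add]
      rw [← G_natCast]
      exact mul_ne_zero two_ne_zero (Units.ne_zero _))
    (Q := C 1 * X ^ Y + C (2 * γ ^ (4 * n))) (by rw [C_1, one_mul]) hid
  refine ⟨t, ?_⟩
  rw [hP t] at ht
  rw [add_comm]
  simpa using ht

/-! ### Sums of Pell numbers -/

/-- The Pell numbers `P_n`: `0, 1, 2, 5, 12, 29, ...` -/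
def pell : ℕ → ℕ
  | 0 => 0
  | 1 => 1
  | n + 2 => 2 * pell (n + 1) + pell n

/-- The value `∑ (a_i P_(α_i) + b_i P_(α_i + 1))`. -/
def value {k : ℕ} (a b : Fin k → ℤ) (α : Fin k → ℕ) : ℤ :=
  ∑ i, (a i * pell (α i) + b i * pell (α i + 1))

/-- The weight `∑ (|a_i| + 3 |b_i|)`. -/
def weight {k : ℕ} (a b : Fin k → ℤ) : ℕ := ∑ i, ((a i).natAbs + 3 * (b i).natAbs)

/-- `x` is a sum of `k` terms `± P_α`. -/
def Sparse (k : ℕ) (x : ℤ) : Prop :=
  ∃ (a : Fin k → ℤ) (α : Fin k → ℕ), (∀ i, a i = 1 ∨ a i = -1) ∧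
    x = ∑ i, a i * pell (α i)

/-- the square root of `8` -/
def δ : ZS := ⟨0, 2⟩

theorem δ_sq : δ * δ = 8 := by
  ext
  · change (0 : ℤ) * 0 + 2 * 2 * 2 = 8
    norm_num
  · change (0 : ℤ) * 2 + 2 * 0 + 0 * 2 * 2 = 0
    norm_num

theorem δ_ne_zero : δ ≠ 0 := by
  intro h
  have := congrArg QuadraticAlgebra.im h
  simp [δ] at this

theorem star_δ : star δ = -δ := by
  ext <;> simp [δ]

theorem δ_eq : δ = γ - γ' := by
  ext <;> simp [δ, γ, γ']

theorem ω_sq : ω * ω = 2 := by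
  ext
  · change (0 : ℤ) * 0 + 2 * 1 * 1 = 2
    norm_num
  · change (0 : ℤ) * 1 + 1 * 0 + 0 * 1 * 1 = 0
    norm_num

theorem two_ω : 2 * ω = δ := by
  ext
  · change (2 : ℤ) * 0 + 2 * 0 * 1 = 0
    norm_num
  · change (2 : ℤ) * 1 + 0 * 0 + 0 * 0 * 1 = 2
    norm_num

theorem γ_sq : γ ^ 2 = 2 * γ + 1 := by
  rw [sq]
  ext
  · change (1 : ℤ) * 1 + 2 * 1 * 1 = 2 * 1 + 2 * 0 * 1 + 1
    norm_num
  · change (1 : ℤ) * 1 + 1 * 1 + 0 * 1 * 1 = 2 * 1 + 0 * 1 + 0 * 0 * 1 + 0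
    norm_num

theorem γ_mul : γ * γ' = -1 := by
  ext <;> simp [γ, γ', QuadraticAlgebra.re_one, QuadraticAlgebra.im_one]

theorem star_γ : star γ = γ' := by
  ext <;> simp [γ, γ']

theorem γ'_sq : γ' ^ 2 = 2 * γ' + 1 := by
  have := congrArg star γ_sq
  rw [star_pow, star_γ, star_add, star_mul, star_γ, star_one] at this
  have h2 : star (2 : ZS) = 2 := by
    ext <;> rfl
  rw [this, h2]
  ring

theorem δ_pell (n : ℕ) : δ * (pell n : ZS) = γ ^ n - γ' ^ n := by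
  induction n using Nat.twoStepInduction with
  | zero => simp [pell]
  | one => simp [pell, δ_eq]
  | more n h1 h2 =>
    rw [pell]
    push_cast
    have e1 : γ ^ (n + 2) = 2 * γ ^ (n + 1) + γ ^ n := by rw [pow_add, γ_sq]; ring
    have e2 : γ' ^ (n + 2) = 2 * γ' ^ (n + 1) + γ' ^ n := by rw [pow_add, γ'_sq]; ring
    rw [e1, e2]
    linear_combination h1 + 2 * h2

theorem G_neg (m : ℕ) : (-1) ^ m * G (-(m : ℤ)) = γ' ^ m := by
  have h1 : G (-(m : ℤ)) * γ ^ m = 1 := by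
    rw [← G_natCast, G, G, ← QU.G_add, neg_add_cancel, QU.G_zero]
  have h2 : γ' ^ m * γ ^ m = (-1) ^ m := by rw [← mul_pow, mul_comm, γ_mul]
  calc (-1) ^ m * G (-(m : ℤ)) = (γ' ^ m * γ ^ m) * G (-(m : ℤ)) := by rw [h2]
    _ = γ' ^ m * (G (-(m : ℤ)) * γ ^ m) := by ring
    _ = γ' ^ m := by rw [h1, mul_one]

/-- the coefficients of `δ x` -/
def coef {k : ℕ} (a b : Fin k → ℤ) (α : Fin k → ℕ) : Fin (k + k) → ZS :=
  Fin.addCases (fun i => (⟨a i + b i, b i⟩ : ZS))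
    (fun i => -((-1) ^ α i * star (⟨a i + b i, b i⟩ : ZS)))

/-- the exponents of `γ ^ s δ x` -/
def exps {k : ℕ} (α : Fin k → ℕ) (s : ℤ) : Fin (k + k) → ℤ :=
  Fin.addCases (fun i => s + α i) (fun i => s + -(α i : ℤ))

theorem sum_list {k : ℕ} (a b : Fin k → ℤ) (α : Fin k → ℕ) (s : ℤ) :
    ∑ i, coef a b α i * G (exps α s i) = G s * (δ * (value a b α : ZS)) := by
  rw [Fin.sum_univ_add]
  simp only [coef, exps, Fin.addCases_left, Fin.addCases_right]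
  rw [value]
  push_cast
  rw [← Finset.sum_add_distrib, Finset.mul_sum, Finset.mul_sum]
  apply Finset.sum_congr rfl
  intro i _
  have e1 : (⟨a i + b i, b i⟩ : ZS) = (a i : ZS) + (b i : ZS) * γ := by
    ext <;> simp [γ]
  have e2 : star (⟨a i + b i, b i⟩ : ZS) = (a i : ZS) + (b i : ZS) * γ' := by
    ext <;> simp [γ']
  rw [e2, e1, G, G, QU.G_add, QU.G_add, QU.G_natCast]
  have h1 := δ_pell (α i)
  have h2 := δ_pell (α i + 1)
  have h3 := G_neg (α i)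
  have h4 : δ * ((a i : ZS) * (pell (α i) : ZS) + (b i : ZS) * (pell (α i + 1) : ZS)) =
      (a i : ZS) * (γ ^ α i - γ' ^ α i) + (b i : ZS) * (γ ^ (α i + 1) - γ' ^ (α i + 1)) := by
    rw [← h1, ← h2]; ring
  rw [h4]
  rw [pow_succ, pow_succ]
  have h5 : ((QS₀.u : ZSˣ) : ZS) = γ := rfl
  rw [h5]
  linear_combination (-(QS₀.G s * ((a i : ZS) + (b i : ZS) * γ'))) * h3

theorem sz_coef {k : ℕ} (a b : Fin k → ℤ) (α : Fin k → ℕ) :
    ∑ i, sz (coef a b α i) ≤ 2 * (weight a b : ℝ) := by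
  rw [Fin.sum_univ_add]
  simp only [coef, Fin.addCases_left, Fin.addCases_right]
  have h1 : ∀ (m : ℕ) (z : ZS), sz (-((-1) ^ m * z)) = sz z := by
    intro m z
    rcases neg_one_pow_eq_or ZS m with h | h <;> rw [h]
    · rw [one_mul, sz, QU.sz_neg]
    · rw [neg_one_mul, neg_neg]
  simp only [h1, sz_star]
  have h2 : ∑ i, sz (⟨a i + b i, b i⟩ : ZS) ≤ (weight a b : ℝ) := by
    rw [weight]
    push_cast
    apply Finset.sum_le_sum
    intro i _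
    simpa using sz_le (a i) (b i)
  linarith

theorem sz_ω_mul (z : ZS) : sz (ω * z) ≤ 3 / 2 * sz z := by
  refine (QS₀.sz_mul _ _).trans (mul_le_mul_of_nonneg_right ?_ (QS₀.sz_nonneg _))
  have h1 : QS₀.s₁ ω * QS₀.s₁ ω = 2 := by rw [← map_mul, ω_sq, map_ofNat]
  have h2 : QS₀.s₂ ω * QS₀.s₂ ω = 2 := by rw [← map_mul, ω_sq, map_ofNat]
  apply max_le
  · rw [abs_le]; constructor <;> nlinarith
  · rw [abs_le]; constructor <;> nlinarith

theorem sz_two : sz 2 = 2 := by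
  simp only [sz, QU.sz, map_ofNat]
  norm_num

theorem silver_bound {N : ℕ} {x : ℝ} (hx0 : 0 ≤ x) (hx : x ≤ N) :
    x ^ 2 < 4 * QS₀.θ ^ (2 * Nat.log 2 N + 1) := by
  have h1 := Nat.lt_pow_succ_log_self (b := 2) (by norm_num) N
  have h2 : (N : ℝ) < 2 ^ (Nat.log 2 N + 1) := by exact_mod_cast h1
  have hφ := QS₀.one_lt_θ
  have h3 : (4 : ℝ) ≤ QS₀.θ ^ 2 := by
    rw [θ_eq]
    nlinarith [one_lt_sqrt, sqrt_sq]
  calc x ^ 2 ≤ (N : ℝ) ^ 2 := pow_le_pow_left₀ hx0 hx 2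
    _ < (2 ^ (Nat.log 2 N + 1)) ^ 2 := pow_lt_pow_left₀ h2 (Nat.cast_nonneg _) (by norm_num)
    _ = 4 * 4 ^ (Nat.log 2 N) := by
        rw [← pow_mul, mul_comm, pow_mul]
        norm_num
        rw [pow_succ]; ring
    _ ≤ 4 * (QS₀.θ ^ 2) ^ (Nat.log 2 N) := by
        have := pow_le_pow_left₀ (by norm_num : (0 : ℝ) ≤ 4) h3 (Nat.log 2 N)
        linarith
    _ ≤ 4 * QS₀.θ ^ (2 * Nat.log 2 N + 1) := by
        rw [← pow_mul]
        have := pow_le_pow_right₀ hφ.le (Nat.le_add_right (2 * Nat.log 2 N) 1)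
        linarith

theorem int_dvd {m x : ℤ} (h : (m : ZS) ∣ (x : ZS)) : m ∣ x := by
  obtain ⟨w, hw⟩ := h
  have := congrArg QuadraticAlgebra.re hw
  refine ⟨w.re, ?_⟩
  simpa using this

theorem G_cancel {s : ℤ} {A z : ZS} (h : A ∣ G s * z) : A ∣ z := by
  have h1 : z = G (-s) * (G s * z) := by
    rw [← mul_assoc, G, G, ← QU.G_add, neg_add_cancel, QU.G_zero, one_mul]
  rw [h1]
  exact h.mul_left _

section Lists

variable {n k₁ k₂ l : ℕ} (a₁ b₁ : Fin k₁ → ℤ) (α₁ : Fin k₁ → ℕ) (a₂ b₂ : Fin k₂ → ℤ)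
  (α₂ : Fin k₂ → ℕ)

/-- the numbers of terms -/
def kk (k₁ k₂ : ℕ) : Fin 2 → ℕ
  | 0 => k₁ + k₁
  | 1 => k₂ + k₂

/-- the coefficients -/
def cc : ∀ t, Fin (kk k₁ k₂ t) → ZS
  | 0 => coef a₁ b₁ α₁
  | 1 => coef a₂ b₂ α₂

/-- the exponents -/
def ee (n : ℕ) : ∀ t, Fin (kk k₁ k₂ t) → ℤ
  | 0 => exps α₁ n
  | 1 => exps α₂ 0

theorem sum_kk : ∑ t, kk k₁ k₂ t = 2 * (k₁ + k₂) := by
  rw [Fin.sum_univ_two]
  simp only [kk]
  ring

theorem prod_cc : ∏ t, ∑ i, cc a₁ b₁ α₁ a₂ b₂ α₂ t i * G (ee α₁ α₂ n t i) =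
    γ ^ n * (δ * (value a₁ b₁ α₁ : ZS)) * (δ * (value a₂ b₂ α₂ : ZS)) := by
  rw [Fin.prod_univ_two]
  have h1 := sum_list a₁ b₁ α₁ n
  have h2 := sum_list a₂ b₂ α₂ 0
  rw [G, QU.G_zero, one_mul] at h2
  rw [G_natCast] at h1
  exact congrArg₂ (· * ·) h1 h2

theorem dvd_cc {A : ZS} (h : ∃ t, A ∣ ∑ i, cc a₁ b₁ α₁ a₂ b₂ α₂ t i * G (ee α₁ α₂ n t i)) :
    A ∣ δ * (value a₁ b₁ α₁ : ZS) ∨ A ∣ δ * (value a₂ b₂ α₂ : ZS) := by
  obtain ⟨t, ht⟩ := h
  match t, ht with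
  | 0, ht =>
    left
    have h1 : A ∣ G n * (δ * (value a₁ b₁ α₁ : ZS)) := by
      rw [← sum_list a₁ b₁ α₁ n]; exact ht
    exact G_cancel h1
  | 1, ht =>
    right
    have h1 : A ∣ G 0 * (δ * (value a₂ b₂ α₂ : ZS)) := by
      rw [← sum_list a₂ b₂ α₂ 0]; exact ht
    exact G_cancel h1

theorem sparse_value {k : ℕ} {x : ℤ} (h : Sparse k x) :
    ∃ (a : Fin k → ℤ) (α : Fin k → ℕ), weight a 0 = k ∧ x = value a 0 α := by
  obtain ⟨a, α, ha, hx⟩ := h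
  refine ⟨a, α, ?_, ?_⟩
  · have h1 : ∀ i, (a i).natAbs = 1 := by
      intro i
      rcases ha i with h | h <;> rw [h] <;> rfl
    simp [weight, h1]
  · rw [hx, value]
    simp

end Lists

end Q217.SG.Silver
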