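import Pool.Agent.Q217.SG.PairMain

/-!
# Euclid's lemma for `(b ^ n - ε ^ n) / (b - ε)`, `ε = ±1`, and sparse integers in base `b`
-/

set_option autoImplicit false

namespace Q217.SG

open Finset

variable {r : ℕ} {k : Fin r → ℕ} {l : ℕ}

theorem sum_eq_form {k : ℕ} {b ε : ℤ} (hε : ε = 1 ∨ ε = -1) (m : ℕ) (c : Fin k → ℤ)
    (α : Fin k → ℕ) :
    ∑ i, c i * b ^ α i = form b ε m (fun i => c i * ε ^ (m - α i)) α := by
  simp only [form]
  apply Finset.sum_congr rfl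
  intro i _
  have h1 : ε ^ (m - α i) * ε ^ (m - α i) = 1 := by
    rw [← mul_pow]
    have : ε * ε = 1 := by rcases hε with h | h <;> rw [h] <;> norm_num
    rw [this, one_pow]
  calc c i * b ^ α i = c i * b ^ α i * (ε ^ (m - α i) * ε ^ (m - α i)) := by rw [h1, mul_one]
    _ = c i * ε ^ (m - α i) * (b ^ α i * ε ^ (m - α i)) := by ring

theorem natAbs_unit {ε : ℤ} (hε : ε = 1 ∨ ε = -1) (x : ℤ) (j : ℕ) :
    (x * ε ^ j).natAbs = x.natAbs := by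
  rw [Int.natAbs_mul, Int.natAbs_pow]
  have : ε.natAbs = 1 := by rcases hε with h | h <;> rw [h] <;> rfl
  rw [this, one_pow, mul_one]

/-- **Euclid's lemma for sparse integers.** -/
theorem euclid_unit {b ε : ℤ} (hε : ε = 1 ∨ ε = -1) (h : Good b ε) {n : ℕ} (hn1 : 1 ≤ n)
    (hr : 2 ≤ r) (c : ∀ t, Fin (k t) → ℤ) (α : ∀ t, Fin (k t) → ℕ) (d : Fin l → ℤ)
    (β : Fin l → ℕ)
    (hcop : ∀ p : ℕ, p.Prime → p ∣ n → Real.sqrt (2 * r) ^ (∑ t, k t + l) < p)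
    {N : ℤ} (hN : (b - ε) * N = b ^ n - ε ^ n)
    (hprod : ∏ t, ∑ i, c t i * b ^ α t i = (∑ j, d j * b ^ β j) * N)
    (hbig : ((∑ t, k t + l + 1 : ℕ) : ℝ) * Real.sqrt (2 * r) ^ (∑ t, k t + l) *
      Nat.log b.natAbs ((b - ε).natAbs * ∏ t, ∑ i, (c t i).natAbs +
        2 * ∑ j, (d j).natAbs) < n) :
    ∃ t, N ∣ ∑ i, c t i * b ^ α t i := by
  classical
  have hb1 := h.one_lt
  let A : Fin r → ℕ := fun t => ∑ i, α t i
  let B : ℕ := ∑ j, β j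
  let t0 : Fin r := ⟨0, by omega⟩
  let m : Fin r → ℕ := fun t => A t + if t = t0 then B + (n - 1) else 0
  let mq : ℕ := ∑ t, A t + B
  have hε1 : ε.natAbs = 1 := by rcases hε with h | h <;> rw [h] <;> rfl
  have hαm : ∀ t i, α t i ≤ m t := by
    intro t i
    have : α t i ≤ A t :=
      Finset.single_le_sum (f := fun i => α t i) (fun _ _ => Nat.zero_le _) (Finset.mem_univ i)
    simp only [m]
    omega
  have hβm : ∀ j, β j ≤ mq := by
    intro j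
    have : β j ≤ B :=
      Finset.single_le_sum (f := fun j => β j) (fun _ _ => Nat.zero_le _) (Finset.mem_univ j)
    simp only [mq]
    omega
  have hsum : ∑ t, m t + 1 = mq + n := by
    simp only [m, mq]
    rw [Finset.sum_add_distrib, Finset.sum_ite_eq' Finset.univ t0 (fun _ => B + (n - 1))]
    simp only [Finset.mem_univ, if_true]
    omega
  have e1 : ∀ t, ∑ i, (c t i * ε ^ (m t - α t i)).natAbs = ∑ i, (c t i).natAbs := by
    intro t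
    apply Finset.sum_congr rfl
    intro i _
    exact natAbs_unit hε _ _
  have e2 : ∑ j, (d j * ε ^ (mq - β j)).natAbs = ∑ j, (d j).natAbs := by
    apply Finset.sum_congr rfl
    intro j _
    exact natAbs_unit hε _ _
  obtain ⟨t, ht⟩ := euclid_pair h (by rw [Int.abs_eq_natAbs, hε1]; omega) (n := n) hr
    (fun t i => c t i * ε ^ (m t - α t i)) α m (fun j => d j * ε ^ (mq - β j)) β mq hαm hβm hsum
    hcop hN
    (by
      rw [← sum_eq_form hε, ← hprod]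
      apply Finset.prod_congr rfl
      intro t _
      rw [← sum_eq_form hε])
    (by
      rw [Finset.prod_congr rfl (fun t _ => e1 t), e2, hε1, mul_one]
      exact hbig)
  rw [← sum_eq_form hε] at ht
  exact ⟨t, ht⟩

theorem euclid_unit_two {b ε : ℤ} (hε : ε = 1 ∨ ε = -1) (h : Good b ε) {n k₁ k₂ l : ℕ}
    (hn1 : 1 ≤ n) (c₁ : Fin k₁ → ℤ) (α₁ : Fin k₁ → ℕ) (c₂ : Fin k₂ → ℤ) (α₂ : Fin k₂ → ℕ)
    (d : Fin l → ℤ) (β : Fin l → ℕ)
    (hcop : ∀ p : ℕ, p.Prime → p ∣ n → 2 ^ (k₁ + k₂ + l) < p)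
    {N : ℤ} (hN : (b - ε) * N = b ^ n - ε ^ n)
    (hprod : (∑ i, c₁ i * b ^ α₁ i) * ∑ i, c₂ i * b ^ α₂ i = (∑ j, d j * b ^ β j) * N)
    (hbig : (k₁ + k₂ + l + 1) * 2 ^ (k₁ + k₂ + l) *
      Nat.log b.natAbs ((b - ε).natAbs * ((∑ i, (c₁ i).natAbs) * ∑ i, (c₂ i).natAbs) +
        2 * ∑ j, (d j).natAbs) < n) :
    (N ∣ ∑ i, c₁ i * b ^ α₁ i) ∨ N ∣ ∑ i, c₂ i * b ^ α₂ i := by
  let k : Fin 2 → ℕ := fun t => match t with
    | 0 => k₁
    | 1 => k₂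
  let c : ∀ t, Fin (k t) → ℤ := fun t => match t with
    | 0 => c₁
    | 1 => c₂
  let α : ∀ t, Fin (k t) → ℕ := fun t => match t with
    | 0 => α₁
    | 1 => α₂
  have hsum : ∑ t, k t = k₁ + k₂ := by rw [Fin.sum_univ_two]
  have hsqrt : Real.sqrt (2 * ((2 : ℕ) : ℝ)) = 2 := by
    rw [show (2 : ℝ) * ((2 : ℕ) : ℝ) = 2 ^ 2 by norm_num]
    exact Real.sqrt_sq (by norm_num)
  obtain ⟨t, ht⟩ := euclid_unit hε h (n := n) (r := 2) hn1 le_rfl c α d β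
    (by
      intro p hp hpn
      rw [hsum, hsqrt]
      exact_mod_cast hcop p hp hpn)
    hN
    (by rw [Fin.prod_univ_two]; exact hprod)
    (by
      rw [hsum, hsqrt, Fin.prod_univ_two]
      exact_mod_cast hbig)
  match t, ht with
  | 0, ht => exact Or.inl ht
  | 1, ht => exact Or.inr ht

/-- `x` has at most `K` nonzero digits `c_i`, `|c_i| < b`, of either sign in base `b`. -/
def Digits (b K : ℕ) (x : ℤ) : Prop :=
  ∃ k : ℕ, k ≤ K ∧ ∃ (c : Fin k → ℤ) (α : Fin k → ℕ), (∀ i, |c i| < b) ∧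
    x = ∑ i, c i * (b : ℤ) ^ α i

theorem sum_digits_le {k b : ℕ} (c : Fin k → ℤ) (hc : ∀ i, |c i| < b) :
    ∑ i, (c i).natAbs ≤ k * (b - 1) := by
  calc ∑ i, (c i).natAbs ≤ ∑ _i : Fin k, (b - 1) := by
        apply Finset.sum_le_sum
        intro i _
        have := hc i
        rw [Int.abs_eq_natAbs] at this
        have h2 : (c i).natAbs < b := by exact_mod_cast this
        omega
    _ = k * (b - 1) := by simp

theorem log_digits {b k₁ k₂ l s₁ s₂ s₃ : ℕ} (hb : 2 ≤ b) (h₁ : s₁ ≤ k₁ * (b - 1))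
    (h₂ : s₂ ≤ k₂ * (b - 1)) (h₃ : s₃ ≤ l * (b - 1)) :
    Nat.log b ((b + 1) * (s₁ * s₂) + 2 * s₃) ≤ k₁ + k₂ + l + 3 := by
  obtain ⟨a, rfl⟩ := Nat.exists_eq_add_of_le' (show 1 ≤ b by omega)
  rw [Nat.add_sub_cancel] at h₁ h₂ h₃
  have h4 : (a + 1 + 1) * (s₁ * s₂) + 2 * s₃ ≤ (a + 1) ^ 3 * (k₁ * k₂ + l) := by
    calc (a + 1 + 1) * (s₁ * s₂) + 2 * s₃ ≤
        (a + 1 + 1) * ((k₁ * a) * (k₂ * a)) + 2 * (l * a) := by
          apply Nat.add_le_add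
          · exact Nat.mul_le_mul_left _ (Nat.mul_le_mul h₁ h₂)
          · exact Nat.mul_le_mul_left _ h₃
      _ = ((a + 2) * a ^ 2) * (k₁ * k₂) + (2 * a) * l := by ring
      _ ≤ (a + 1) ^ 3 * (k₁ * k₂) + (a + 1) ^ 3 * l := by
          apply Nat.add_le_add
          · apply Nat.mul_le_mul_right
            nlinarith
          · apply Nat.mul_le_mul_right
            have e : (a + 1) ^ 3 = a ^ 3 + 3 * a ^ 2 + 3 * a + 1 := by ring
            rw [e]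
            linarith [Nat.zero_le (a ^ 3), Nat.zero_le (a ^ 2)]
      _ = (a + 1) ^ 3 * (k₁ * k₂ + l) := by ring
  have h5 : k₁ * k₂ + l ≤ 2 ^ (k₁ + k₂ + l) := by
    have h6 : ∀ j : ℕ, j + 1 ≤ 2 ^ j := fun j => Nat.lt_two_pow_self
    have h7 : (k₁ + 1) * (k₂ + 1) * (l + 1) ≤ 2 ^ k₁ * 2 ^ k₂ * 2 ^ l :=
      Nat.mul_le_mul (Nat.mul_le_mul (h6 _) (h6 _)) (h6 _)
    rw [← pow_add, ← pow_add] at h7
    refine le_trans ?_ h7
    nlinarith [Nat.zero_le (k₁ * k₂ * l), Nat.zero_le (k₁ * l), Nat.zero_le (k₂ * l)]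
  have h6 : 2 ^ (k₁ + k₂ + l) ≤ (a + 1) ^ (k₁ + k₂ + l) := Nat.pow_le_pow_left hb _
  have h7 : (a + 1 + 1) * (s₁ * s₂) + 2 * s₃ ≤ (a + 1) ^ (k₁ + k₂ + l + 3) := by
    calc (a + 1 + 1) * (s₁ * s₂) + 2 * s₃ ≤ (a + 1) ^ 3 * (k₁ * k₂ + l) := h4
      _ ≤ (a + 1) ^ 3 * (a + 1) ^ (k₁ + k₂ + l) := Nat.mul_le_mul_left _ (h5.trans h6)
      _ = (a + 1) ^ (k₁ + k₂ + l + 3) := by rw [← pow_add]; congr 1; omega
  calc Nat.log (a + 1) ((a + 1 + 1) * (s₁ * s₂) + 2 * s₃) ≤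
      Nat.log (a + 1) ((a + 1) ^ (k₁ + k₂ + l + 3)) := Nat.log_mono_right h7
    _ = k₁ + k₂ + l + 3 := Nat.log_pow (by omega) _

end Q217.SG
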